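import Mathlib
set_option autoImplicit false

/-! Definitions for the construction behind S04484 (planar sets with equal line counts). -/

namespace Pool.Agent.Helper149.FD
open MeasureTheory Set

/-- incidence of two pairs (one of them a point, the other a line `y = a x - b`); symmetric -/
def inc (P Q : ℝ × ℝ) : Prop := P.2 + Q.2 = P.1 * Q.1

abbrev Rec := Option (ℕ ⊕ ℕ × ℕ)

def Sat : Rec → ℕ → (ℕ → ℝ × ℝ) → Prop
  | none, _, _ => True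
  | some (Sum.inl i), n, Y => i < n ∧ inc (Y i) (Y n)
  | some (Sum.inr (i, j)), n, Y =>
      i < n ∧ j < n ∧ (Y i).1 ≠ (Y j).1 ∧ inc (Y i) (Y n) ∧ inc (Y j) (Y n)

def cost : Rec → ℕ
  | none => 2
  | some (Sum.inl _) => 1
  | some (Sum.inr _) => 0

noncomputable def rho (n : ℕ) : ℝ := 1 / ((n : ℝ) + 1)
noncomputable def ctr (q : ℚ) : ℝ := max 0 (min 1 (q : ℝ))
noncomputable def hat (j : ℚ × ℕ) (u : ℝ) : ℝ := max 0 ((rho j.2) ^ 2 - (u - ctr j.1) ^ 2)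
noncomputable def chi (j : ℚ × ℕ) (u : ℝ) : ℝ := u * (1 - u) * (hat j u) ^ 2
noncomputable def om (wt : (ℚ × ℕ) × ℕ → ℝ) (K : ℝ) (c : (ℚ × ℕ) × ℕ → Set.Icc (0:ℝ) 1) (u : ℝ) : ℝ :=
  K * (u * (1 - u)) + ∑' x, (c x : ℝ) * (wt x * chi x.1 u)

def frU (e : Fin 3) (X : ℝ × ℝ) : ℝ := if e = 2 then X.1 else X.2
def frW (e : Fin 3) (X : ℝ × ℝ) : ℝ := if e = 0 then 1 - X.1 - X.2 else if e = 1 then X.1 else X.2

def arc (w : Fin 3 × Fin 5 → ℝ → ℝ) (a : Fin 3 × Fin 5) : Set (ℝ × ℝ) :=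
  {X | 0 < frU a.1 X ∧ frU a.1 X < 1 ∧ frW a.1 X = w a (frU a.1 X)}

noncomputable def Kc (i : Fin 5) : ℝ := ((i : ℕ) + 1 : ℝ) / 12

structure Good (w : Fin 3 × Fin 5 → ℝ → ℝ) : Prop where
  cont : ∀ a, Continuous (w a)
  lo : ∀ a, ∀ u ∈ Set.Icc (0:ℝ) 1, Kc a.2 * (u * (1 - u)) ≤ w a u
  hi : ∀ a, ∀ u ∈ Set.Icc (0:ℝ) 1, w a u ≤ (Kc a.2 + 1/1000) * (u * (1 - u))
  conc : ∀ a, StrictConcaveOn ℝ (Set.Icc 0 1) (w a)

/-- a line contains none of the three vertices (0,0), (1,0), (0,1) -/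
def VF (l : ℝ × ℝ) : Prop := ¬ inc (0, 0) l ∧ ¬ inc (1, 0) l ∧ ¬ inc (0, 1) l

end Pool.Agent.Helper149.FD
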