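import Pool.Agent.Helper149.FDLemmas
set_option autoImplicit false
namespace Pool.Agent.Helper149.FD
open MeasureTheory Set

abbrev Arcs := Fin 3 × Fin 5
abbrev Kap := Arcs × (ℚ × ℕ)
abbrev Par := Kap × ℕ → Set.Icc (0:ℝ) 1

def cz (c : Par) (a : Arcs) : (ℚ × ℕ) × ℕ → Set.Icc (0:ℝ) 1 := fun x => c ((a, x.1), x.2)

noncomputable def wz (wt : (ℚ × ℕ) × ℕ → ℝ) (c : Par) (a : Arcs) (u : ℝ) : ℝ :=
  om wt (Kc a.2) (cz c a) u

abbrev Tmp := (Σ s : ℕ, (Fin s → ℕ) × (Fin s → Kap)) × List Rec × ℕ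

def box (k : ℕ) : Set (ℝ × ℝ) := Set.Icc (-(k:ℝ)) k ×ˢ Set.Icc (-(k:ℝ)) k

def SatC (k : ℕ) : Rec → ℕ → (ℕ → ℝ × ℝ) → Prop
  | none, _, _ => True
  | some (Sum.inl i), n, Y => i < n ∧ inc (Y i) (Y n)
  | some (Sum.inr (i, j)), n, Y =>
      i < n ∧ j < n ∧ 1 ≤ (k:ℝ) * |(Y i).1 - (Y j).1| ∧ inc (Y i) (Y n) ∧ inc (Y j) (Y n)

theorem SatC.sat {k : ℕ} {r : Rec} {n : ℕ} {Y : ℕ → ℝ × ℝ} (h : SatC k r n Y) : Sat r n Y := by
  rcases r with _ | i | ⟨i, j⟩
  · trivial
  · exact h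
  · obtain ⟨h1, h2, h3, h4, h5⟩ := h
    refine ⟨h1, h2, ?_, h4, h5⟩
    intro h0
    rw [h0] at h3
    simp at h3
    linarith

theorem isClosed_satC (k : ℕ) (r : Rec) (n : ℕ) : IsClosed {Y : ℕ → ℝ × ℝ | SatC k r n Y} := by
  rcases r with _ | i | ⟨i, j⟩
  · simp [SatC]
  · simp only [SatC, inc, Set.setOf_and]
    refine IsClosed.inter isClosed_const (isClosed_eq (by fun_prop) (by fun_prop))
  · simp only [SatC, inc, Set.setOf_and]
    refine IsClosed.inter isClosed_const (IsClosed.inter isClosed_const (IsClosed.inter ?_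
      (IsClosed.inter (isClosed_eq (by fun_prop) (by fun_prop)) (isClosed_eq (by fun_prop) (by fun_prop)))))
    exact isClosed_le (by fun_prop) (by fun_prop)

def Conf (wt : (ℚ × ℕ) × ℕ → ℝ) (T : Tmp) (z : Par × (ℝ × ℝ)) (Y : ℕ → ℝ × ℝ) : Prop :=
  (T.2.1.map cost).sum < T.1.1 ∧ (∀ i, T.1.2.1 i ≤ T.2.1.length) ∧ z.2 ∈ box T.2.2 ∧
  (∀ n, Y n ∈ box T.2.2) ∧ (Y 0).1 * Real.sin z.2.1 = - Real.cos z.2.1 ∧
  (Y 0).2 * Real.sin z.2.1 = - z.2.2 ∧
  (∀ n < T.2.1.length, SatC T.2.2 (T.2.1.getD n none) (n+1) Y) ∧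
  ∀ i, frW (T.1.2.2 i).1.1 (Y (T.1.2.1 i)) =
        wz wt z.1 (T.1.2.2 i).1 (frU (T.1.2.2 i).1.1 (Y (T.1.2.1 i))) ∧
      1 ≤ (T.2.2 : ℝ) * chi (T.1.2.2 i).2 (frU (T.1.2.2 i).1.1 (Y (T.1.2.1 i))) ∧
      ∀ i', i' ≠ i → (T.1.2.2 i').1 = (T.1.2.2 i).1 →
        chi (T.1.2.2 i').2 (frU (T.1.2.2 i).1.1 (Y (T.1.2.1 i))) = 0

def BadSet (wt : (ℚ × ℕ) × ℕ → ℝ) (T : Tmp) : Set (Par × (ℝ × ℝ)) := {z | ∃ Y, Conf wt T z Y}

theorem frU_cont (e : Fin 3) : Continuous (frU e) := by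
  unfold frU; split_ifs <;> fun_prop

theorem frW_cont (e : Fin 3) : Continuous (frW e) := by
  unfold frW; split_ifs <;> fun_prop

theorem frU_diff (e : Fin 3) : Differentiable ℝ (frU e) := by
  unfold frU; split_ifs <;> fun_prop

theorem frW_diff (e : Fin 3) : Differentiable ℝ (frW e) := by
  unfold frW; split_ifs <;> fun_prop

theorem box_compact (k : ℕ) : IsCompact (box k) := isCompact_Icc.prod isCompact_Icc

section
variable (wt : (ℚ × ℕ) × ℕ → ℝ) (hpos : ∀ x, 0 < wt x) (hsum : Summable wt) (hle : ∑' x, wt x ≤ 1/1000)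

include hpos hsum in
theorem wz_cont (a : Arcs) : Continuous (fun z : Par × ℝ => wz wt z.1 a z.2) := by
  have h := om_continuous wt hpos hsum (Kc a.2)
  have h2 : Continuous (fun z : Par × ℝ => ((cz z.1 a, z.2) : ((ℚ × ℕ) × ℕ → Set.Icc (0:ℝ) 1) × ℝ)) := by
    refine Continuous.prodMk ?_ continuous_snd
    unfold cz
    exact continuous_pi (fun x => (continuous_apply _).comp continuous_fst)
  exact h.comp h2

include hpos hsum in
theorem bad_closed (T : Tmp) : IsClosed (BadSet wt T) := by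
  have hK : IsCompact (Set.pi Set.univ (fun _ : ℕ => box T.2.2)) := isCompact_univ_pi (fun _ => box_compact _)
  haveI : CompactSpace (Set.pi Set.univ (fun _ : ℕ => box T.2.2) : Set (ℕ → ℝ × ℝ)) :=
    isCompact_iff_compactSpace.mp hK
  have hcl : IsClosed {q : (Par × (ℝ × ℝ)) × (ℕ → ℝ × ℝ) | Conf wt T q.1 q.2} := by
    simp only [Conf, Set.setOf_and, Set.setOf_forall]
    refine isClosed_const.inter (IsClosed.inter ?_ (IsClosed.inter ?_ (IsClosed.inter ?_
      (IsClosed.inter ?_ (IsClosed.inter ?_ (IsClosed.inter ?_ ?_))))))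
    · exact isClosed_iInter (fun i => isClosed_const)
    · exact (box_compact _).isClosed.preimage (by fun_prop)
    · exact isClosed_iInter (fun n => (box_compact _).isClosed.preimage (by fun_prop))
    · refine isClosed_eq ?_ ?_
      · exact (((continuous_apply 0).comp continuous_snd).fst).mul (Real.continuous_sin.comp (by fun_prop))
      · exact (Real.continuous_cos.comp (by fun_prop)).neg
    · refine isClosed_eq ?_ ?_
      · exact (((continuous_apply 0).comp continuous_snd).snd).mul (Real.continuous_sin.comp (by fun_prop))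
      · fun_prop
    · exact isClosed_iInter (fun n => isClosed_iInter (fun _ => (isClosed_satC _ _ _).preimage continuous_snd))
    · refine isClosed_iInter (fun i => ?_)
      have hU : Continuous (fun q : (Par × (ℝ × ℝ)) × (ℕ → ℝ × ℝ) =>
          frU (T.1.2.2 i).1.1 (q.2 (T.1.2.1 i))) :=
        (frU_cont _).comp ((continuous_apply _).comp continuous_snd)
      have hW : Continuous (fun q : (Par × (ℝ × ℝ)) × (ℕ → ℝ × ℝ) =>
          frW (T.1.2.2 i).1.1 (q.2 (T.1.2.1 i))) :=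
        (frW_cont _).comp ((continuous_apply _).comp continuous_snd)
      refine IsClosed.inter ?_ (IsClosed.inter ?_ ?_)
      · refine isClosed_eq hW ?_
        have h1 := wz_cont wt hpos hsum (T.1.2.2 i).1
        exact h1.comp (Continuous.prodMk (continuous_fst.comp continuous_fst) hU)
      · refine isClosed_le continuous_const ?_
        exact continuous_const.mul ((chi_differentiable _).continuous.comp hU)
      · refine isClosed_iInter (fun i' => isClosed_iInter (fun _ => isClosed_iInter (fun _ => ?_)))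
        exact isClosed_eq ((chi_differentiable _).continuous.comp hU) continuous_const
  have hcl2 : IsClosed {q : (Par × (ℝ × ℝ)) × (Set.pi Set.univ (fun _ : ℕ => box T.2.2) : Set (ℕ → ℝ × ℝ)) |
      Conf wt T q.1 q.2.1} :=
    hcl.preimage (f := fun q : (Par × (ℝ × ℝ)) × (Set.pi Set.univ (fun _ : ℕ => box T.2.2) : Set (ℕ → ℝ × ℝ)) =>
      (q.1, (q.2 : ℕ → ℝ × ℝ))) (by fun_prop)
  have := isClosedMap_fst_of_compactSpace (X := Par × (ℝ × ℝ)) (Y := (Set.pi Set.univ (fun _ : ℕ => box T.2.2) : Set (ℕ → ℝ × ℝ))) _ hcl2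
  convert this using 1
  ext z
  simp only [BadSet, Set.mem_setOf_eq, Set.mem_image, Prod.exists, exists_and_right, exists_eq_right]
  constructor
  · rintro ⟨Y, hY⟩
    exact ⟨⟨Y, fun n _ => hY.2.2.2.1 n⟩, hY⟩
  · rintro ⟨Y, hY⟩
    exact ⟨Y, hY⟩

end
end Pool.Agent.Helper149.FD
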