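import Pool.Agent.Helper149.FDGlue1
set_option autoImplicit false
namespace Pool.Agent.Helper149.FD
open MeasureTheory Set

section
variable (wt : (ℚ × ℕ) × ℕ → ℝ) (hpos : ∀ x, 0 < wt x) (hsum : Summable wt) (hle : ∑' x, wt x ≤ 1/1000)

include hpos hsum in
theorem wz_diff (c : Par) (a : Arcs) : Differentiable ℝ (wz wt c a) :=
  om_differentiable wt hpos hsum (Kc a.2) (cz c a)

open Classical in
/-- the parameter with the coordinates `(b i, M + i)` set to zero -/
noncomputable def zeroed {s : ℕ} (b : Fin s → Kap) (M : ℕ) (c : Par) : Par :=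
  fun q => if ∃ i : Fin s, q = (b i, M + (i : ℕ)) then ⟨0, by simp⟩ else c q

include hpos hsum in
theorem wz_perturb {s : ℕ} (b : Fin s → Kap) (M : ℕ) (c c' : Par) (x : Fin s → ℝ)
    (h1 : ∀ q, (∀ i : Fin s, q ≠ (b i, M + (i : ℕ))) → c' q = c q)
    (h2 : ∀ i : Fin s, (c' (b i, M + (i : ℕ)) : ℝ) = x i) (i : Fin s) (u : ℝ)
    (hu : ∀ i', i' ≠ i → (b i').1 = (b i).1 → chi (b i').2 u = 0) :
    wz wt c' (b i).1 u = wz wt (zeroed b M c) (b i).1 u
      + x i * (wt ((b i).2, M + (i : ℕ)) * chi (b i).2 u) := by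
  classical
  let J : Finset ((ℚ × ℕ) × ℕ) :=
    (Finset.univ.filter (fun i' : Fin s => (b i').1 = (b i).1)).image (fun i' => ((b i').2, M + (i' : ℕ)))
  have hJ : ∀ y, y ∉ J → cz c' (b i).1 y = cz (zeroed b M c) (b i).1 y := by
    intro y hy
    have hne : ∀ i' : Fin s, (((b i).1, y.1), y.2) ≠ (b i', M + (i' : ℕ)) := by
      intro i' he
      apply hy
      simp only [J, Finset.mem_image, Finset.mem_filter, Finset.mem_univ, true_and]
      refine ⟨i', ?_, ?_⟩
      · have := congrArg (fun q : Kap × ℕ => q.1.1) he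
        exact this.symm
      · have e1 := congrArg (fun q : Kap × ℕ => q.1.2) he
        have e2 := congrArg (fun q : Kap × ℕ => q.2) he
        simp only at e1 e2
        rw [← e1, ← e2]
    unfold cz
    rw [h1 _ hne]
    unfold zeroed
    rw [if_neg]
    rintro ⟨i', hi'⟩
    exact hne i' hi'
  unfold wz
  rw [om_perturb wt hpos hsum (Kc (b i).1.2) (cz (zeroed b M c) (b i).1) (cz c' (b i).1) J hJ u]
  congr 1
  rw [Finset.sum_image]
  · rw [Finset.sum_eq_single i]
    · have e0 : (cz (zeroed b M c) (b i).1 ((b i).2, M + (i : ℕ)) : ℝ) = 0 := by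
        unfold cz zeroed
        rw [if_pos ⟨i, rfl⟩]
      have e1 : (cz c' (b i).1 ((b i).2, M + (i : ℕ)) : ℝ) = x i := by
        unfold cz
        exact h2 i
      rw [e0, e1]; ring
    · intro i' hi' hne
      simp only [Finset.mem_filter, Finset.mem_univ, true_and] at hi'
      rw [hu i' hne hi']; ring
    · intro h; simp at h
  · intro i' _ i'' _ he
    have := congrArg Prod.snd he
    simp only at this
    apply Fin.ext; omega

include hpos hsum in
theorem null_bad (T : Tmp) (M : ℕ) (c : Par) (p : ℝ × ℝ) :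
    volume {x : Fin T.1.1 → ℝ | ∃ c' : Par,
        (∀ q, (∀ i : Fin T.1.1, q ≠ (T.1.2.2 i, M + (i : ℕ))) → c' q = c q) ∧
        (∀ i : Fin T.1.1, (c' (T.1.2.2 i, M + (i : ℕ)) : ℝ) = x i) ∧ (c', p) ∈ BadSet wt T} = 0 := by
  by_cases hT : (T.2.1.map cost).sum < T.1.1 ∧ (∀ i, T.1.2.1 i ≤ T.2.1.length) ∧ Real.sin p.1 ≠ 0
  swap
  · convert measure_empty (μ := (volume : Measure (Fin T.1.1 → ℝ)))
    rw [Set.eq_empty_iff_forall_notMem]
    rintro x ⟨c', _, _, Y, hY⟩
    apply hT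
    refine ⟨hY.1, hY.2.1, ?_⟩
    intro h0
    have := hY.2.2.2.2.1
    simp only at this
    rw [h0, mul_zero] at this
    have h2 := Real.sin_sq_add_cos_sq p.1
    rw [h0] at h2
    have h3 : Real.cos p.1 = 0 := by linarith
    rw [h3] at h2
    norm_num at h2
  obtain ⟨hs, hidx, hsin⟩ := hT
  refine measure_mono_null ?_ (null_param T.2.1 T.1.1 hs (- Real.cos p.1 / Real.sin p.1, - p.2 / Real.sin p.1)
    T.1.2.1 hidx (fun i X => (frW (T.1.2.2 i).1.1 X - wz wt (zeroed T.1.2.2 M c) (T.1.2.2 i).1 (frU (T.1.2.2 i).1.1 X)) /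
      (wt ((T.1.2.2 i).2, M + (i : ℕ)) * chi (T.1.2.2 i).2 (frU (T.1.2.2 i).1.1 X))))
  rintro x ⟨c', h1, h2, Y, hY⟩
  obtain ⟨-, -, -, hbox, hY0, hY1, hSat, hE⟩ := hY
  refine ⟨Y, ?_, fun n hn => (hSat n hn).sat, ?_⟩
  · ext
    · simp only at hY0 ⊢
      rw [eq_div_iff hsin]; exact hY0
    · simp only at hY1 ⊢
      rw [eq_div_iff hsin]; exact hY1
  · intro i
    obtain ⟨hE1, hE2, hE3⟩ := hE i
    have hchi : chi (T.1.2.2 i).2 (frU (T.1.2.2 i).1.1 (Y (T.1.2.1 i))) ≠ 0 := by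
      intro h0; rw [h0] at hE2; simp at hE2; linarith
    have hden : wt ((T.1.2.2 i).2, M + (i : ℕ)) * chi (T.1.2.2 i).2 (frU (T.1.2.2 i).1.1 (Y (T.1.2.1 i))) ≠ 0 :=
      mul_ne_zero (hpos _).ne' hchi
    constructor
    · have d1 : DifferentiableAt ℝ (fun X => frU (T.1.2.2 i).1.1 X) (Y (T.1.2.1 i)) := frU_diff _ _
      have d2 : DifferentiableAt ℝ (fun X => frW (T.1.2.2 i).1.1 X) (Y (T.1.2.1 i)) := frW_diff _ _
      have d3 : DifferentiableAt ℝ (fun X => wz wt (zeroed T.1.2.2 M c) (T.1.2.2 i).1 (frU (T.1.2.2 i).1.1 X))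
          (Y (T.1.2.1 i)) := (wz_diff wt hpos hsum _ _ _).comp _ d1
      have d4 : DifferentiableAt ℝ (fun X => chi (T.1.2.2 i).2 (frU (T.1.2.2 i).1.1 X))
          (Y (T.1.2.1 i)) := (chi_differentiable _ _).comp _ d1
      have d5 : DifferentiableAt ℝ (fun X => wt ((T.1.2.2 i).2, M + (i : ℕ)) *
          chi (T.1.2.2 i).2 (frU (T.1.2.2 i).1.1 X)) (Y (T.1.2.1 i)) := d4.const_mul _
      have d6 := (d2.fun_sub d3).fun_mul (d5.fun_inv hden)
      simpa only [div_eq_mul_inv] using d6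
    · simp only at hE1
      rw [wz_perturb wt hpos hsum T.1.2.2 M c c' x h1 h2 i _ hE3] at hE1
      rw [eq_div_iff hden]
      linarith

include hpos hsum in
theorem exists_generic : ∃ c : Par, ∀ T : Tmp, volume {p | (c, p) ∈ BadSet wt T} = 0 := by
  refine baire_fubini (fun T => BadSet wt T) (fun T => bad_closed wt hpos hsum T) (fun T => box T.2.2)
    (fun T => box_compact _) ?_ ?_
  · rintro T c p ⟨Y, hY⟩
    exact hY.2.2.1
  · intro T
    exact dense_null (BadSet wt T) (bad_closed wt hpos hsum T) T.1.1 T.1.2.2 (null_bad wt hpos hsum T)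

end
end Pool.Agent.Helper149.FD
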