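import Pool.Agent.Helper149.FDGlue2
set_option autoImplicit false
namespace Pool.Agent.Helper149.FD
open MeasureTheory Set Filter

def EE (w : Arcs → ℝ → ℝ) : Set (ℝ × ℝ) := {X | ∃ a, X ∈ arc w a}

/-- `l` belongs to a closed configuration -/
def Deg (w : Arcs → ℝ → ℝ) (l : ℝ × ℝ) : Prop :=
  ∃ F : Finset (ℝ × ℝ), l ∈ F ∧ ∀ l' ∈ F, ∃ G : Finset (ℝ × ℝ), 4 ≤ G.card ∧
    ∀ x ∈ G, x ∈ EE w ∧ inc x l' ∧ ∃ l'' ∈ F, l'' ≠ l' ∧ inc x l''

theorem eventually_box (r : ℝ) : ∀ᶠ k : ℕ in atTop, r ≤ (k : ℝ) :=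
  tendsto_natCast_atTop_atTop.eventually_ge_atTop r

theorem eventually_mul (d : ℝ) (hd : 0 < d) : ∀ᶠ k : ℕ in atTop, 1 ≤ (k : ℝ) * d :=
  (tendsto_natCast_atTop_atTop.atTop_mul_const hd).eventually_ge_atTop 1

theorem eventually_mem_box (X : ℝ × ℝ) : ∀ᶠ k : ℕ in atTop, X ∈ box k := by
  filter_upwards [eventually_box |X.1|, eventually_box |X.2|] with k h1 h2
  exact ⟨abs_le.mp h1, abs_le.mp h2⟩

theorem deg_bad (wt : (ℚ × ℕ) × ℕ → ℝ) (c : Par) (p : ℝ × ℝ) (hsin : Real.sin p.1 ≠ 0)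
    (h : Deg (wz wt c) (- Real.cos p.1 / Real.sin p.1, - p.2 / Real.sin p.1)) :
    ∃ T : Tmp, (c, p) ∈ BadSet wt T := by
  classical
  obtain ⟨F, hlF, hF⟩ := h
  choose! G hG4 hG using hF
  let P : Finset (ℝ × ℝ) := F.biUnion G
  have hP1 : ∀ x ∈ P, x ∈ EE (wz wt c) := by
    intro x hx
    obtain ⟨l, hl, hx⟩ := Finset.mem_biUnion.mp hx
    exact (hG l hl x hx).1
  obtain ⟨R, Y, hY0, hSat, hYP, hcost, hYmem⟩ := extract F P _ hlF (by
    intro l hl
    refine (hG4 l hl).trans (Finset.card_le_card ?_)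
    intro x hx
    exact Finset.mem_filter.mpr ⟨Finset.mem_biUnion.mpr ⟨l, hl, hx⟩, (hG l hl x hx).2.1⟩) (by
    intro x hx
    obtain ⟨l, hl, hx⟩ := Finset.mem_biUnion.mp hx
    obtain ⟨h1, h2, l'', hl'', hne, h3⟩ := hG l hl x hx
    exact ⟨l, hl, l'', hl'', hne.symm, h2, h3⟩)
  let e := P.equivFin
  have hXmem : ∀ i : Fin P.card, ((e.symm i : P) : ℝ × ℝ) ∈ P := fun i => (e.symm i).2
  choose idx hidx hidxX using fun i : Fin P.card => hYP _ (hXmem i)
  choose a ha using fun i : Fin P.card => hP1 _ (hXmem i)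
  have hsep : ∀ i : Fin P.card, ∃ j : ℚ × ℕ, 0 < chi j (frU (a i).1 (e.symm i : P)) ∧
      ∀ v ∈ (fun i' : Fin P.card => frU (a i).1 (e.symm i' : P)) '' {i' | i' ≠ i ∧ a i' = a i}, chi j v = 0 := by
    intro i
    refine chi_separate _ ⟨(ha i).1, (ha i).2.1⟩ _ ((Set.toFinite _).image _) ?_
    rintro ⟨i', ⟨hne, hai⟩, heq⟩
    apply hne
    have h1 : ((e.symm i' : P) : ℝ × ℝ) ∈ arc (wz wt c) (a i) := by
      have := ha i'
      rwa [hai] at this
    have h2 := ext_of_U (wz wt c) (a i) _ _ h1 (ha i) heq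
    have h3 : e.symm i' = e.symm i := Subtype.ext h2
    exact e.symm.injective h3
  choose j hj1 hj2 using hsep
  have hk : ∀ᶠ k : ℕ in atTop, p ∈ box k ∧ (∀ y ∈ F ∪ P, y ∈ box k) ∧
      (∀ i : Fin P.card, 1 ≤ (k : ℝ) * chi (j i) (frU (a i).1 (e.symm i : P))) ∧
      (∀ i ∈ Finset.range (R.length + 1), ∀ i' ∈ Finset.range (R.length + 1), (Y i).1 ≠ (Y i').1 →
        1 ≤ (k : ℝ) * |(Y i).1 - (Y i').1|) := by
    refine (eventually_mem_box p).and (Filter.Eventually.and ?_ (Filter.Eventually.and ?_ ?_))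
    · exact (Filter.eventually_all_finset _).mpr (fun y _ => eventually_mem_box y)
    · exact Filter.eventually_all.mpr (fun i => eventually_mul _ (hj1 i))
    · refine (Filter.eventually_all_finset _).mpr (fun i _ => (Filter.eventually_all_finset _).mpr (fun i' _ => ?_))
      by_cases hne : (Y i).1 = (Y i').1
      · exact Filter.Eventually.of_forall (fun k h => absurd hne h)
      · filter_upwards [eventually_mul _ (abs_pos.mpr (sub_ne_zero.mpr hne))] with k hk _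
        exact hk
  obtain ⟨k, hk1, hk2, hk3, hk4⟩ := hk.exists
  refine ⟨(⟨P.card, idx, fun i => (a i, j i)⟩, R, k), Y, hcost, hidx, hk1, fun n => hk2 _ (hYmem n), ?_, ?_, ?_, ?_⟩
  · simp only [hY0]
    field_simp
  · simp only [hY0]
    field_simp
  · intro n hn
    have := hSat n hn
    simp only at hn this ⊢
    rcases hr : R.getD n none with _ | i | ⟨i, i'⟩
    · trivial
    · rw [hr] at this
      exact this
    · rw [hr] at this
      obtain ⟨h1, h2, h3, h4, h5⟩ := this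
      refine ⟨h1, h2, ?_, h4, h5⟩
      exact hk4 i (Finset.mem_range.mpr (by omega)) i' (Finset.mem_range.mpr (by omega)) h3
  · intro i
    simp only
    rw [hidxX i]
    refine ⟨(ha i).2.2, hk3 i, ?_⟩
    intro i' hne hai
    apply hj2 i'
    refine ⟨i, ⟨hne.symm, hai.symm⟩, ?_⟩
    simp only
    rw [hai]

end Pool.Agent.Helper149.FD
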