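import Pool.Agent.Helper149.FDGlue3
set_option autoImplicit false
namespace Pool.Agent.Helper149.FD
open MeasureTheory Set Filter

theorem exists_wt : ∃ wt : (ℚ × ℕ) × ℕ → ℝ, (∀ x, 0 < wt x) ∧ Summable wt ∧ ∑' x, wt x ≤ 1/1000 := by
  obtain ⟨w, hw1, c, hw2, hw3⟩ := posSumOfEncodable (ε := 1/1000) (by norm_num) ((ℚ × ℕ) × ℕ)
  exact ⟨w, hw1, hw2.summable, by rw [hw2.tsum_eq]; exact hw3⟩

theorem good_wz (wt : (ℚ × ℕ) × ℕ → ℝ) (hpos : ∀ x, 0 < wt x) (hsum : Summable wt)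
    (hle : ∑' x, wt x ≤ 1/1000) (c : Par) : Good (wz wt c) where
  cont := fun a => (wz_diff wt hpos hsum c a).continuous
  lo := fun a u hu => (om_bounds wt hpos hsum hle (Kc a.2) (cz c a) u hu).1
  hi := fun a u hu => (om_bounds wt hpos hsum hle (Kc a.2) (cz c a) u hu).2
  conc := fun a => om_strictConcave wt hpos hsum hle (Kc a.2) (by
    unfold Kc
    have : (0:ℝ) ≤ ((a.2 : ℕ) : ℝ) := Nat.cast_nonneg _
    linarith) (cz c a)

/-- the sign sum counts -/
theorem sum_sign {X : Type*} [DecidableEq X] (t : Finset X) (f : X → SignType) :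
    ∑ x ∈ t, (f x : ℤ) = ((t.filter (fun x => f x = 1)).card : ℤ) - ((t.filter (fun x => f x = -1)).card : ℤ) := by
  rw [Finset.card_filter, Finset.card_filter]
  push_cast
  rw [← Finset.sum_sub_distrib]
  refine Finset.sum_congr rfl (fun x _ => ?_)
  rcases hx : f x with _ | _ | _ <;> simp

theorem ae_sin : ∀ᵐ p : ℝ × ℝ, Real.sin p.1 ≠ 0 := by
  have h1 : ∀ᵐ x : ℝ, Real.sin x ≠ 0 := by
    have hc : {x : ℝ | Real.sin x = 0}.Countable := by
      have : {x : ℝ | Real.sin x = 0} = Set.range (fun n : ℤ => (n : ℝ) * Real.pi) := by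
        ext x
        simp [Real.sin_eq_zero_iff]
      rw [this]
      exact Set.countable_range _
    exact hc.ae_notMem volume
  exact Measure.quasiMeasurePreserving_fst.ae h1

theorem ae_graph (g : ℝ → ℝ) (hg : Continuous g) : ∀ᵐ p : ℝ × ℝ, p.2 ≠ g p.1 := by
  rw [ae_iff]
  simp only [ne_eq, not_not]
  have hm : MeasurableSet {p : ℝ × ℝ | p.2 = g p.1} :=
    (isClosed_eq continuous_snd (hg.comp continuous_fst)).measurableSet
  rw [show (volume : Measure (ℝ × ℝ)) = volume.prod volume from rfl, Measure.measure_prod_null hm]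
  refine Filter.Eventually.of_forall (fun x => ?_)
  simp only [Pi.zero_apply]
  have : (Prod.mk x ⁻¹' {p : ℝ × ℝ | p.2 = g p.1}) = {g x} := by
    ext y; simp
  rw [this]
  exact Real.volume_singleton

theorem inc_iff (p X : ℝ × ℝ) (hs : Real.sin p.1 ≠ 0) :
    inc X (- Real.cos p.1 / Real.sin p.1, - p.2 / Real.sin p.1) ↔
      X.1 * Real.cos p.1 + X.2 * Real.sin p.1 = p.2 := by
  unfold inc
  simp only
  rw [← sub_eq_zero, ← mul_right_inj' hs]
  have : Real.sin p.1 * (X.2 + -p.2 / Real.sin p.1 - X.1 * (-Real.cos p.1 / Real.sin p.1)) =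
      X.1 * Real.cos p.1 + X.2 * Real.sin p.1 - p.2 := by
    field_simp
    ring
  rw [this, mul_zero, sub_eq_zero]

theorem ae_VF : ∀ᵐ p : ℝ × ℝ, VF (- Real.cos p.1 / Real.sin p.1, - p.2 / Real.sin p.1) := by
  have h1 := ae_graph (fun x => 0) (by fun_prop)
  have h2 := ae_graph (fun x => Real.cos x) (by fun_prop)
  have h3 := ae_graph (fun x => Real.sin x) (by fun_prop)
  filter_upwards [ae_sin, h1, h2, h3] with p hs h1 h2 h3
  refine ⟨?_, ?_, ?_⟩
  · rw [inc_iff p _ hs]; simp only [zero_mul, zero_add]; exact fun h => h1 h.symm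
  · rw [inc_iff p _ hs]; simp only [zero_mul, one_mul, add_zero]; exact fun h => h2 h.symm
  · rw [inc_iff p _ hs]; simp only [zero_mul, one_mul, zero_add]; exact fun h => h3 h.symm

theorem main : ¬ (∀ C D : Set (EuclideanSpace ℝ (Fin 2)),
      (∃ f : ℕ → ℝ → EuclideanSpace ℝ (Fin 2),
        (∀ i, ContinuousOn (f i) (Set.Icc 0 1) ∧ Set.InjOn (f i) (Set.Icc 0 1)) ∧
        (∑' i, eVariationOn (f i) (Set.Icc 0 1)) ≠ ⊤ ∧
        C ⊆ ⋃ i, f i '' Set.Icc 0 1) →
      (∃ g : ℕ → ℝ → EuclideanSpace ℝ (Fin 2),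
        (∀ i, ContinuousOn (g i) (Set.Icc 0 1) ∧ Set.InjOn (g i) (Set.Icc 0 1)) ∧
        (∑' i, eVariationOn (g i) (Set.Icc 0 1)) ≠ ⊤ ∧
        D ⊆ ⋃ i, g i '' Set.Icc 0 1) →
      (∀ᵐ p : ℝ × ℝ ∂MeasureTheory.volume,
        (C ∩ {x : EuclideanSpace ℝ (Fin 2) |
            x.ofLp 0 * Real.cos p.1 + x.ofLp 1 * Real.sin p.1 = p.2}).encard =
        (D ∩ {x : EuclideanSpace ℝ (Fin 2) |
            x.ofLp 0 * Real.cos p.1 + x.ofLp 1 * Real.sin p.1 = p.2}).encard) →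
      MeasureTheory.Measure.hausdorffMeasure 1 ((C \ D) ∪ (D \ C)) = 0) := by
  classical
  obtain ⟨wt, hpos, hsum, hle⟩ := exists_wt
  obtain ⟨c, hc⟩ := exists_generic wt hpos hsum
  have hw : Good (wz wt c) := good_wz wt hpos hsum hle c
  set w := wz wt c with hwdef
  let Λ : Type := {l : ℝ × ℝ // VF l ∧ ¬ Deg w l}
  choose GG hGG1 hGG2 using fun (l : Λ) (a : Arcs) => arc_two w hw a l.1 l.2.1
  let tr : Λ → Finset (ℝ × ℝ) := fun l =>
    (Finset.univ.biUnion (fun a => GG l a)).filter (fun X => X ∈ EE w ∧ inc X l.1)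
  have mem_tr : ∀ l X, X ∈ tr l ↔ X ∈ EE w ∧ inc X l.1 := by
    intro l X
    simp only [tr, Finset.mem_filter, Finset.mem_biUnion, Finset.mem_univ, true_and]
    constructor
    · exact fun h => h.2
    · rintro ⟨⟨a, ha⟩, h2⟩
      exact ⟨⟨a, hGG2 l a X ha h2⟩, ⟨a, ha⟩, h2⟩
  obtain ⟨f, hf1, hf2⟩ := coloring (X := ℝ × ℝ) (Λ := Λ) (arc w (2, 0)) tr
    (fun l => ⟨GG l (2, 0), hGG1 l (2, 0), fun x hx hxa => hGG2 l (2, 0) x hxa ((mem_tr l x).mp hx).2⟩)
    (by
      intro l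
      rcases arc_many w hw l.1 l.2.1 with h | ⟨G, hG, h⟩
      · left
        rw [Finset.eq_empty_iff_forall_notMem]
        intro X hX
        obtain ⟨⟨a, ha⟩, h2⟩ := (mem_tr l X).mp hX
        exact h a X ha h2
      · right
        rw [← hG]
        exact Finset.card_le_card (fun X hX => (mem_tr l X).mpr (h X hX)))
    (by
      intro F hF
      by_contra hcon
      push Not at hcon
      obtain ⟨l0, hl0⟩ := hF
      apply l0.2.2
      refine ⟨F.image (fun l => l.1), Finset.mem_image_of_mem _ hl0, ?_⟩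
      intro l' hl'
      obtain ⟨l, hl, rfl⟩ := Finset.mem_image.mp hl'
      refine ⟨(tr l).filter (fun x => ∃ l' ∈ F, l' ≠ l ∧ x ∈ tr l'), ?_, ?_⟩
      · by_contra hlt
        obtain ⟨x, hx, hx2, hx3⟩ := hcon l hl ((tr l).filter (fun x => ∃ l' ∈ F, l' ≠ l ∧ x ∈ tr l')) (by omega)
        exact hx3 (Finset.mem_filter.mpr ⟨hx, hx2⟩)
      · intro x hx
        obtain ⟨hx1, l'', hl'', hne, hx2⟩ := Finset.mem_filter.mp hx
        refine ⟨((mem_tr l x).mp hx1).1, ((mem_tr l x).mp hx1).2, l''.1, Finset.mem_image_of_mem _ hl'', ?_,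
          ((mem_tr l'' x).mp hx2).2⟩
        exact fun h => hne (Subtype.ext h))
  have hgood : ∀ᵐ p : ℝ × ℝ, Real.sin p.1 ≠ 0 ∧
      ∃ l : Λ, l.1 = (- Real.cos p.1 / Real.sin p.1, - p.2 / Real.sin p.1) := by
    have hall : ∀ᵐ p : ℝ × ℝ, ∀ T : Tmp, (c, p) ∉ BadSet wt T := by
      rw [ae_all_iff]
      intro T
      exact measure_eq_zero_iff_ae_notMem.mp (hc T)
    filter_upwards [ae_sin, ae_VF, hall] with p h1 h2 h3
    refine ⟨h1, ⟨_, h2, ?_⟩, rfl⟩
    intro hdeg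
    obtain ⟨T, hT⟩ := deg_bad wt c p h1 hdeg
    exact h3 T hT
  intro H
  let pr : EuclideanSpace ℝ (Fin 2) → ℝ × ℝ := fun x => (x.ofLp 0, x.ofLp 1)
  have hpr : Function.Injective pr := by
    intro x y hxy
    have h1 := congrArg Prod.fst hxy
    have h2 := congrArg Prod.snd hxy
    simp only [pr] at h1 h2
    ext i
    fin_cases i
    · exact h1
    · exact h2
  let Cs : SignType → Set (EuclideanSpace ℝ (Fin 2)) := fun s => {x | pr x ∈ EE w ∧ f (pr x) = s}
  have hrect : ∀ s, ∃ f : ℕ → ℝ → EuclideanSpace ℝ (Fin 2),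
        (∀ i, ContinuousOn (f i) (Set.Icc 0 1) ∧ Set.InjOn (f i) (Set.Icc 0 1)) ∧
        (∑' i, eVariationOn (f i) (Set.Icc 0 1)) ≠ ⊤ ∧
        Cs s ⊆ ⋃ i, f i '' Set.Icc 0 1 := by
    intro s
    refine rect_cover w (fun a => om_lipschitz wt hpos hsum (Kc a.2) (cz c a)) (Cs s) ?_
    intro x hx
    exact hx.1
  have hcount : ∀ p : ℝ × ℝ, Real.sin p.1 ≠ 0 → ∀ l : Λ,
      l.1 = (- Real.cos p.1 / Real.sin p.1, - p.2 / Real.sin p.1) → ∀ s : SignType,
      (Cs s ∩ {x : EuclideanSpace ℝ (Fin 2) |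
            x.ofLp 0 * Real.cos p.1 + x.ofLp 1 * Real.sin p.1 = p.2}).encard =
        (((tr l).filter (fun X => f X = s)).card : ℕ∞) := by
    intro p hs l hl s
    rw [← hpr.encard_image, ← Set.encard_coe_eq_coe_finsetCard]
    congr 1
    ext X
    simp only [Set.mem_image, Set.mem_inter_iff, Finset.coe_filter, Set.mem_setOf_eq, mem_tr]
    constructor
    · rintro ⟨x, ⟨⟨hx1, hx2⟩, hx3⟩, rfl⟩
      refine ⟨⟨hx1, ?_⟩, hx2⟩
      rw [hl, inc_iff p _ hs]
      exact hx3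
    · rintro ⟨⟨h1, h2⟩, h3⟩
      rw [hl, inc_iff p _ hs] at h2
      refine ⟨!₂[X.1, X.2], ⟨⟨?_, ?_⟩, ?_⟩, ?_⟩
      · simpa [pr] using h1
      · simpa [pr] using h3
      · simpa using h2
      · simp [pr]
  have key := H (Cs 1) (Cs (-1)) (hrect 1) (hrect (-1)) (by
    filter_upwards [hgood] with p hp
    obtain ⟨hs, l, hl⟩ := hp
    rw [hcount p hs l hl 1, hcount p hs l hl (-1)]
    have h := hf2 l
    rw [sum_sign] at h
    have h' : ((tr l).filter (fun x => f x = 1)).card = ((tr l).filter (fun x => f x = -1)).card := by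
      omega
    rw [h'])
  refine arc_pos w _ ?_ key
  intro u hu
  have hmem : ((u, w (2, 0) u) : ℝ × ℝ) ∈ arc w (2, 0) := by
    refine ⟨?_, ?_, ?_⟩
    · simpa [frU] using hu.1
    · simpa [frU] using hu.2
    · simp [frU, frW]
  have hprm : pr !₂[u, w (2, 0) u] = (u, w (2, 0) u) := by simp [pr]
  have hne := hf1 _ hmem
  rcases hfx : f (u, w (2, 0) u) with _ | _ | _
  · exact absurd hfx hne
  · right
    refine ⟨⟨?_, ?_⟩, ?_⟩
    · rw [hprm]; exact ⟨_, hmem⟩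
    · rw [hprm]; exact hfx
    · intro hC
      have := hC.2
      rw [hprm, hfx] at this
      exact absurd this (by decide)
  · left
    refine ⟨⟨?_, ?_⟩, ?_⟩
    · rw [hprm]; exact ⟨_, hmem⟩
    · rw [hprm]; exact hfx
    · intro hC
      have := hC.2
      rw [hprm, hfx] at this
      exact absurd this (by decide)

end Pool.Agent.Helper149.FD
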