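import Pool.Agent.Helper149.FDDefs
set_option autoImplicit false
namespace Pool.Agent.Helper149.FD
open MeasureTheory Set

/-- Step 1. image of a lower-dimensional space under a map is null where it is differentiable. -/
theorem null_image {d s : ℕ} (hds : d < s) (h : (Fin d → ℝ) → (Fin s → ℝ)) (D : Set (Fin d → ℝ))
    (hD : ∀ z ∈ D, DifferentiableAt ℝ h z) : volume (h '' D) = 0 := by
  let e : (Fin s → ℝ) →L[ℝ] (Fin d → ℝ) :=
    ContinuousLinearMap.pi fun i => ContinuousLinearMap.proj (Fin.castLE hds.le i)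
  have he : ∀ w i, e w i = w (Fin.castLE hds.le i) := fun w i => rfl
  let W : Submodule ℝ (Fin s → ℝ) :=
    LinearMap.ker (LinearMap.proj (⟨d, hds⟩ : Fin s) : (Fin s → ℝ) →ₗ[ℝ] ℝ)
  have hW : ∀ w : Fin s → ℝ, w ∈ W ↔ w ⟨d, hds⟩ = 0 := fun w => Iff.rfl
  have hWtop : W ≠ ⊤ := by
    intro hc
    have h1 : (fun _ => 1 : Fin s → ℝ) ∈ W := by
      rw [hc]
      trivial
    rw [hW] at h1
    exact one_ne_zero h1
  have hW0 : volume (W : Set (Fin s → ℝ)) = 0 := Measure.addHaar_submodule volume W hWtop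
  have hnull : volume ((h ∘ e) '' ((W : Set (Fin s → ℝ)) ∩ e ⁻¹' D)) = 0 := by
    refine addHaar_image_eq_zero_of_differentiableOn_of_addHaar_eq_zero volume ?_ ?_
    · intro w hw
      exact ((hD _ hw.2).comp w e.differentiableAt).differentiableWithinAt
    · exact measure_mono_null inter_subset_left hW0
  refine measure_mono_null ?_ hnull
  rintro _ ⟨z, hz, rfl⟩
  let w : Fin s → ℝ := fun i => if hi : (i : ℕ) < d then z ⟨i, hi⟩ else 0
  have hew : e w = z := by
    funext i
    rw [he]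
    simp [w]
  refine ⟨w, ⟨?_, ?_⟩, ?_⟩
  · show w ⟨d, hds⟩ = 0
    simp [w]
  · show e w ∈ D
    rw [hew]
    exact hz
  · show h (e w) = h z
    rw [hew]

end Pool.Agent.Helper149.FD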