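import Pool.Agent.Helper149.FDDefs
import Pool.Agent.Helper149.FDJ1a
set_option autoImplicit false

/-
FD J1: null_param.  Objects are elements of ℝ × ℝ (they play the role of points AND of lines, the incidence
relation `inc` is symmetric).  `Sat r n Y` says that the n-th object is obtained by recipe `r`:
`none` = free (2 parameters), `some (inl i)` = incident to the earlier object i (1 parameter),
`some (inr (i,j))` = incident to two earlier objects with different first coordinates (0 parameters, it is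
then determined: (Y n).1 = ((Y i).2 - (Y j).2)/((Y i).1 - (Y j).1), (Y n).2 = (Y i).1 * (Y n).1 - (Y i).2).
-/

namespace Pool.Agent.Helper149.FD
open MeasureTheory Set







theorem step (Rp : List Rec) (r : Rec) (y0 : ℝ × ℝ) (dp c : ℕ) (Gp : (Fin dp → ℝ) → ℕ → ℝ × ℝ)
    (hp : ∀ Y : ℕ → ℝ × ℝ, Y 0 = y0 → (∀ n < Rp.length, Sat (Rp.getD n none) (n+1) Y) →
        ∃ z, ∀ n ≤ Rp.length, Gp z n = Y n ∧ DifferentiableAt ℝ (fun z => Gp z n) z)
    (F : (Fin (dp + c) → ℝ) → ℝ × ℝ)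
    (hF : ∀ (Y : ℕ → ℝ × ℝ) (zp : Fin dp → ℝ),
      (∀ n ≤ Rp.length, Gp zp n = Y n ∧ DifferentiableAt ℝ (fun z => Gp z n) zp) →
      Sat r (Rp.length + 1) Y → ∃ zc : Fin c → ℝ, F (Fin.append zp zc) = Y (Rp.length + 1) ∧
        DifferentiableAt ℝ F (Fin.append zp zc)) :
    ∃ G : (Fin (dp + c) → ℝ) → ℕ → ℝ × ℝ, ∀ Y : ℕ → ℝ × ℝ, Y 0 = y0 →
      (∀ n < (Rp ++ [r]).length, Sat ((Rp ++ [r]).getD n none) (n+1) Y) →
        ∃ z, ∀ n ≤ (Rp ++ [r]).length, G z n = Y n ∧ DifferentiableAt ℝ (fun z => G z n) z := by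
  refine ⟨fun z n => if n ≤ Rp.length then Gp (fun i => z (Fin.castAdd c i)) n else F z, ?_⟩
  intro Y hY0 hsat
  obtain ⟨zp, hzp⟩ := hp Y hY0 (fun n hn => by
    have := hsat n (by simp; omega)
    rwa [List.getD_append _ _ _ _ hn] at this)
  have hr : Sat r (Rp.length + 1) Y := by
    have := hsat Rp.length (by simp)
    rw [List.getD_append_right _ _ _ _ le_rfl, Nat.sub_self] at this
    exact this
  obtain ⟨zc, hFz, hFd⟩ := hF Y zp hzp hr
  have hzz : (fun i => Fin.append zp zc (Fin.castAdd c i)) = zp := by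
    funext i
    exact Fin.append_left _ _ _
  refine ⟨Fin.append zp zc, ?_⟩
  intro n hn
  by_cases hn' : n ≤ Rp.length
  · simp only [if_pos hn']
    rw [hzz]
    refine ⟨(hzp n hn').1, ?_⟩
    have h1 : DifferentiableAt ℝ (fun z : Fin (dp + c) → ℝ => fun i => z (Fin.castAdd c i))
        (Fin.append zp zc) := by fun_prop
    have h2 : DifferentiableAt ℝ (fun z => Gp z n) (fun i => Fin.append zp zc (Fin.castAdd c i)) := by
      rw [hzz]
      exact (hzp n hn').2
    exact h2.comp (Fin.append zp zc) h1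
  · simp only [if_neg hn']
    have h3 : n = Rp.length + 1 := by
      simp only [List.length_append, List.length_singleton] at hn
      omega
    rw [h3]
    exact ⟨hFz, hFd⟩

theorem diff_at {dp c n : ℕ} (Gp : (Fin dp → ℝ) → ℕ → ℝ × ℝ) (zp : Fin dp → ℝ) (zc : Fin c → ℝ)
    (h : DifferentiableAt ℝ (fun z => Gp z n) zp) :
    DifferentiableAt ℝ (fun z : Fin (dp + c) → ℝ => Gp (fun i => z (Fin.castAdd c i)) n)
      (Fin.append zp zc) := by
  have hzz : (fun i => Fin.append zp zc (Fin.castAdd c i)) = zp := by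
    funext i
    exact Fin.append_left _ _ _
  have h1 : DifferentiableAt ℝ (fun z : Fin (dp + c) → ℝ => fun i => z (Fin.castAdd c i))
      (Fin.append zp zc) := by fun_prop
  have h2 : DifferentiableAt ℝ (fun z => Gp z n) (fun i => Fin.append zp zc (Fin.castAdd c i)) := by
    rw [hzz]
    exact h
  exact h2.comp (Fin.append zp zc) h1

theorem step_all (Rp : List Rec) (r : Rec) (y0 : ℝ × ℝ) (dp : ℕ)
    (Gp : (Fin dp → ℝ) → ℕ → ℝ × ℝ)
    (hp : ∀ Y : ℕ → ℝ × ℝ, Y 0 = y0 → (∀ n < Rp.length, Sat (Rp.getD n none) (n+1) Y) →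
        ∃ z, ∀ n ≤ Rp.length, Gp z n = Y n ∧ DifferentiableAt ℝ (fun z => Gp z n) z) :
    ∃ G : (Fin (dp + cost r) → ℝ) → ℕ → ℝ × ℝ, ∀ Y : ℕ → ℝ × ℝ, Y 0 = y0 →
      (∀ n < (Rp ++ [r]).length, Sat ((Rp ++ [r]).getD n none) (n+1) Y) →
        ∃ z, ∀ n ≤ (Rp ++ [r]).length, G z n = Y n ∧ DifferentiableAt ℝ (fun z => G z n) z := by
  match r with
  | none =>
    refine step Rp none y0 dp 2 Gp hp (fun z => (z (Fin.natAdd dp 0), z (Fin.natAdd dp 1))) ?_
    intro Y zp _ _
    refine ⟨![(Y (Rp.length + 1)).1, (Y (Rp.length + 1)).2], ?_, ?_⟩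
    · rw [Fin.append_right, Fin.append_right]
      rfl
    · fun_prop
  | some (Sum.inl i) =>
    refine step Rp _ y0 dp 1 Gp hp (fun z => (z (Fin.natAdd dp 0),
      (Gp (fun i => z (Fin.castAdd 1 i)) i).1 * z (Fin.natAdd dp 0) -
        (Gp (fun i => z (Fin.castAdd 1 i)) i).2)) ?_
    intro Y zp hzp hr
    obtain ⟨hi, hinc⟩ := hr
    have hi' : i ≤ Rp.length := by omega
    refine ⟨fun _ => (Y (Rp.length + 1)).1, ?_, ?_⟩
    · have hzz : (fun i => Fin.append zp (fun _ : Fin 1 => (Y (Rp.length + 1)).1)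
          (Fin.castAdd 1 i)) = zp := by
        funext i
        exact Fin.append_left _ _ _
      rw [hzz, Fin.append_right, (hzp i hi').1]
      unfold inc at hinc
      refine Prod.ext rfl ?_
      change (Y i).1 * (Y (Rp.length + 1)).1 - (Y i).2 = (Y (Rp.length + 1)).2
      linarith
    · have h1 := diff_at (c := 1) Gp zp (fun _ => (Y (Rp.length + 1)).1) (hzp i hi').2
      have h2 : DifferentiableAt ℝ (fun z : Fin (dp + 1) → ℝ => z (Fin.natAdd dp 0))
          (Fin.append zp (fun _ => (Y (Rp.length + 1)).1)) := by fun_prop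
      exact h2.prodMk ((h1.fst.mul h2).sub h1.snd)
  | some (Sum.inr (i, j)) =>
    refine step Rp _ y0 dp 0 Gp hp (fun z =>
      ((((Gp (fun i => z (Fin.castAdd 0 i)) i).2 - (Gp (fun i => z (Fin.castAdd 0 i)) j).2) /
        ((Gp (fun i => z (Fin.castAdd 0 i)) i).1 - (Gp (fun i => z (Fin.castAdd 0 i)) j).1)),
        (Gp (fun i => z (Fin.castAdd 0 i)) i).1 *
      (((Gp (fun i => z (Fin.castAdd 0 i)) i).2 - (Gp (fun i => z (Fin.castAdd 0 i)) j).2) /
        ((Gp (fun i => z (Fin.castAdd 0 i)) i).1 - (Gp (fun i => z (Fin.castAdd 0 i)) j).1)) -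
        (Gp (fun i => z (Fin.castAdd 0 i)) i).2)) ?_
    intro Y zp hzp hr
    obtain ⟨hi, hj, hne, hinc, hinc'⟩ := hr
    have hi' : i ≤ Rp.length := by omega
    have hj' : j ≤ Rp.length := by omega
    have hne' : (Y i).1 - (Y j).1 ≠ 0 := sub_ne_zero.mpr hne
    unfold inc at hinc hinc'
    have hX : ((Y i).2 - (Y j).2) / ((Y i).1 - (Y j).1) = (Y (Rp.length + 1)).1 := by
      rw [div_eq_iff hne']
      linarith
    refine ⟨fun _ => 0, ?_, ?_⟩
    · have hzz : (fun i => Fin.append zp (fun _ : Fin 0 => (0 : ℝ)) (Fin.castAdd 0 i)) = zp := by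
        funext i
        exact Fin.append_left _ _ _
      rw [hzz, (hzp i hi').1, (hzp j hj').1, hX]
      refine Prod.ext rfl ?_
      change (Y i).1 * (Y (Rp.length + 1)).1 - (Y i).2 = (Y (Rp.length + 1)).2
      linarith
    · have h1 := diff_at (c := 0) Gp zp (fun _ => 0) (hzp i hi').2
      have h2 := diff_at (c := 0) Gp zp (fun _ => 0) (hzp j hj').2
      have hzz : (fun i => Fin.append zp (fun _ : Fin 0 => (0 : ℝ)) (Fin.castAdd 0 i)) = zp := by
        funext i
        exact Fin.append_left _ _ _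
      have hnum : DifferentiableAt ℝ (fun z : Fin (dp + 0) → ℝ =>
          (Gp (fun i => z (Fin.castAdd 0 i)) i).2 - (Gp (fun i => z (Fin.castAdd 0 i)) j).2)
          (Fin.append zp (fun _ => 0)) := h1.snd.sub h2.snd
      have hden : DifferentiableAt ℝ (fun z : Fin (dp + 0) → ℝ =>
          (Gp (fun i => z (Fin.castAdd 0 i)) i).1 - (Gp (fun i => z (Fin.castAdd 0 i)) j).1)
          (Fin.append zp (fun _ => 0)) := h1.fst.sub h2.fst
      have h3 : DifferentiableAt ℝ (fun z : Fin (dp + 0) → ℝ =>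
          ((Gp (fun i => z (Fin.castAdd 0 i)) i).2 - (Gp (fun i => z (Fin.castAdd 0 i)) j).2) /
          ((Gp (fun i => z (Fin.castAdd 0 i)) i).1 - (Gp (fun i => z (Fin.castAdd 0 i)) j).1))
          (Fin.append zp (fun _ => 0)) := by
        simp only [div_eq_mul_inv]
        refine hnum.mul (hden.inv ?_)
        change (Gp (fun i => Fin.append zp (fun _ : Fin 0 => (0 : ℝ)) (Fin.castAdd 0 i)) i).1 -
          (Gp (fun i => Fin.append zp (fun _ : Fin 0 => (0 : ℝ)) (Fin.castAdd 0 i)) j).1 ≠ 0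
        rw [hzz, (hzp i hi').1, (hzp j hj').1]
        exact hne'
      exact h3.prodMk ((h1.fst.mul h3).sub h1.snd)

/-- Step 2. every configuration obeying the program is a value of one fixed map of (cost) parameters,
differentiable there. -/
theorem param (R : List Rec) (y0 : ℝ × ℝ) :
    ∃ (d : ℕ) (_ : d = (R.map cost).sum) (G : (Fin d → ℝ) → ℕ → ℝ × ℝ),
      ∀ Y : ℕ → ℝ × ℝ, Y 0 = y0 → (∀ n < R.length, Sat (R.getD n none) (n+1) Y) →
        ∃ z, ∀ n ≤ R.length, G z n = Y n ∧ DifferentiableAt ℝ (fun z => G z n) z := by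
  induction R using List.reverseRecOn with
  | nil =>
    refine ⟨0, rfl, fun _ _ => y0, ?_⟩
    intro Y hY0 _
    refine ⟨fun _ => 0, fun n hn => ?_⟩
    have : n = 0 := by simpa using hn
    subst this
    exact ⟨hY0.symm, differentiableAt_const _⟩
  | append_singleton Rp r ih =>
    obtain ⟨dp, hdp, Gp, hGp⟩ := ih
    obtain ⟨G, hG⟩ := step_all Rp r y0 dp Gp hGp
    refine ⟨dp + cost r, ?_, G, hG⟩
    rw [List.map_append, List.sum_append, ← hdp]
    simp

theorem null_param (R : List Rec) (s : ℕ) (hs : (R.map cost).sum < s) (y0 : ℝ × ℝ) (idx : Fin s → ℕ)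
    (hidx : ∀ i, idx i ≤ R.length) (θ : Fin s → ℝ × ℝ → ℝ) :
    volume {x : Fin s → ℝ | ∃ Y : ℕ → ℝ × ℝ, Y 0 = y0 ∧
      (∀ n < R.length, Sat (R.getD n none) (n+1) Y) ∧
      ∀ i, DifferentiableAt ℝ (θ i) (Y (idx i)) ∧ x i = θ i (Y (idx i))} = 0 := by
  obtain ⟨d, hd, G, hG⟩ := param R y0
  have h1 := null_image (d := d) (s := s) (by rw [hd]; exact hs) (fun z i => θ i (G z (idx i)))
    {z | ∀ i, DifferentiableAt ℝ (fun z => G z (idx i)) z ∧ DifferentiableAt ℝ (θ i) (G z (idx i))}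
    (by
      intro z hz
      rw [differentiableAt_pi]
      intro i
      exact (hz i).2.comp z (hz i).1)
  refine measure_mono_null ?_ h1
  rintro x ⟨Y, hY0, hsat, hx⟩
  obtain ⟨z, hz⟩ := hG Y hY0 hsat
  refine ⟨z, fun i => ⟨(hz (idx i) (hidx i)).2, ?_⟩, ?_⟩
  · rw [(hz (idx i) (hidx i)).1]
    exact (hx i).1
  · funext i
    change θ i (G z (idx i)) = x i
    rw [(hz (idx i) (hidx i)).1]
    exact (hx i).2.symm

end Pool.Agent.Helper149.FD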