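import Pool.Agent.Helper149.FDDefs
set_option autoImplicit false

/-
FD J2: extract.  F = finite set of lines, P = finite set of points (both coded by pairs; `inc` symmetric).
Every line of F carries at least 4 points of P, every point of P lies on two different lines of F.  Then F ∪ P can be
listed as Y 0 = y0, Y 1, Y 2, ... so that each new object is obtained by a recipe (cost 2: free; cost 1: incident to an
earlier object; cost 0: incident to two earlier objects with different first coordinates), total cost < |P|.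
-/

namespace Pool.Agent.Helper149.FD
open Set





theorem ex_inc_symm {a b : ℝ × ℝ} (h : inc a b) : inc b a := by
  unfold inc at *; linarith

theorem ex_inc_ne {a b x : ℝ × ℝ} (hab : a ≠ b) (ha : inc a x) (hb : inc b x) : a.1 ≠ b.1 := by
  intro h
  apply hab
  unfold inc at *
  refine Prod.ext h ?_
  rw [h] at ha
  linarith

theorem ex_sat_congr (r : Rec) (n : ℕ) (Y Y' : ℕ → ℝ × ℝ) (h : ∀ i ≤ n, Y i = Y' i) (hs : Sat r n Y) : Sat r n Y' := by
  rcases r with _ | (i | ⟨i, j⟩)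
  · trivial
  · obtain ⟨h1, h2⟩ := hs
    refine ⟨h1, ?_⟩
    rw [← h i h1.le, ← h n le_rfl]; exact h2
  · obtain ⟨h1, h2, h3, h4, h5⟩ := hs
    refine ⟨h1, h2, ?_, ?_, ?_⟩
    · rw [← h i h1.le, ← h j h2.le]; exact h3
    · rw [← h i h1.le, ← h n le_rfl]; exact h4
    · rw [← h j h2.le, ← h n le_rfl]; exact h5

/-- listing with total cost `c` of the set `T`. -/
def exL (A : Set (ℝ × ℝ)) (y0 : ℝ × ℝ) (c : ℕ) (T : Set (ℝ × ℝ)) : Prop :=
  ∃ (R : List Rec) (Y : ℕ → ℝ × ℝ), Y 0 = y0 ∧ (∀ n < R.length, Sat (R.getD n none) (n+1) Y) ∧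
    (∀ x ∈ T, ∃ n ≤ R.length, Y n = x) ∧ (R.map cost).sum = c ∧ ∀ n, Y n ∈ A

theorem exL_mono {A : Set (ℝ × ℝ)} {y0 : ℝ × ℝ} {c : ℕ} {T T' : Set (ℝ × ℝ)} (h : exL A y0 c T) (hT : T' ⊆ T) :
    exL A y0 c T' := by
  obtain ⟨R, Y, h1, h2, h3, h4, h5⟩ := h
  exact ⟨R, Y, h1, h2, fun x hx => h3 x (hT hx), h4, h5⟩

theorem ex_step {A : Set (ℝ × ℝ)} {y0 : ℝ × ℝ} {T : Set (ℝ × ℝ)} (R : List Rec) (Y : ℕ → ℝ × ℝ)
    (h1 : Y 0 = y0) (h2 : ∀ n < R.length, Sat (R.getD n none) (n+1) Y)
    (h3 : ∀ x ∈ T, ∃ n ≤ R.length, Y n = x) (h5 : ∀ n, Y n ∈ A) (z : ℝ × ℝ) (hz : z ∈ A) (r : Rec)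
    (hr : Sat r (R.length + 1) (Function.update Y (R.length + 1) z)) :
    exL A y0 ((R.map cost).sum + cost r) (insert z T) := by
  refine ⟨R ++ [r], Function.update Y (R.length + 1) z, ?_, ?_, ?_, ?_, ?_⟩
  · rw [Function.update_of_ne (by omega)]; exact h1
  · intro n hn
    rw [List.length_append, List.length_singleton] at hn
    rcases Nat.lt_or_ge n R.length with h | h
    · rw [List.getD_append _ _ _ _ h]
      refine ex_sat_congr _ _ Y _ ?_ (h2 n h)
      intro i hi
      rw [Function.update_of_ne (by omega)]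
    · have hn' : n = R.length := by omega
      subst hn'
      rw [List.getD_append_right _ _ _ _ le_rfl]
      simpa using hr
  · intro x hx
    rcases hx with rfl | hx
    · exact ⟨R.length + 1, by simp, by simp⟩
    · obtain ⟨n, hn, hn'⟩ := h3 x hx
      refine ⟨n, by simp; omega, ?_⟩
      rw [Function.update_of_ne (by omega)]; exact hn'
  · simp
  · intro n
    by_cases hn : n = R.length + 1
    · subst hn; simpa using hz
    · rw [Function.update_of_ne hn]; exact h5 n

theorem exL_free {A : Set (ℝ × ℝ)} {y0 : ℝ × ℝ} {c : ℕ} {T : Set (ℝ × ℝ)} (h : exL A y0 c T) (z : ℝ × ℝ) (hz : z ∈ A) :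
    exL A y0 (c + 2) (insert z T) := by
  obtain ⟨R, Y, h1, h2, h3, h4, h5⟩ := h
  have := ex_step R Y h1 h2 h3 h5 z hz none trivial
  rw [h4] at this
  exact this

theorem exL_one {A : Set (ℝ × ℝ)} {y0 : ℝ × ℝ} {c : ℕ} {T : Set (ℝ × ℝ)} (h : exL A y0 c T) (z : ℝ × ℝ) (hz : z ∈ A)
    (a : ℝ × ℝ) (ha : a ∈ T) (hi : inc a z) :
    exL A y0 (c + 1) (insert z T) := by
  obtain ⟨R, Y, h1, h2, h3, h4, h5⟩ := h
  obtain ⟨i, hi1, hi2⟩ := h3 a ha
  have := ex_step R Y h1 h2 h3 h5 z hz (some (Sum.inl i)) (by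
    refine ⟨by omega, ?_⟩
    rw [Function.update_self, Function.update_of_ne (by omega), hi2]; exact hi)
  rw [h4] at this
  exact this

theorem exL_two {A : Set (ℝ × ℝ)} {y0 : ℝ × ℝ} {c : ℕ} {T : Set (ℝ × ℝ)} (h : exL A y0 c T) (z : ℝ × ℝ) (hz : z ∈ A)
    (a : ℝ × ℝ) (ha : a ∈ T) (hi : inc a z) (b : ℝ × ℝ) (hb : b ∈ T) (hj : inc b z) (hab : a ≠ b) :
    exL A y0 c (insert z T) := by
  obtain ⟨R, Y, h1, h2, h3, h4, h5⟩ := h
  obtain ⟨i, hi1, hi2⟩ := h3 a ha
  obtain ⟨j, hj1, hj2⟩ := h3 b hb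
  have := ex_step R Y h1 h2 h3 h5 z hz (some (Sum.inr (i, j))) (by
    refine ⟨by omega, by omega, ?_, ?_, ?_⟩
    · rw [Function.update_of_ne (by omega), Function.update_of_ne (by omega), hi2, hj2]
      exact ex_inc_ne hab hi hj
    · rw [Function.update_self, Function.update_of_ne (by omega), hi2]; exact hi
    · rw [Function.update_self, Function.update_of_ne (by omega), hj2]; exact hj)
  rw [h4] at this
  exact this

theorem exL_many {A : Set (ℝ × ℝ)} {y0 : ℝ × ℝ} {c : ℕ} {T : Set (ℝ × ℝ)} (h : exL A y0 c T) (U : Finset (ℝ × ℝ))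
    (hU : ∀ u ∈ U, u ∈ A ∧ ∃ a ∈ T, ∃ b ∈ T, a ≠ b ∧ inc a u ∧ inc b u) :
    exL A y0 c (T ∪ (U : Set (ℝ × ℝ))) := by
  classical
  induction U using Finset.induction_on with
  | empty => simpa using h
  | insert u U hu ih =>
    have h' := ih (fun v hv => hU v (Finset.mem_insert_of_mem hv))
    obtain ⟨huA, a, ha, b, hb, hab, hau, hbu⟩ := hU u (Finset.mem_insert_self _ _)
    have h2 := exL_two h' u huA a (Or.inl ha) hau b (Or.inl hb) hbu hab
    refine exL_mono h2 ?_
    intro x hx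
    rcases hx with hx | hx
    · exact Or.inr (Or.inl hx)
    · rcases Finset.mem_insert.1 (Finset.mem_coe.1 hx) with hx | hx
      · exact Or.inl hx
      · exact Or.inr (Or.inr (Finset.mem_coe.2 hx))

open Classical in
theorem ex_main (F P : Finset (ℝ × ℝ)) (y0 : ℝ × ℝ) (h0 : y0 ∈ F)
    (hF : ∀ l ∈ F, 4 ≤ (P.filter (fun x => inc x l)).card) (S' : Finset (ℝ × ℝ)) (hS : S' ⊆ F) (hy : y0 ∉ S') :
    ∃ c, exL (F ∪ P : Set (ℝ × ℝ)) y0 c
        {z | z ∈ insert y0 S' ∨ (z ∈ P ∧ 2 ≤ ((insert y0 S').filter (fun l => inc z l)).card)} ∧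
      2 * c + 4 ≤ ∑ x ∈ P, min 2 ((insert y0 S').filter (fun l => inc x l)).card := by
  induction S' using Finset.induction_on with
  | empty =>
    refine ⟨0, ⟨[], fun _ => y0, rfl, by simp, ?_, by simp, fun _ => Or.inl h0⟩, ?_⟩
    · intro x hx
      rcases hx with hx | ⟨hx, hx2⟩
      · have hx' : x = y0 := by simpa using hx
        exact ⟨0, by simp, hx'.symm⟩
      · exfalso
        have : (Finset.filter (fun l => inc x l) (insert y0 ∅)).card ≤ (insert y0 (∅ : Finset (ℝ × ℝ))).card :=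
          Finset.card_filter_le _ _
        simp only [insert_empty_eq, Finset.card_singleton] at this hx2
        omega
    · have h4 := hF y0 h0
      rw [Finset.card_filter] at h4
      have h5 : (∑ x ∈ P, (if inc x y0 then 1 else 0)) ≤
          ∑ x ∈ P, min 2 ((insert y0 (∅ : Finset (ℝ × ℝ))).filter (fun l => inc x l)).card := by
        refine Finset.sum_le_sum ?_
        intro x hx
        by_cases hi : inc x y0
        · simp [hi, Finset.filter_singleton]
        · simp [hi]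
      omega
  | insert l S' hl ih =>
    have hy' : y0 ∉ S' := fun h => hy (Finset.mem_insert_of_mem h)
    have hyl : y0 ≠ l := fun h => hy (h ▸ Finset.mem_insert_self _ _)
    have hlF : l ∈ F := hS (Finset.mem_insert_self _ _)
    obtain ⟨c, hL, hc⟩ := ih (fun x hx => hS (Finset.mem_insert_of_mem hx)) hy'
    have hSS : insert y0 (insert l S') = insert l (insert y0 S') := Finset.insert_comm _ _ _
    rw [hSS]
    set S : Finset (ℝ × ℝ) := insert y0 S' with hSdef
    have hlS : l ∉ S := by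
      rw [hSdef, Finset.mem_insert, not_or]
      exact ⟨hyl.symm, hl⟩
    have hd : ∀ x, ((insert l S).filter (fun l => inc x l)).card =
        (S.filter (fun l => inc x l)).card + (if inc x l then 1 else 0) := by
      intro x
      rw [Finset.filter_insert]
      split_ifs with h
      · rw [Finset.card_insert_of_notMem (by simp [hlS])]
      · simp
    have hpot : (∑ x ∈ P, min 2 ((insert l S).filter (fun l => inc x l)).card) +
        (P.filter (fun x => inc x l ∧ 2 ≤ (S.filter (fun l => inc x l)).card)).card =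
        (∑ x ∈ P, min 2 (S.filter (fun l => inc x l)).card) + (P.filter (fun x => inc x l)).card := by
      rw [Finset.card_filter, Finset.card_filter, ← Finset.sum_add_distrib, ← Finset.sum_add_distrib]
      refine Finset.sum_congr rfl ?_
      intro x hx
      rw [hd x]
      by_cases h1 : inc x l
      · by_cases h2 : 2 ≤ (S.filter (fun l => inc x l)).card
        · simp only [h1, h2, and_self, if_true]; omega
        · simp only [h1, h2, and_false, if_true, if_false]; omega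
      · simp [h1]
    have h4 := hF l hlF
    set K := P.filter (fun x => inc x l ∧ 2 ≤ (S.filter (fun l => inc x l)).card) with hK
    have hKmem : ∀ x ∈ K, x ∈ ({z | z ∈ S ∨ (z ∈ P ∧ 2 ≤ (S.filter (fun l => inc z l)).card)} : Set (ℝ × ℝ)) ∧ inc x l := by
      intro x hx
      rw [hK, Finset.mem_filter] at hx
      exact ⟨Or.inr ⟨hx.1, hx.2.2⟩, hx.2.1⟩
    have hKle : K.card ≤ (P.filter (fun x => inc x l)).card := by
      refine Finset.card_le_card ?_
      intro x hx
      rw [hK, Finset.mem_filter] at hx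
      exact Finset.mem_filter.2 ⟨hx.1, hx.2.1⟩
    have hlA : l ∈ (F ∪ P : Set (ℝ × ℝ)) := Or.inl hlF
    have key : ∃ c', exL (F ∪ P : Set (ℝ × ℝ)) y0 c'
        (insert l {z | z ∈ S ∨ (z ∈ P ∧ 2 ≤ (S.filter (fun l => inc z l)).card)}) ∧
        2 * c' + 4 ≤ ∑ x ∈ P, min 2 ((insert l S).filter (fun l => inc x l)).card := by
      rcases Nat.lt_or_ge 1 K.card with h2 | h2
      · obtain ⟨a, ha, b, hb, hab⟩ := Finset.one_lt_card.1 h2
        exact ⟨c, exL_two hL l hlA a (hKmem a ha).1 (hKmem a ha).2 b (hKmem b hb).1 (hKmem b hb).2 hab, by omega⟩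
      · rcases Nat.eq_zero_or_pos K.card with h3 | h3
        · exact ⟨c + 2, exL_free hL l hlA, by omega⟩
        · obtain ⟨a, ha⟩ := Finset.card_pos.1 h3
          exact ⟨c + 1, exL_one hL l hlA a (hKmem a ha).1 (hKmem a ha).2, by omega⟩
    obtain ⟨c', hL', hc'⟩ := key
    refine ⟨c', ?_, hc'⟩
    have hU := exL_many hL' (P.filter (fun x => inc x l ∧ (S.filter (fun l => inc x l)).card = 1)) (by
      intro u hu
      rw [Finset.mem_filter] at hu
      obtain ⟨huP, hul, hu1⟩ := hu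
      refine ⟨Or.inr huP, ?_⟩
      obtain ⟨a, ha⟩ := Finset.card_pos.1 (by rw [hu1]; exact Nat.one_pos)
      rw [Finset.mem_filter] at ha
      refine ⟨a, Or.inr (Or.inl ha.1), l, Or.inl rfl, ?_, ex_inc_symm ha.2, ex_inc_symm hul⟩
      intro h
      exact hlS (h ▸ ha.1))
    refine exL_mono hU ?_
    intro z hz
    rcases hz with hz | ⟨hzP, hz2⟩
    · rcases Finset.mem_insert.1 hz with rfl | hz
      · exact Or.inl (Or.inl rfl)
      · exact Or.inl (Or.inr (Or.inl hz))
    · by_cases h2 : 2 ≤ (S.filter (fun l => inc z l)).card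
      · exact Or.inl (Or.inr (Or.inr ⟨hzP, h2⟩))
      · rw [hd z] at hz2
        by_cases hzl : inc z l
        · rw [if_pos hzl] at hz2
          refine Or.inr (Finset.mem_coe.2 (Finset.mem_filter.2 ⟨hzP, hzl, by omega⟩))
        · rw [if_neg hzl] at hz2
          omega

open Classical in
theorem extract (F P : Finset (ℝ × ℝ)) (y0 : ℝ × ℝ) (h0 : y0 ∈ F)
    (hF : ∀ l ∈ F, 4 ≤ (P.filter (fun x => inc x l)).card)
    (hP : ∀ x ∈ P, ∃ l ∈ F, ∃ l' ∈ F, l ≠ l' ∧ inc x l ∧ inc x l') :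
    ∃ (R : List Rec) (Y : ℕ → ℝ × ℝ), Y 0 = y0 ∧ (∀ n < R.length, Sat (R.getD n none) (n+1) Y) ∧
      (∀ x ∈ P, ∃ n ≤ R.length, Y n = x) ∧ (R.map cost).sum < P.card ∧ ∀ n, Y n ∈ F ∪ P := by
  obtain ⟨c, ⟨R, Y, h1, h2, h3, h4, h5⟩, hc⟩ :=
    ex_main F P y0 h0 hF (F.erase y0) (Finset.erase_subset _ _) (Finset.notMem_erase _ _)
  rw [Finset.insert_erase h0] at h3 hc
  refine ⟨R, Y, h1, h2, ?_, ?_, ?_⟩
  · intro x hx
    apply h3
    refine Or.inr ⟨hx, ?_⟩
    obtain ⟨l, hl, l', hl', hne, hi, hi'⟩ := hP x hx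
    exact Finset.one_lt_card.2 ⟨l, Finset.mem_filter.2 ⟨hl, hi⟩, l', Finset.mem_filter.2 ⟨hl', hi'⟩, hne⟩
  · rw [h4]
    have : ∑ x ∈ P, min 2 (F.filter (fun l => inc x l)).card ≤ ∑ x ∈ P, 2 :=
      Finset.sum_le_sum (fun x _ => min_le_left _ _)
    rw [Finset.sum_const, smul_eq_mul] at this
    omega
  · intro n
    have := h5 n
    simpa using this

end Pool.Agent.Helper149.FD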