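import Pool.Agent.Helper149.FDDefs
set_option autoImplicit false

namespace Pool.Agent.Helper149.FD
open MeasureTheory Set

/-- upper semicontinuity of the measure of the sections of a closed set with compact sections -/
theorem usc_section {Ω : Type*} [TopologicalSpace Ω] (B : Set (Ω × (ℝ × ℝ))) (hcl : IsClosed B)
    (K : Set (ℝ × ℝ)) (hK : IsCompact K) (hBK : ∀ c p, (c, p) ∈ B → p ∈ K) (ε : ENNReal) :
    IsOpen {c : Ω | volume {p | (c, p) ∈ B} < ε} := by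
  rw [isOpen_iff_mem_nhds]
  intro c0 hc0
  obtain ⟨V, hV1, hV2, hV3⟩ := Set.exists_isOpen_lt_of_lt {p | (c0, p) ∈ B} ε hc0
  obtain ⟨u, v, hu, hv, hsu, htv, huv⟩ := generalized_tube_lemma (isCompact_singleton (x := c0))
    (hK.diff hV2) hcl.isOpen_compl (by
      rintro ⟨c, p⟩ ⟨h1, h2⟩ hB
      have h1' : c = c0 := h1
      subst h1'
      exact h2.2 (hV1 hB))
  refine Filter.mem_of_superset (hu.mem_nhds (hsu rfl)) ?_
  intro c hc
  refine lt_of_le_of_lt (measure_mono ?_) hV3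
  intro p hp
  by_contra hpV
  exact huv (Set.mk_mem_prod hc (htv ⟨hBK c p hp, hpV⟩)) hp

theorem baire_fubini {Ω : Type*} [TopologicalSpace Ω] [BaireSpace Ω] [Nonempty Ω] {ι : Type*} [Countable ι]
    (B : ι → Set (Ω × (ℝ × ℝ))) (hcl : ∀ i, IsClosed (B i)) (K : ι → Set (ℝ × ℝ))
    (hK : ∀ i, IsCompact (K i)) (hBK : ∀ i c p, (c, p) ∈ B i → p ∈ K i)
    (hdense : ∀ i, Dense {c | volume {p | (c, p) ∈ B i} = 0}) :
    ∃ c, ∀ i, volume {p | (c, p) ∈ B i} = 0 := by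
  have h := dense_iInter_of_isOpen (f := fun x : ι × ℕ =>
      {c : Ω | volume {p | (c, p) ∈ B x.1} < ((x.2 : ENNReal) + 1)⁻¹})
    (fun x => usc_section (B x.1) (hcl x.1) (K x.1) (hK x.1) (hBK x.1) _)
    (fun x => (hdense x.1).mono (by
      intro c hc
      have hc' : volume {p | (c, p) ∈ B x.1} = 0 := hc
      show volume {p | (c, p) ∈ B x.1} < ((x.2 : ENNReal) + 1)⁻¹
      rw [hc', ENNReal.inv_pos]
      exact ENNReal.add_ne_top.2 ⟨ENNReal.natCast_ne_top _, ENNReal.one_ne_top⟩))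
  obtain ⟨c, hc⟩ := h.nonempty
  refine ⟨c, fun i => ?_⟩
  by_contra hne
  have hpos : 0 < volume {p | (c, p) ∈ B i} := pos_iff_ne_zero.2 hne
  obtain ⟨n, hn⟩ := ENNReal.exists_inv_nat_lt hne
  have h1 : volume {p | (c, p) ∈ B i} < ((n : ENNReal) + 1)⁻¹ := Set.mem_iInter.1 hc (i, n)
  have h2 : ((n : ENNReal) + 1)⁻¹ ≤ (n : ENNReal)⁻¹ := ENNReal.inv_le_inv.2 (le_self_add)
  exact absurd (h1.trans_le h2) (not_lt.2 hn.le)

end Pool.Agent.Helper149.FD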