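import Pool.Agent.Helper149.FDDefs
set_option autoImplicit false

namespace Pool.Agent.Helper149.FD
open MeasureTheory Set

open Classical in
/-- change of finitely many coordinates -/
noncomputable def j3b_cc {κ : Type*} (c0 : κ × ℕ → Set.Icc (0:ℝ) 1) (s : ℕ) (b : Fin s → κ) (M : ℕ)
    (x : Fin s → ℝ) : κ × ℕ → Set.Icc (0:ℝ) 1 := fun q =>
  if h : ∃ i : Fin s, q = (b i, M + (i : ℕ)) then Set.projIcc 0 1 zero_le_one (x h.choose) else c0 q

theorem j3b_of_not {κ : Type*} (c0 : κ × ℕ → Set.Icc (0:ℝ) 1) (s : ℕ) (b : Fin s → κ) (M : ℕ)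
    (x : Fin s → ℝ) (q : κ × ℕ) (h : ∀ i : Fin s, q ≠ (b i, M + (i : ℕ))) :
    j3b_cc c0 s b M x q = c0 q := by
  unfold j3b_cc
  rw [dif_neg]
  push Not
  exact h

theorem j3b_of {κ : Type*} (c0 : κ × ℕ → Set.Icc (0:ℝ) 1) (s : ℕ) (b : Fin s → κ) (M : ℕ)
    (x : Fin s → ℝ) (i : Fin s) :
    j3b_cc c0 s b M x (b i, M + (i : ℕ)) = Set.projIcc 0 1 zero_le_one (x i) := by
  have h : ∃ j : Fin s, ((b i, M + (i : ℕ)) : κ × ℕ) = (b j, M + (j : ℕ)) := ⟨i, rfl⟩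
  unfold j3b_cc
  rw [dif_pos h]
  have h1 := h.choose_spec
  have h2 : M + (i : ℕ) = M + (h.choose : ℕ) := congrArg Prod.snd h1
  have h3 : h.choose = i := Fin.ext (by omega)
  rw [h3]

theorem j3b_cont {κ : Type*} (c0 : κ × ℕ → Set.Icc (0:ℝ) 1) (s : ℕ) (b : Fin s → κ) (M : ℕ) :
    Continuous (j3b_cc c0 s b M) := by
  refine continuous_pi fun q => ?_
  by_cases h : ∃ i : Fin s, q = (b i, M + (i : ℕ))
  · have h1 : (fun x => j3b_cc c0 s b M x q) = fun x : Fin s → ℝ =>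
        Set.projIcc 0 1 zero_le_one (x h.choose) := by
      funext x
      unfold j3b_cc
      rw [dif_pos h]
    rw [h1]
    exact continuous_projIcc.comp (continuous_apply _)
  · have h1 : (fun x => j3b_cc c0 s b M x q) = fun _ : Fin s → ℝ => c0 q := by
      funext x
      unfold j3b_cc
      rw [dif_neg h]
    rw [h1]
    exact continuous_const

theorem dense_null {κ : Type*} [Countable κ]
    (B : Set ((κ × ℕ → Set.Icc (0:ℝ) 1) × (ℝ × ℝ))) (hB : IsClosed B) (s : ℕ) (b : Fin s → κ)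
    (h : ∀ (M : ℕ) (c : κ × ℕ → Set.Icc (0:ℝ) 1) (p : ℝ × ℝ),
      volume {x : Fin s → ℝ | ∃ c' : κ × ℕ → Set.Icc (0:ℝ) 1,
        (∀ q, (∀ i : Fin s, q ≠ (b i, M + (i : ℕ))) → c' q = c q) ∧
        (∀ i : Fin s, (c' (b i, M + (i : ℕ)) : ℝ) = x i) ∧ (c', p) ∈ B} = 0) :
    Dense {c : κ × ℕ → Set.Icc (0:ℝ) 1 | volume {p | (c, p) ∈ B} = 0} := by
  rw [dense_iff_inter_open]
  rintro U hU ⟨c0, hc0⟩
  obtain ⟨I, u, hu, hIU⟩ := isOpen_pi_iff.1 hU c0 hc0
  set M : ℕ := I.sup (fun q => q.2) + 1 with hM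
  have hmem : ∀ x, j3b_cc c0 s b M x ∈ U := by
    intro x
    apply hIU
    intro q hq
    have hq2 : q.2 ≤ I.sup (fun q => q.2) := Finset.le_sup (f := fun q : κ × ℕ => q.2) hq
    rw [j3b_of_not]
    · exact (hu q hq).2
    · intro i hqi
      rw [hqi] at hq2
      have hq3 : M + (i : ℕ) ≤ I.sup (fun q => q.2) := hq2
      omega
  set S : Set ((Fin s → ℝ) × (ℝ × ℝ)) :=
    {z | (∀ i, z.1 i ∈ Set.Icc (0 : ℝ) 1) ∧ (j3b_cc c0 s b M z.1, z.2) ∈ B} with hS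
  have hScl : IsClosed S := by
    apply IsClosed.inter
    · have h1 : {z : (Fin s → ℝ) × (ℝ × ℝ) | ∀ i, z.1 i ∈ Set.Icc (0 : ℝ) 1} =
          ⋂ i, {z : (Fin s → ℝ) × (ℝ × ℝ) | z.1 i ∈ Set.Icc (0 : ℝ) 1} := by
        ext z
        simp
      show IsClosed {z : (Fin s → ℝ) × (ℝ × ℝ) | ∀ i, z.1 i ∈ Set.Icc (0 : ℝ) 1}
      rw [h1]
      exact isClosed_iInter fun i => isClosed_Icc.preimage ((continuous_apply i).comp continuous_fst)
    · exact hB.preimage (((j3b_cont c0 s b M).comp continuous_fst).prodMk continuous_snd)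
  have hS0 : (volume.prod volume : Measure ((Fin s → ℝ) × (ℝ × ℝ))) S = 0 := by
    rw [Measure.prod_apply_symm hScl.measurableSet]
    rw [lintegral_eq_zero_iff']
    · refine Filter.Eventually.of_forall fun p => ?_
      refine measure_mono_null ?_ (h M c0 p)
      rintro x ⟨hx1, hx2⟩
      refine ⟨j3b_cc c0 s b M x, fun q hq => j3b_of_not c0 s b M x q hq, fun i => ?_, hx2⟩
      rw [j3b_of, Set.projIcc_of_mem zero_le_one (hx1 i)]
    · exact (measurable_measure_prodMk_right hScl.measurableSet).aemeasurable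
  have hae := (Measure.measure_prod_null hScl.measurableSet).1 hS0
  have hcube : volume (Set.Icc (0 : Fin s → ℝ) 1) ≠ 0 := by
    rw [Real.volume_Icc_pi]
    simp
  obtain ⟨x, hx1, hx2⟩ : ∃ x ∈ Set.Icc (0 : Fin s → ℝ) 1, volume (Prod.mk x ⁻¹' S) = 0 := by
    by_contra hcon
    push Not at hcon
    apply hcube
    exact measure_mono_null (fun x hx => hcon x hx) hae
  refine ⟨j3b_cc c0 s b M x, hmem x, ?_⟩
  refine measure_mono_null ?_ hx2
  intro p hp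
  exact ⟨fun i => ⟨hx1.1 i, hx1.2 i⟩, hp⟩

end Pool.Agent.Helper149.FD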