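import Pool.Agent.Helper149.FDDefs
set_option autoImplicit false

namespace Pool.Agent.Helper149.FD
open Set

theorem sign_sum {X : Type*} [DecidableEq X] (R : Finset X) (n : ℤ) (hn : |n| ≤ R.card) :
    ∃ g : X → SignType, ∑ x ∈ R, (g x : ℤ) = n := by
  obtain ⟨A, hA, hAc⟩ : ∃ A ⊆ R, A.card = n.natAbs := by
    apply Finset.exists_subset_card_eq
    have h1 : ((n.natAbs : ℕ) : ℤ) = |n| := Int.natCast_natAbs n
    omega
  rcases le_total 0 n with h0 | h0
  · refine ⟨fun x => if x ∈ A then 1 else 0, ?_⟩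
    have e : ∀ x, (((if x ∈ A then (1 : SignType) else 0) : SignType) : ℤ) =
        if x ∈ A then (1 : ℤ) else 0 := by
      intro x
      split_ifs <;> rfl
    simp only [e]
    rw [Finset.sum_ite_mem, Finset.inter_eq_right.2 hA]
    simp [hAc]
    exact h0
  · refine ⟨fun x => if x ∈ A then -1 else 0, ?_⟩
    have e : ∀ x, (((if x ∈ A then (-1 : SignType) else 0) : SignType) : ℤ) =
        if x ∈ A then (-1 : ℤ) else 0 := by
      intro x
      split_ifs <;> rfl
    simp only [e]
    rw [Finset.sum_ite_mem, Finset.inter_eq_right.2 hA]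
    simp [hAc]
    rw [abs_of_nonpos h0]
    ring

theorem sign_abs (s : SignType) : |(s : ℤ)| ≤ 1 := by
  cases s <;> decide

theorem coloring_finite {X Λ : Type*} [DecidableEq X] [DecidableEq Λ] (Γ : Set X) (tr : Λ → Finset X)
    (hΓ : ∀ l, ∃ G : Finset X, G.card ≤ 2 ∧ ∀ x ∈ tr l, x ∈ Γ → x ∈ G)
    (hbig : ∀ l, tr l = ∅ ∨ 10 ≤ (tr l).card)
    (hdeg : ∀ F : Finset Λ, F.Nonempty → ∃ l ∈ F, ∃ S : Finset X, S.card ≤ 3 ∧
      ∀ x ∈ tr l, (∃ l' ∈ F, l' ≠ l ∧ x ∈ tr l') → x ∈ S) :
    ∀ (n : ℕ) (F : Finset Λ), F.card = n →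
      ∃ f : X → SignType, (∀ x ∈ Γ, f x ≠ 0) ∧ ∀ l ∈ F, ∑ x ∈ tr l, (f x : ℤ) = 0 := by
  classical
  intro n
  induction n with
  | zero =>
    intro F hF
    rw [Finset.card_eq_zero] at hF
    subst hF
    exact ⟨fun _ => 1, fun x _ => (by decide : (1 : SignType) ≠ 0), fun l hl => absurd hl (Finset.notMem_empty l)⟩
  | succ n ih =>
    intro F hF
    have hne : F.Nonempty := by
      rw [← Finset.card_pos]
      omega
    obtain ⟨l, hl, S, hS, hS2⟩ := hdeg F hne
    obtain ⟨f0, hf0, hf0'⟩ := ih (F.erase l) (by rw [Finset.card_erase_of_mem hl]; omega)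
    rcases hbig l with h | h
    · refine ⟨f0, hf0, ?_⟩
      intro l' hl'
      by_cases e : l' = l
      · rw [e, h]
        simp
      · exact hf0' l' (Finset.mem_erase.2 ⟨e, hl'⟩)
    obtain ⟨G, hG, hG2⟩ := hΓ l
    let T := (tr l).filter (fun x => ∃ l' ∈ F, l' ≠ l ∧ x ∈ tr l')
    let N := (tr l).filter (fun x => ¬ ∃ l' ∈ F, l' ≠ l ∧ x ∈ tr l')
    let A := N.filter (fun x => x ∈ Γ)
    let R := N.filter (fun x => ¬ x ∈ Γ)
    have hT : T.card ≤ 3 := by
      refine (Finset.card_le_card ?_).trans hS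
      intro x hx
      obtain ⟨h1, h2⟩ := Finset.mem_filter.1 hx
      exact hS2 x h1 h2
    have hA : A.card ≤ 2 := by
      refine (Finset.card_le_card ?_).trans hG
      intro x hx
      obtain ⟨h1, h2⟩ := Finset.mem_filter.1 hx
      obtain ⟨h3, h4⟩ := Finset.mem_filter.1 h1
      exact hG2 x h3 h2
    have hTN : T.card + N.card = (tr l).card := Finset.card_filter_add_card_filter_not _
    have hAR : A.card + R.card = N.card := Finset.card_filter_add_card_filter_not _
    have hσ : |∑ x ∈ T, (f0 x : ℤ)| ≤ T.card := by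
      calc |∑ x ∈ T, (f0 x : ℤ)| ≤ ∑ x ∈ T, |(f0 x : ℤ)| := Finset.abs_sum_le_sum_abs _ _
        _ ≤ ∑ x ∈ T, 1 := Finset.sum_le_sum (fun x _ => sign_abs _)
        _ = T.card := by simp
    obtain ⟨g, hg⟩ := sign_sum R (-((∑ x ∈ T, (f0 x : ℤ)) + A.card)) (by
      rw [abs_neg]
      rw [abs_le] at hσ ⊢
      constructor
      · have h1 : (0 : ℤ) ≤ A.card := by positivity
        omega
      · omega)
    refine ⟨fun x => if x ∈ R then g x else if x ∈ A then 1 else f0 x, ?_, ?_⟩
    · intro x hx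
      have h1 : x ∉ R := fun h => (Finset.mem_filter.1 h).2 hx
      simp only [h1, if_false]
      split_ifs
      · decide
      · exact hf0 x hx
    · intro l' hl'
      by_cases e : l' = l
      · rw [e]
        rw [← Finset.sum_filter_add_sum_filter_not (tr l) (fun x => ∃ l' ∈ F, l' ≠ l ∧ x ∈ tr l')]
        change ∑ x ∈ T, _ + ∑ x ∈ N, _ = 0
        rw [← Finset.sum_filter_add_sum_filter_not N (fun x => x ∈ Γ)]
        change ∑ x ∈ T, _ + (∑ x ∈ A, _ + ∑ x ∈ R, _) = 0
        have e1 : ∑ x ∈ T, (((if x ∈ R then g x else if x ∈ A then 1 else f0 x) : SignType) : ℤ) =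
            ∑ x ∈ T, (f0 x : ℤ) := by
          apply Finset.sum_congr rfl
          intro x hx
          obtain ⟨h1, h2⟩ := Finset.mem_filter.1 hx
          have h3 : x ∉ N := fun h => (Finset.mem_filter.1 h).2 h2
          have h4 : x ∉ R := fun h => h3 (Finset.mem_filter.1 h).1
          have h5 : x ∉ A := fun h => h3 (Finset.mem_filter.1 h).1
          simp only [h4, h5, if_false]
        have e2 : ∑ x ∈ A, (((if x ∈ R then g x else if x ∈ A then 1 else f0 x) : SignType) : ℤ) =
            A.card := by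
          rw [Finset.card_eq_sum_ones]
          push_cast
          apply Finset.sum_congr rfl
          intro x hx
          have h4 : x ∉ R := fun h => (Finset.mem_filter.1 h).2 (Finset.mem_filter.1 hx).2
          simp only [h4, hx, if_false, if_true]
          rfl
        have e3 : ∑ x ∈ R, (((if x ∈ R then g x else if x ∈ A then 1 else f0 x) : SignType) : ℤ) =
            ∑ x ∈ R, (g x : ℤ) := by
          apply Finset.sum_congr rfl
          intro x hx
          simp only [hx, if_true]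
        rw [e1, e2, e3, hg]
        ring
      · rw [← hf0' l' (Finset.mem_erase.2 ⟨e, hl'⟩)]
        apply Finset.sum_congr rfl
        intro x hx
        have h3 : x ∉ N := fun h => (Finset.mem_filter.1 h).2 ⟨l', hl', e, hx⟩
        have h4 : x ∉ R := fun h => h3 (Finset.mem_filter.1 h).1
        have h5 : x ∉ A := fun h => h3 (Finset.mem_filter.1 h).1
        simp only [h4, h5, if_false]

theorem coloring {X Λ : Type*} [DecidableEq X] [DecidableEq Λ] (Γ : Set X) (tr : Λ → Finset X)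
    (hΓ : ∀ l, ∃ G : Finset X, G.card ≤ 2 ∧ ∀ x ∈ tr l, x ∈ Γ → x ∈ G)
    (hbig : ∀ l, tr l = ∅ ∨ 10 ≤ (tr l).card)
    (hdeg : ∀ F : Finset Λ, F.Nonempty → ∃ l ∈ F, ∃ S : Finset X, S.card ≤ 3 ∧
      ∀ x ∈ tr l, (∃ l' ∈ F, l' ≠ l ∧ x ∈ tr l') → x ∈ S) :
    ∃ f : X → SignType, (∀ x ∈ Γ, f x ≠ 0) ∧ ∀ l, ∑ x ∈ tr l, (f x : ℤ) = 0 := by
  let Z0 : Set (X → SignType) := ⋂ x ∈ Γ, {f | f x ≠ 0}
  have hZ0 : IsClosed Z0 := by
    apply isClosed_biInter
    intro x _
    have h1 : IsClosed ((fun f : X → SignType => f x) ⁻¹' ({0}ᶜ : Set SignType)) :=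
      (isClosed_discrete ({0}ᶜ : Set SignType)).preimage (continuous_apply x)
    exact h1
  let t : Λ → Set (X → SignType) := fun l => {f | ∑ x ∈ tr l, (f x : ℤ) = 0}
  have ht : ∀ l, IsClosed (t l) := by
    intro l
    have hc : Continuous (fun f : X → SignType => ∑ x ∈ tr l, (f x : ℤ)) := by
      apply continuous_finset_sum
      intro x _
      exact (continuous_of_discreteTopology (f := fun s : SignType => (s : ℤ))).comp
        (continuous_apply x)
    exact (isClosed_discrete ({0} : Set ℤ)).preimage hc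
  obtain ⟨f, hf, hf'⟩ := hZ0.isCompact.inter_iInter_nonempty t ht (by
    intro u
    obtain ⟨f, hf, hf'⟩ := coloring_finite Γ tr hΓ hbig hdeg u.card u rfl
    refine ⟨f, ?_, ?_⟩
    · simp only [Z0, mem_iInter, mem_setOf_eq]
      exact hf
    · simp only [t, mem_iInter, mem_setOf_eq]
      exact hf')
  refine ⟨f, ?_, ?_⟩
  · simp only [Z0, mem_iInter, mem_setOf_eq] at hf
    exact hf
  · simp only [t, mem_iInter, mem_setOf_eq] at hf'
    exact hf'

end Pool.Agent.Helper149.FD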