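import Pool.Agent.Helper149.FDDefs
set_option autoImplicit false

namespace Pool.Agent.Helper149.FD
open Set


theorem chi_abs_le (j : ℚ × ℕ) (u : ℝ) : |chi j u| ≤ 2 := by
  have ha0 : 0 ≤ ctr j.1 := le_max_left _ _
  have ha1 : ctr j.1 ≤ 1 := max_le (by norm_num) (min_le_left _ _)
  have hr0 : 0 < rho j.2 := by unfold rho; positivity
  have hr1 : rho j.2 ≤ 1 := by
    unfold rho
    rw [div_le_one (by positivity)]
    have : (0 : ℝ) ≤ j.2 := Nat.cast_nonneg _
    linarith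
  have hr2 : rho j.2 ^ 2 ≤ 1 := by nlinarith
  unfold chi
  rcases le_or_gt (rho j.2 ^ 2) ((u - ctr j.1) ^ 2) with h | h
  · have h0 : hat j u = 0 := by
      unfold hat
      exact max_eq_left (by linarith)
    rw [h0]
    norm_num
  · have h1 : |u - ctr j.1| < 1 := by
      rw [← sq_lt_one_iff_abs_lt_one]
      linarith
    obtain ⟨h2, h3⟩ := abs_lt.1 h1
    have hh0 : 0 ≤ hat j u := le_max_left _ _
    have hh1 : hat j u ≤ 1 := by
      unfold hat
      refine max_le (by norm_num) ?_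
      nlinarith [sq_nonneg (u - ctr j.1)]
    have hh2 : hat j u ^ 2 ≤ 1 := by nlinarith
    have hu : |u * (1 - u)| ≤ 2 := by
      rw [abs_le]
      constructor
      · nlinarith
      · nlinarith [sq_nonneg (u - 1 / 2)]
    rw [abs_mul, abs_of_nonneg (sq_nonneg (hat j u))]
    calc |u * (1 - u)| * hat j u ^ 2 ≤ 2 * 1 :=
          mul_le_mul hu hh2 (sq_nonneg _) (by norm_num)
      _ = 2 := by norm_num

theorem chi_continuous (j : ℚ × ℕ) : Continuous (chi j) := by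
  unfold chi hat
  fun_prop

theorem term_le {w c v : ℝ} (hw : 0 < w) (hc0 : 0 ≤ c) (hc1 : c ≤ 1) (hv : |v| ≤ 2) :
    ‖c * (w * v)‖ ≤ 2 * w := by
  rw [Real.norm_eq_abs, abs_mul, abs_mul, abs_of_nonneg hc0, abs_of_pos hw]
  have h1 : 0 ≤ w * |v| := by positivity
  have h2 : w * |v| ≤ w * 2 := by gcongr
  nlinarith

variable (wt : (ℚ × ℕ) × ℕ → ℝ) (hpos : ∀ x, 0 < wt x) (hsum : Summable wt) (hle : ∑' x, wt x ≤ 1/1000)

include hpos hsum in
theorem om_continuous (K : ℝ) :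
    Continuous (fun z : ((ℚ × ℕ) × ℕ → Set.Icc (0:ℝ) 1) × ℝ => om wt K z.1 z.2) := by
  unfold om
  refine Continuous.add (by fun_prop) ?_
  refine continuous_tsum (u := fun x => 2 * wt x) ?_ (hsum.mul_left 2) ?_
  · intro x
    have h1 : Continuous (fun z : ((ℚ × ℕ) × ℕ → Set.Icc (0:ℝ) 1) × ℝ => ((z.1 x : ℝ))) :=
      continuous_subtype_val.comp ((continuous_apply x).comp continuous_fst)
    have h2 : Continuous (fun z : ((ℚ × ℕ) × ℕ → Set.Icc (0:ℝ) 1) × ℝ => chi x.1 z.2) :=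
      (chi_continuous x.1).comp continuous_snd
    exact h1.mul (continuous_const.mul h2)
  · intro x z
    exact term_le (hpos x) (z.1 x).2.1 (z.1 x).2.2 (chi_abs_le x.1 z.2)

include hpos hsum in
theorem om_perturb (K : ℝ) (c c' : (ℚ × ℕ) × ℕ → Set.Icc (0:ℝ) 1) (J : Finset ((ℚ × ℕ) × ℕ))
    (hJ : ∀ x, x ∉ J → c' x = c x) (u : ℝ) :
    om wt K c' u = om wt K c u + ∑ x ∈ J, ((c' x : ℝ) - (c x : ℝ)) * (wt x * chi x.1 u) := by
  have hs : ∀ c : (ℚ × ℕ) × ℕ → Set.Icc (0:ℝ) 1,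
      Summable (fun x => (c x : ℝ) * (wt x * chi x.1 u)) := fun c =>
    Summable.of_norm_bounded (hsum.mul_left 2)
      (fun x => term_le (hpos x) (c x).2.1 (c x).2.2 (chi_abs_le x.1 u))
  have h1 : ∑' x, ((c' x : ℝ) * (wt x * chi x.1 u) - (c x : ℝ) * (wt x * chi x.1 u)) =
      ∑ x ∈ J, ((c' x : ℝ) - (c x : ℝ)) * (wt x * chi x.1 u) := by
    rw [tsum_eq_sum (s := J)]
    · exact Finset.sum_congr rfl fun x _ => by ring
    · intro x hx
      rw [hJ x hx, sub_self]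
  rw [(hs c').tsum_sub (hs c)] at h1
  unfold om
  rw [← h1]
  ring

end Pool.Agent.Helper149.FD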