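import Pool.Agent.Helper149.FDDefs
set_option autoImplicit false

namespace Pool.Agent.Helper149.FD
open Set


variable (wt : (ℚ × ℕ) × ℕ → ℝ) (hpos : ∀ x, 0 < wt x) (hsum : Summable wt) (hle : ∑' x, wt x ≤ 1/1000)

theorem aux6_sq (y : ℝ) : HasDerivAt (fun y : ℝ => (max 0 y) ^ 2) (2 * max 0 y) y := by
  rcases lt_trichotomy y 0 with h | h | h
  · rw [max_eq_left h.le, mul_zero]
    refine (hasDerivAt_const y (0:ℝ)).congr_of_eventuallyEq ?_
    filter_upwards [Iio_mem_nhds h] with z hz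
    rw [max_eq_left (le_of_lt hz)]
    norm_num
  · subst h
    rw [max_self, mul_zero, hasDerivAt_iff_isLittleO_nhds_zero]
    have h1 : (fun h : ℝ => (max 0 (0 + h)) ^ 2 - (max 0 (0:ℝ)) ^ 2 - h • (0:ℝ)) =
        fun h : ℝ => (max 0 h) ^ 2 := by
      funext h
      simp
    rw [h1]
    have h2 : (fun h : ℝ => (max 0 h) ^ 2) =O[nhds 0] fun h : ℝ => h ^ 2 := by
      refine Asymptotics.IsBigO.of_bound 1 (Filter.Eventually.of_forall fun h => ?_)
      rw [one_mul, Real.norm_eq_abs, Real.norm_eq_abs, abs_pow, abs_pow]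
      apply pow_le_pow_left₀ (abs_nonneg _)
      rw [abs_of_nonneg (le_max_left _ _)]
      exact max_le (abs_nonneg _) (le_abs_self _)
    exact h2.trans_isLittleO (Asymptotics.isLittleO_pow_id (by norm_num))
  · rw [max_eq_right h.le]
    have h1 : HasDerivAt (fun y : ℝ => y ^ 2) (2 * y) y := by
      simpa using hasDerivAt_pow 2 y
    refine h1.congr_of_eventuallyEq ?_
    filter_upwards [Ioi_mem_nhds h] with z hz
    rw [max_eq_right (le_of_lt hz)]

/-- derivative of `chi` -/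
noncomputable def aux6_d (j : ℚ × ℕ) (u : ℝ) : ℝ :=
  (1 - 2 * u) * (hat j u) ^ 2 + u * (1 - u) * (2 * hat j u * (-(2 * (u - ctr j.1))))

theorem aux6_hasDerivAt (j : ℚ × ℕ) (u : ℝ) : HasDerivAt (chi j) (aux6_d j u) u := by
  have h1 : HasDerivAt (fun u : ℝ => u * (1 - u)) (1 - 2 * u) u := by
    have h2 : HasDerivAt (fun u : ℝ => u - u ^ 2) (1 - 2 * u) u := by
      have h0 : HasDerivAt (fun u : ℝ => u ^ 2) (2 * u) u := by
        simpa using hasDerivAt_pow 2 u
      exact (hasDerivAt_id' u).fun_sub h0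
    refine h2.congr_of_eventuallyEq (Filter.Eventually.of_forall fun v => ?_)
    show v * (1 - v) = v - v ^ 2
    ring
  have h3 : HasDerivAt (fun u : ℝ => (rho j.2) ^ 2 - (u - ctr j.1) ^ 2)
      (-(2 * (u - ctr j.1))) u := by
    have h4 : HasDerivAt (fun u : ℝ => (u - ctr j.1) ^ 2) (2 * (u - ctr j.1)) u := by
      have h0 := ((hasDerivAt_id' u).sub_const (ctr j.1)).fun_pow 2
      simpa using h0
    exact h4.const_sub _
  have h5 : HasDerivAt (fun u : ℝ => (hat j u) ^ 2) (2 * hat j u * (-(2 * (u - ctr j.1)))) u :=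
    HasDerivAt.comp (h₂ := fun y : ℝ => (max 0 y) ^ 2)
      (h := fun u : ℝ => (rho j.2) ^ 2 - (u - ctr j.1) ^ 2) u
      (aux6_sq ((rho j.2) ^ 2 - (u - ctr j.1) ^ 2)) h3
  exact h1.mul h5

theorem chi_differentiable (j : ℚ × ℕ) : Differentiable ℝ (chi j) := fun u =>
  (aux6_hasDerivAt j u).differentiableAt

theorem aux6_hat (j : ℚ × ℕ) (u : ℝ) : hat j u = 0 ∨
    (0 ≤ hat j u ∧ hat j u ≤ 1 ∧ |u - ctr j.1| ≤ 1 ∧ |1 - 2 * u| ≤ 3 ∧ |u * (1 - u)| ≤ 2) := by
  by_cases h : (rho j.2) ^ 2 - (u - ctr j.1) ^ 2 ≤ 0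
  · left
    unfold hat
    exact max_eq_left h
  · right
    have h' := not_le.1 h
    have hr0 : 0 < rho j.2 := by unfold rho; positivity
    have hr1 : rho j.2 ≤ 1 := by
      unfold rho
      rw [div_le_one (by positivity)]
      have : (0:ℝ) ≤ j.2 := Nat.cast_nonneg _
      linarith
    have hc0 : 0 ≤ ctr j.1 := le_max_left _ _
    have hc1 : ctr j.1 ≤ 1 := max_le zero_le_one (min_le_left _ _)
    have h1 : (u - ctr j.1) ^ 2 ≤ 1 := by nlinarith
    have h2 : |u - ctr j.1| ≤ 1 := by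
      rw [← sq_le_one_iff_abs_le_one]
      exact h1
    have h3 := abs_le.1 h2
    refine ⟨le_max_left _ _, ?_, h2, ?_, ?_⟩
    · unfold hat
      apply max_le zero_le_one
      nlinarith [sq_nonneg (u - ctr j.1)]
    · rw [abs_le]; constructor <;> linarith
    · rw [abs_le]; constructor <;> nlinarith

theorem aux6_chi_le (j : ℚ × ℕ) (u : ℝ) : |chi j u| ≤ 2 := by
  unfold chi
  rcases aux6_hat j u with h | ⟨h0, h1, _, _, h4⟩
  · rw [h]; norm_num
  · rw [abs_mul, abs_of_nonneg (sq_nonneg (hat j u))]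
    have h5 : (hat j u) ^ 2 ≤ 1 := by nlinarith
    nlinarith [abs_nonneg (u * (1 - u)), sq_nonneg (hat j u)]

theorem aux6_d_le (j : ℚ × ℕ) (u : ℝ) : |aux6_d j u| ≤ 11 := by
  unfold aux6_d
  rcases aux6_hat j u with h | ⟨h0, h1, h2, h3, h4⟩
  · rw [h]; norm_num
  · have h5 : (hat j u) ^ 2 ≤ 1 := by nlinarith
    have e1 : |(1 - 2 * u) * (hat j u) ^ 2| ≤ 3 := by
      rw [abs_mul, abs_of_nonneg (sq_nonneg (hat j u))]
      nlinarith [abs_nonneg (1 - 2 * u), sq_nonneg (hat j u)]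
    have e2 : |2 * hat j u * (-(2 * (u - ctr j.1)))| ≤ 4 := by
      rw [abs_mul, abs_neg, abs_mul, abs_mul, abs_of_nonneg h0, abs_two]
      have := abs_nonneg (u - ctr j.1)
      nlinarith
    have e3 : |u * (1 - u) * (2 * hat j u * (-(2 * (u - ctr j.1))))| ≤ 8 := by
      rw [abs_mul]
      calc _ ≤ 2 * 4 := mul_le_mul h4 e2 (abs_nonneg _) (by norm_num)
        _ = 8 := by norm_num
    exact (abs_add_le _ _).trans (by linarith)

theorem aux6_c (c : (ℚ × ℕ) × ℕ → Set.Icc (0:ℝ) 1) (x : (ℚ × ℕ) × ℕ) :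
    0 ≤ (c x : ℝ) ∧ (c x : ℝ) ≤ 1 := (c x).2

include hpos hsum in
theorem aux6_summable (c : (ℚ × ℕ) × ℕ → Set.Icc (0:ℝ) 1) (u : ℝ) :
    Summable fun x => (c x : ℝ) * (wt x * chi x.1 u) := by
  refine Summable.of_norm_bounded (hsum.mul_left 2) fun x => ?_
  rw [Real.norm_eq_abs, abs_mul, abs_mul, abs_of_nonneg (aux6_c c x).1, abs_of_pos (hpos x)]
  have h1 := aux6_chi_le x.1 u
  have h2 := (aux6_c c x).1
  have h3 := (aux6_c c x).2
  have h4 := hpos x
  have h5 : wt x * |chi x.1 u| ≤ wt x * 2 := mul_le_mul_of_nonneg_left h1 h4.le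
  have h6 : 0 ≤ wt x * |chi x.1 u| := by positivity
  calc (c x : ℝ) * (wt x * |chi x.1 u|) ≤ 1 * (wt x * |chi x.1 u|) :=
        mul_le_mul_of_nonneg_right h3 h6
    _ ≤ 2 * wt x := by linarith

include hpos hsum in
theorem aux6_tsum_differentiable (c : (ℚ × ℕ) × ℕ → Set.Icc (0:ℝ) 1) :
    Differentiable ℝ (fun u => ∑' x, (c x : ℝ) * (wt x * chi x.1 u)) := by
  intro u
  have h := hasDerivAt_tsum (u := fun x => 11 * wt x)
    (g := fun x u => (c x : ℝ) * (wt x * chi x.1 u))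
    (g' := fun x u => (c x : ℝ) * (wt x * aux6_d x.1 u)) (hsum.mul_left 11)
    (fun x v => ((aux6_hasDerivAt x.1 v).const_mul (wt x)).const_mul (c x : ℝ))
    (fun x v => by
      rw [Real.norm_eq_abs, abs_mul, abs_mul, abs_of_nonneg (aux6_c c x).1, abs_of_pos (hpos x)]
      have h1 := aux6_d_le x.1 v
      have h3 := (aux6_c c x).2
      have h4 := hpos x
      have h5 : wt x * |aux6_d x.1 v| ≤ wt x * 11 := mul_le_mul_of_nonneg_left h1 h4.le
      have h6 : 0 ≤ wt x * |aux6_d x.1 v| := by positivity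
      calc (c x : ℝ) * (wt x * |aux6_d x.1 v|) ≤ 1 * (wt x * |aux6_d x.1 v|) :=
            mul_le_mul_of_nonneg_right h3 h6
        _ ≤ 11 * wt x := by linarith)
    (aux6_summable wt hpos hsum c u) u
  exact h.differentiableAt

include hpos hsum in
theorem om_differentiable (K : ℝ) (c : (ℚ × ℕ) × ℕ → Set.Icc (0:ℝ) 1) : Differentiable ℝ (om wt K c) := by
  unfold om
  refine Differentiable.add ?_ (aux6_tsum_differentiable wt hpos hsum c)
  fun_prop

theorem aux6_chi_lip (j : ℚ × ℕ) (u v : ℝ) : |chi j u - chi j v| ≤ 11 * |u - v| := by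
  have := Convex.norm_image_sub_le_of_norm_hasDerivWithin_le (f := chi j) (f' := aux6_d j)
    (C := 11) (s := univ) (x := v) (y := u) (fun x _ => (aux6_hasDerivAt j x).hasDerivWithinAt)
    (fun x _ => aux6_d_le j x) convex_univ (mem_univ _) (mem_univ _)
  simpa [Real.norm_eq_abs] using this

include hpos hsum in
theorem om_lipschitz (K : ℝ) (c : (ℚ × ℕ) × ℕ → Set.Icc (0:ℝ) 1) :
    ∃ L : NNReal, LipschitzOnWith L (om wt K c) (Set.Icc 0 1) := by
  have hw0 : 0 ≤ ∑' x, wt x := tsum_nonneg fun x => (hpos x).le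
  have hL0 : 0 ≤ |K| + 11 * ∑' x, wt x := by positivity
  refine ⟨Real.toNNReal (|K| + 11 * ∑' x, wt x), LipschitzOnWith.of_dist_le_mul ?_⟩
  intro u hu v hv
  rw [Real.dist_eq, Real.dist_eq, Real.coe_toNNReal _ hL0]
  show |om wt K c u - om wt K c v| ≤ (|K| + 11 * ∑' x, wt x) * |u - v|
  have e1 : om wt K c u - om wt K c v = K * (u * (1 - u) - v * (1 - v)) +
      ∑' x, ((c x : ℝ) * (wt x * chi x.1 u) - (c x : ℝ) * (wt x * chi x.1 v)) := by
    rw [(aux6_summable wt hpos hsum c u).tsum_sub (aux6_summable wt hpos hsum c v)]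
    unfold om
    ring
  have e2 : |K * (u * (1 - u) - v * (1 - v))| ≤ |K| * |u - v| := by
    rw [abs_mul]
    apply mul_le_mul_of_nonneg_left _ (abs_nonneg _)
    have e3 : u * (1 - u) - v * (1 - v) = (u - v) * (1 - u - v) := by ring
    rw [e3, abs_mul]
    have e4 : |1 - u - v| ≤ 1 := by
      rw [abs_le]
      constructor <;> linarith [hu.1, hu.2, hv.1, hv.2]
    calc |u - v| * |1 - u - v| ≤ |u - v| * 1 := mul_le_mul_of_nonneg_left e4 (abs_nonneg _)
      _ = |u - v| := mul_one _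
  have hb : ∀ x, ‖(c x : ℝ) * (wt x * chi x.1 u) - (c x : ℝ) * (wt x * chi x.1 v)‖ ≤
      (11 * |u - v|) * wt x := by
    intro x
    rw [← mul_sub, ← mul_sub, Real.norm_eq_abs, abs_mul, abs_mul, abs_of_nonneg (aux6_c c x).1,
      abs_of_pos (hpos x)]
    have h1 := aux6_chi_lip x.1 u v
    have h3 := (aux6_c c x).2
    have h4 := hpos x
    have h5 : wt x * |chi x.1 u - chi x.1 v| ≤ wt x * (11 * |u - v|) :=
      mul_le_mul_of_nonneg_left h1 h4.le
    have h6 : 0 ≤ wt x * |chi x.1 u - chi x.1 v| := by positivity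
    calc (c x : ℝ) * (wt x * |chi x.1 u - chi x.1 v|) ≤ 1 * (wt x * |chi x.1 u - chi x.1 v|) :=
          mul_le_mul_of_nonneg_right h3 h6
      _ ≤ (11 * |u - v|) * wt x := by linarith
  have e5 : |∑' x, ((c x : ℝ) * (wt x * chi x.1 u) - (c x : ℝ) * (wt x * chi x.1 v))| ≤
      (11 * |u - v|) * ∑' x, wt x := by
    have := tsum_of_norm_bounded (hsum.hasSum.mul_left (11 * |u - v|)) hb
    rwa [Real.norm_eq_abs] at this
  rw [e1]
  refine (abs_add_le _ _).trans ((add_le_add e2 e5).trans (le_of_eq ?_))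
  ring

end Pool.Agent.Helper149.FD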