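import Pool.Agent.Helper149.FDDefs
set_option autoImplicit false

namespace Pool.Agent.Helper149.FD
open Set


variable (wt : (ℚ × ℕ) × ℕ → ℝ) (hpos : ∀ x, 0 < wt x) (hsum : Summable wt) (hle : ∑' x, wt x ≤ 1/1000)

theorem j6c_ctr (q : ℚ) : 0 ≤ ctr q ∧ ctr q ≤ 1 :=
  ⟨le_max_left _ _, max_le zero_le_one (min_le_left _ _)⟩

theorem j6c_rho (n : ℕ) : 0 < rho n ∧ rho n ≤ 1 := by
  have h : (0 : ℝ) ≤ n := Nat.cast_nonneg n
  constructor
  · unfold rho; positivity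
  · unfold rho
    rw [div_le_one (by positivity)]
    linarith

theorem j6c_hat (j : ℚ × ℕ) (u : ℝ) : 0 ≤ hat j u ∧ hat j u ≤ 1 := by
  obtain ⟨h1, h2⟩ := j6c_rho j.2
  refine ⟨le_max_left _ _, max_le zero_le_one ?_⟩
  nlinarith [sq_nonneg (u - ctr j.1)]

theorem j6c_hat_zero {j : ℚ × ℕ} {u : ℝ} (h : 1 ≤ |u - ctr j.1|) : hat j u = 0 := by
  obtain ⟨h1, h2⟩ := j6c_rho j.2
  apply max_eq_left
  have h3 : 1 ≤ (u - ctr j.1) ^ 2 := by
    rw [← sq_abs]
    nlinarith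
  nlinarith

theorem j6c_chi {j : ℚ × ℕ} {u : ℝ} (hu : u ∈ Set.Icc (0:ℝ) 1) :
    0 ≤ chi j u ∧ chi j u ≤ u * (1 - u) := by
  obtain ⟨h1, h2⟩ := j6c_hat j u
  obtain ⟨h3, h4⟩ := hu
  have h5 : 0 ≤ u * (1 - u) := mul_nonneg h3 (by linarith)
  unfold chi
  refine ⟨by positivity, ?_⟩
  have h6 : hat j u ^ 2 ≤ 1 := by nlinarith
  nlinarith

theorem j6c_lip {c u v h1 h2 : ℝ} (hu : 0 ≤ u) (huv : u ≤ v) (hv : v ≤ 1) (hc : 0 ≤ c)
    (hc1 : c ≤ 1) (h10 : 0 ≤ h1) (h11 : h1 ≤ 1) (h20 : 0 ≤ h2) (h21 : h2 ≤ 1)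
    (hh : |h2 - h1| ≤ 2 * (v - u)) :
    ((1 - 2 * v) * h2 ^ 2 - 4 * (v * (1 - v)) * (v - c) * h2) -
      ((1 - 2 * u) * h1 ^ 2 - 4 * (u * (1 - u)) * (u - c) * h1) ≤ 22 * (v - u) := by
  have hD : 0 ≤ v - u := by linarith
  have a1 : (1 - 2 * v) * h2 ^ 2 - (1 - 2 * u) * h1 ^ 2 ≤ 6 * (v - u) := by
    have e : (1 - 2 * v) * h2 ^ 2 - (1 - 2 * u) * h1 ^ 2 =
      (1 - 2 * v) * (h2 + h1) * (h2 - h1) - 2 * (v - u) * h1 ^ 2 := by ring
    rw [e]
    have b1 : |(1 - 2 * v) * (h2 + h1)| ≤ 2 := by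
      rw [abs_mul]
      have : |1 - 2 * v| ≤ 1 := abs_le.2 ⟨by linarith, by linarith⟩
      have : |h2 + h1| ≤ 2 := abs_le.2 ⟨by linarith, by linarith⟩
      calc |1 - 2 * v| * |h2 + h1| ≤ 1 * 2 := by gcongr
        _ = 2 := by norm_num
    have b2 : (1 - 2 * v) * (h2 + h1) * (h2 - h1) ≤ 2 * (2 * (v - u)) := by
      refine (le_abs_self _).trans ?_
      rw [abs_mul]
      gcongr
    have b3 : 0 ≤ 2 * (v - u) * h1 ^ 2 := by positivity
    linarith
  have a2 : |v * (1 - v) * (v - c) - u * (1 - u) * (u - c)| ≤ 2 * (v - u) := by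
    have e : v * (1 - v) * (v - c) - u * (1 - u) * (u - c) =
      (v - u) * ((1 - u - v) * (v - c) + u * (1 - u)) := by ring
    rw [e, abs_mul, abs_of_nonneg hD, mul_comm]
    have b1 : |(1 - u - v) * (v - c) + u * (1 - u)| ≤ 2 := by
      refine (abs_add_le _ _).trans ?_
      rw [abs_mul]
      have c1 : |1 - u - v| ≤ 1 := abs_le.2 ⟨by linarith, by linarith⟩
      have c2 : |v - c| ≤ 1 := abs_le.2 ⟨by linarith, by linarith⟩
      have c3 : |u * (1 - u)| ≤ 1 := abs_le.2 ⟨by nlinarith, by nlinarith⟩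
      have c4 : |1 - u - v| * |v - c| ≤ 1 * 1 := by gcongr
      linarith
    gcongr
  have a3 : |u * (1 - u) * (u - c)| ≤ 1 := by
    rw [abs_mul]
    have c2 : |u - c| ≤ 1 := abs_le.2 ⟨by linarith, by linarith⟩
    have c3 : |u * (1 - u)| ≤ 1 := abs_le.2 ⟨by nlinarith, by nlinarith⟩
    calc |u * (1 - u)| * |u - c| ≤ 1 * 1 := by gcongr
      _ = 1 := by norm_num
  have a4 : -(4 * (v - u)) ≤ v * (1 - v) * (v - c) * h2 - u * (1 - u) * (u - c) * h1 := by
    have e : v * (1 - v) * (v - c) * h2 - u * (1 - u) * (u - c) * h1 =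
      (v * (1 - v) * (v - c) - u * (1 - u) * (u - c)) * h2 + u * (1 - u) * (u - c) * (h2 - h1) := by
      ring
    rw [e]
    have b1 : |(v * (1 - v) * (v - c) - u * (1 - u) * (u - c)) * h2| ≤ 2 * (v - u) * 1 := by
      rw [abs_mul, abs_of_nonneg h20]
      gcongr
    have b2 : |u * (1 - u) * (u - c) * (h2 - h1)| ≤ 1 * (2 * (v - u)) := by
      rw [abs_mul]
      gcongr
    have b1' := (abs_le.1 b1).1
    have b2' := (abs_le.1 b2).1
    linarith
  have e2 : ((1 - 2 * v) * h2 ^ 2 - 4 * (v * (1 - v)) * (v - c) * h2) -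
      ((1 - 2 * u) * h1 ^ 2 - 4 * (u * (1 - u)) * (u - c) * h1) =
      ((1 - 2 * v) * h2 ^ 2 - (1 - 2 * u) * h1 ^ 2) -
        4 * (v * (1 - v) * (v - c) * h2 - u * (1 - u) * (u - c) * h1) := by ring
  rw [e2]
  linarith

theorem j6c_hat_lip (j : ℚ × ℕ) {u v : ℝ} (hu : 0 ≤ u) (huv : u ≤ v) (hv : v ≤ 1) :
    |hat j v - hat j u| ≤ 2 * (v - u) := by
  obtain ⟨h1, h2⟩ := j6c_ctr j.1
  have hD : 0 ≤ v - u := by linarith
  unfold hat
  refine (abs_max_sub_max_le_max _ _ _ _).trans ?_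
  rw [sub_self, abs_zero]
  refine max_le (by linarith) ?_
  have e : rho j.2 ^ 2 - (v - ctr j.1) ^ 2 - (rho j.2 ^ 2 - (u - ctr j.1) ^ 2) =
    -((v - u) * (u + v - 2 * ctr j.1)) := by ring
  rw [e, abs_neg, abs_mul, abs_of_nonneg hD, mul_comm]
  have : |u + v - 2 * ctr j.1| ≤ 2 := abs_le.2 ⟨by linarith, by linarith⟩
  gcongr

theorem j6c_max_sq (y : ℝ) : HasDerivAt (fun x : ℝ => (max 0 x) ^ 2) (2 * max 0 y) y := by
  rcases lt_trichotomy y 0 with h | h | h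
  · rw [max_eq_left h.le, mul_zero]
    refine (hasDerivAt_const y (0 : ℝ)).congr_of_eventuallyEq ?_
    filter_upwards [Iio_mem_nhds h] with x hx
    rw [max_eq_left (le_of_lt hx)]
    norm_num
  · subst h
    have h1 : (fun x : ℝ => (max 0 x) ^ 2) =O[nhds 0] fun x => ‖x - 0‖ ^ 2 := by
      refine Asymptotics.IsBigO.of_bound 1 (Filter.Eventually.of_forall fun x => ?_)
      rw [sub_zero, one_mul, norm_pow, norm_pow, norm_norm]
      have : ‖max 0 x‖ ≤ ‖x‖ := by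
        rw [Real.norm_eq_abs, Real.norm_eq_abs, abs_of_nonneg (le_max_left _ _)]
        exact max_le (abs_nonneg _) (le_abs_self _)
      gcongr
    have h2 := (h1.hasFDerivAt (𝕜 := ℝ) (by norm_num)).hasDerivAt
    simpa using h2
  · rw [max_eq_right h.le]
    have h2 : HasDerivAt (fun x : ℝ => x ^ 2) (2 * y) y := by
      simpa using hasDerivAt_pow 2 y
    refine h2.congr_of_eventuallyEq ?_
    filter_upwards [Ioi_mem_nhds h] with x hx
    rw [max_eq_right (le_of_lt hx)]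

/-- the derivative of `chi` -/
noncomputable def j6c_d (j : ℚ × ℕ) (u : ℝ) : ℝ :=
  (1 - 2 * u) * (hat j u) ^ 2 - 4 * (u * (1 - u)) * (u - ctr j.1) * hat j u

theorem j6c_deriv (j : ℚ × ℕ) (u : ℝ) : HasDerivAt (chi j) (j6c_d j u) u := by
  have h1 : HasDerivAt (fun u : ℝ => (rho j.2) ^ 2 - (u - ctr j.1) ^ 2) (-(2 * (u - ctr j.1))) u := by
    have h2 : HasDerivAt (fun u : ℝ => u - ctr j.1) 1 u := (hasDerivAt_id u).sub_const _
    have h3 := (h2.pow 2).const_sub ((rho j.2) ^ 2)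
    simpa using h3
  have h2 := (j6c_max_sq ((rho j.2) ^ 2 - (u - ctr j.1) ^ 2)).comp u h1
  have h3 : HasDerivAt (fun u : ℝ => u * (1 - u)) (1 - 2 * u) u := by
    have := (hasDerivAt_id u).mul ((hasDerivAt_id u).const_sub 1)
    refine this.congr_deriv ?_
    simp; ring
  have h4 := h3.mul h2
  refine h4.congr_deriv ?_
  unfold j6c_d hat
  simp only [Function.comp_def]
  ring

theorem j6c_d_bound (j : ℚ × ℕ) (u : ℝ) : |j6c_d j u| ≤ 11 := by
  obtain ⟨h1, h2⟩ := j6c_hat j u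
  obtain ⟨h3, h4⟩ := j6c_ctr j.1
  unfold j6c_d
  rcases le_or_gt 1 |u - ctr j.1| with h | h
  · rw [j6c_hat_zero h]; norm_num
  · have h5 := abs_lt.1 h
    have h6 : hat j u ^ 2 ≤ 1 := by nlinarith
    have h7 : |1 - 2 * u| ≤ 3 := abs_le.2 ⟨by linarith, by linarith⟩
    have h8 : |u * (1 - u)| ≤ 2 := abs_le.2 ⟨by nlinarith, by nlinarith [sq_nonneg (u - 1 / 2)]⟩
    refine (abs_sub _ _).trans ?_
    rw [abs_mul, abs_mul, abs_mul, abs_mul, abs_of_nonneg h1, abs_of_nonneg (sq_nonneg (hat j u)),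
      abs_of_pos (by norm_num : (0:ℝ) < 4)]
    have h9 : |1 - 2 * u| * hat j u ^ 2 ≤ 3 * 1 := by gcongr
    have h10 : 4 * |u * (1 - u)| * |u - ctr j.1| * hat j u ≤ 4 * 2 * 1 * 1 := by gcongr
    linarith

include hpos hsum in
theorem j6c_summ (c : (ℚ × ℕ) × ℕ → Set.Icc (0:ℝ) 1) {g : (ℚ × ℕ) × ℕ → ℝ} {B : ℝ}
    (hg : ∀ x, |g x| ≤ B) : Summable (fun x => (c x : ℝ) * (wt x * g x)) := by
  refine Summable.of_norm_bounded (hsum.mul_left B) fun x => ?_
  have h1 := (c x).2.1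
  have h2 := (c x).2.2
  have hw := (hpos x).le
  have hB : 0 ≤ B := (abs_nonneg _).trans (hg x)
  rw [Real.norm_eq_abs, abs_mul, abs_mul, abs_of_nonneg h1, abs_of_nonneg hw]
  calc (c x : ℝ) * (wt x * |g x|) ≤ 1 * (wt x * B) := by gcongr; exact hg x
    _ = B * wt x := by ring

include hpos hsum hle in
theorem om_bounds (K : ℝ) (c : (ℚ × ℕ) × ℕ → Set.Icc (0:ℝ) 1) (u : ℝ) (hu : u ∈ Set.Icc (0:ℝ) 1) :
    K * (u * (1 - u)) ≤ om wt K c u ∧ om wt K c u ≤ (K + 1/1000) * (u * (1 - u)) := by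
  have h5 : 0 ≤ u * (1 - u) := mul_nonneg hu.1 (by linarith [hu.2])
  have hs : Summable (fun x => (c x : ℝ) * (wt x * chi x.1 u)) := by
    refine j6c_summ wt hpos hsum c (B := u * (1 - u)) fun x => ?_
    rw [abs_of_nonneg (j6c_chi hu).1]
    exact (j6c_chi hu).2
  unfold om
  constructor
  · have : 0 ≤ ∑' x, (c x : ℝ) * (wt x * chi x.1 u) := tsum_nonneg fun x =>
      mul_nonneg (c x).2.1 (mul_nonneg (hpos x).le (j6c_chi hu).1)
    linarith
  · have h1 : ∑' x, (c x : ℝ) * (wt x * chi x.1 u) ≤ ∑' x, wt x * (u * (1 - u)) := by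
      refine hs.tsum_le_tsum (fun x => ?_) (hsum.mul_right _)
      have h1 := (c x).2.1
      have h2 := (c x).2.2
      have hw := (hpos x).le
      have h3 := (j6c_chi (j := x.1) hu).1
      have h4 := (j6c_chi (j := x.1) hu).2
      calc (c x : ℝ) * (wt x * chi x.1 u) ≤ 1 * (wt x * (u * (1 - u))) := by gcongr
        _ = wt x * (u * (1 - u)) := by ring
    rw [tsum_mul_right] at h1
    have h2 : (∑' x, wt x) * (u * (1 - u)) ≤ 1 / 1000 * (u * (1 - u)) := by gcongr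
    linarith

include hpos hsum hle in
theorem om_strictConcave (K : ℝ) (hK : 1/20 ≤ K) (c : (ℚ × ℕ) × ℕ → Set.Icc (0:ℝ) 1) :
    StrictConcaveOn ℝ (Set.Icc 0 1) (om wt K c) := by
  have hder : ∀ u, HasDerivAt (om wt K c)
      (K * (1 - 2 * u) + ∑' x, (c x : ℝ) * (wt x * j6c_d x.1 u)) u := by
    intro u
    have h3 : HasDerivAt (fun u : ℝ => u * (1 - u)) (1 - 2 * u) u := by
      have := (hasDerivAt_id u).mul ((hasDerivAt_id u).const_sub 1)
      refine this.congr_deriv ?_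
      simp; ring
    have h4 := h3.const_mul K
    have h5 : HasDerivAt (fun u => ∑' x, (c x : ℝ) * (wt x * chi x.1 u))
        (∑' x, (c x : ℝ) * (wt x * j6c_d x.1 u)) u := by
      refine hasDerivAt_tsum (u := fun x => 11 * wt x) (hsum.mul_left 11)
        (fun x y => ((j6c_deriv x.1 y).const_mul _).const_mul _) (fun x y => ?_) (y₀ := 0) ?_ u
      · have h1 := (c x).2.1
        have h2 := (c x).2.2
        have hw := (hpos x).le
        rw [Real.norm_eq_abs, abs_mul, abs_mul, abs_of_nonneg h1, abs_of_nonneg hw]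
        calc (c x : ℝ) * (wt x * |j6c_d x.1 y|) ≤ 1 * (wt x * 11) := by
              gcongr; exact j6c_d_bound _ _
          _ = 11 * wt x := by ring
      · refine j6c_summ wt hpos hsum c (B := 0) fun x => ?_
        simp [chi]
    exact h4.add h5
  have hcont : Continuous (om wt K c) := by
    rw [continuous_iff_continuousAt]
    exact fun u => (hder u).continuousAt
  refine StrictAntiOn.strictConcaveOn_of_deriv (convex_Icc 0 1) hcont.continuousOn ?_
  rw [interior_Icc]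
  intro u hu v hv huv
  rw [(hder u).deriv, (hder v).deriv]
  have hs : ∀ w, Summable (fun x => (c x : ℝ) * (wt x * j6c_d x.1 w)) := fun w =>
    j6c_summ wt hpos hsum c (B := 11) fun x => j6c_d_bound _ _
  have h1 : (∑' x, (c x : ℝ) * (wt x * j6c_d x.1 v)) - ∑' x, (c x : ℝ) * (wt x * j6c_d x.1 u) ≤
      22 * (v - u) * (1 / 1000) := by
    rw [← (hs v).tsum_sub (hs u)]
    have h2 : ∑' x, ((c x : ℝ) * (wt x * j6c_d x.1 v) - (c x : ℝ) * (wt x * j6c_d x.1 u)) ≤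
        ∑' x, 22 * (v - u) * wt x := by
      refine ((hs v).sub (hs u)).tsum_le_tsum (fun x => ?_) (hsum.mul_left _)
      have h1 := (c x).2.1
      have h2 := (c x).2.2
      have hw := (hpos x).le
      have h3 := j6c_lip (c := ctr x.1.1) (h1 := hat x.1 u) (h2 := hat x.1 v) hu.1.le huv.le hv.2.le
        (j6c_ctr _).1 (j6c_ctr _).2 (j6c_hat _ _).1 (j6c_hat _ _).2 (j6c_hat _ _).1 (j6c_hat _ _).2
        (j6c_hat_lip x.1 hu.1.le huv.le hv.2.le)
      have e : (c x : ℝ) * (wt x * j6c_d x.1 v) - (c x : ℝ) * (wt x * j6c_d x.1 u) =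
        (c x : ℝ) * wt x * (j6c_d x.1 v - j6c_d x.1 u) := by ring
      rw [e]
      have h4 : j6c_d x.1 v - j6c_d x.1 u ≤ 22 * (v - u) := h3
      have hD : 0 ≤ 22 * (v - u) := by linarith
      calc (c x : ℝ) * wt x * (j6c_d x.1 v - j6c_d x.1 u) ≤ (c x : ℝ) * wt x * (22 * (v - u)) := by
            gcongr
        _ ≤ 1 * wt x * (22 * (v - u)) := by gcongr
        _ = 22 * (v - u) * wt x := by ring
    refine h2.trans ?_
    rw [tsum_mul_left]
    have hD : 0 ≤ 22 * (v - u) := by linarith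
    gcongr
  nlinarith

end Pool.Agent.Helper149.FD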