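import Pool.Agent.Helper149.FDDefs
set_option autoImplicit false

namespace Pool.Agent.Helper149.FD
open Set

theorem chi_separate (u : ℝ) (hu : u ∈ Set.Ioo (0:ℝ) 1) (S : Set ℝ) (hS : S.Finite) (huS : u ∉ S) :
    ∃ j : ℚ × ℕ, 0 < chi j u ∧ ∀ v ∈ S, chi j v = 0 := by
  obtain ⟨hu0, hu1⟩ := hu
  obtain ⟨δ, hδ, hδS⟩ : ∃ δ : ℝ, 0 < δ ∧ ∀ v ∈ S, δ ≤ |v - u| := by
    have h1 : Sᶜ ∈ nhds u := hS.isClosed.isOpen_compl.mem_nhds huS
    obtain ⟨δ, hδ, hb⟩ := Metric.mem_nhds_iff.1 h1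
    refine ⟨δ, hδ, fun v hv => ?_⟩
    by_contra hlt
    rw [not_le, ← Real.dist_eq] at hlt
    exact hb (Metric.mem_ball.2 hlt) hv
  obtain ⟨n, hn⟩ := exists_nat_one_div_lt (show (0 : ℝ) < δ / 2 by positivity)
  have hρ : 0 < rho n := by unfold rho; positivity
  have hρδ : rho n < δ / 2 := hn
  obtain ⟨q, hq1, hq2⟩ := exists_rat_btwn (show max 0 (u - rho n) < u from max_lt hu0 (by linarith))
  have hq0 : (0 : ℝ) < q := lt_of_le_of_lt (le_max_left _ _) hq1
  have hqr : u - rho n < q := lt_of_le_of_lt (le_max_right _ _) hq1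
  have hc : ctr q = q := by
    unfold ctr
    rw [min_eq_right (by linarith), max_eq_right hq0.le]
  refine ⟨(q, n), ?_, fun v hv => ?_⟩
  · unfold chi hat
    simp only [hc]
    have h1 : 0 < (rho n) ^ 2 - (u - q) ^ 2 := by nlinarith
    have h2 : 0 < max 0 ((rho n) ^ 2 - (u - q) ^ 2) := lt_of_lt_of_le h1 (le_max_right _ _)
    have h3 : 0 < 1 - u := by linarith
    positivity
  · unfold chi hat
    simp only [hc]
    have h1 := hδS v hv
    have h2 : rho n ≤ |v - q| := by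
      have h3 : |v - u| ≤ |v - q| + |(q : ℝ) - u| := abs_sub_le _ _ _
      have h4 : |(q : ℝ) - u| < rho n := by rw [abs_lt]; constructor <;> linarith
      linarith
    have h5 : (rho n) ^ 2 - (v - q) ^ 2 ≤ 0 := by
      have := sq_abs (v - q)
      nlinarith [abs_nonneg (v - (q : ℝ))]
    rw [max_eq_left h5]
    simp

end Pool.Agent.Helper149.FD
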