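import Pool.Agent.Helper149.FDDefs
set_option autoImplicit false

namespace Pool.Agent.Helper149.FD
open Set








theorem Kc_pos (k : Fin 5) : 0 < Kc k := by
  unfold Kc; positivity

theorem Kc_le (k : Fin 5) : Kc k ≤ 5 / 12 := by
  unfold Kc
  have h : ((k : ℕ) : ℝ) ≤ 4 := by
    have := k.2
    have h2 : (k : ℕ) ≤ 4 := by omega
    exact_mod_cast h2
  linarith

theorem arc_W (w : Fin 3 × Fin 5 → ℝ → ℝ) (hw : Good w) (a : Fin 3 × Fin 5) (X : ℝ × ℝ)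
    (h : X ∈ arc w a) : frW a.1 X < frU a.1 X ∧ 2 * frW a.1 X < 1 - frU a.1 X := by
  obtain ⟨h1, h2, h3⟩ := h
  have h4 := hw.hi a (frU a.1 X) ⟨h1.le, h2.le⟩
  rw [h3]
  have h5 := Kc_le a.2
  set u := frU a.1 X
  have h6 : 0 < u * (1 - u) := mul_pos h1 (by linarith)
  have h7 : w a u < 1 / 2 * (u * (1 - u)) := by nlinarith
  constructor
  · nlinarith
  · nlinarith

theorem arc_disjoint (w : Fin 3 × Fin 5 → ℝ → ℝ) (hw : Good w) (a a' : Fin 3 × Fin 5) (X : ℝ × ℝ)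
    (h : X ∈ arc w a) (h' : X ∈ arc w a') : a = a' := by
  have g1 := arc_W w hw a X h
  have g2 := arc_W w hw a' X h'
  have key : ∀ (e : Fin 3) (k k' : Fin 5), X ∈ arc w (e, k) → X ∈ arc w (e, k') → k ≤ k' := by
    intro e k k' hk hk'
    obtain ⟨h1, h2, h3⟩ := hk
    obtain ⟨h1', h2', h3'⟩ := hk'
    have h4 := hw.lo (e, k) (frU e X) ⟨h1.le, h2.le⟩
    have h5 := hw.hi (e, k') (frU e X) ⟨h1.le, h2.le⟩
    simp only at h1 h2 h3 h3' h4 h5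
    rw [← h3] at h4
    rw [← h3'] at h5
    set u := frU e X
    have h6 : 0 < u * (1 - u) := mul_pos h1 (by linarith)
    have h7 : Kc k ≤ Kc k' + 1 / 1000 := le_of_mul_le_mul_right (h4.trans h5) h6
    unfold Kc at h7
    have h8 : ((k : ℕ) : ℝ) < (k' : ℕ) + 1 := by linarith
    have h9 : (k : ℕ) < (k' : ℕ) + 1 := by exact_mod_cast h8
    exact Fin.le_def.2 (by omega)
  have he : a.1 = a'.1 := by
    obtain ⟨e, k⟩ := a
    obtain ⟨e', k'⟩ := a'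
    fin_cases e <;> fin_cases e' <;> simp [frU, frW] at g1 g2 ⊢ <;> linarith
  obtain ⟨e, k⟩ := a
  obtain ⟨e', k'⟩ := a'
  simp only at he
  subst he
  have : k = k' := le_antisymm (key e k k' h h') (key e k' k h' h)
  rw [this]

theorem ext_of_U (w : Fin 3 × Fin 5 → ℝ → ℝ) (a : Fin 3 × Fin 5) (X Y : ℝ × ℝ)
    (hX : X ∈ arc w a) (hY : Y ∈ arc w a) (h : frU a.1 X = frU a.1 Y) : X = Y := by
  obtain ⟨-, -, h1⟩ := hX
  obtain ⟨-, -, h2⟩ := hY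
  rw [h] at h1
  have h3 : frW a.1 X = frW a.1 Y := by rw [h1, h2]
  obtain ⟨e, k⟩ := a
  obtain ⟨x1, x2⟩ := X
  obtain ⟨y1, y2⟩ := Y
  fin_cases e <;> simp [frU, frW] at h h3 ⊢ <;> constructor <;> linarith

theorem three_pts {f : ℝ → ℝ} (hf : StrictConcaveOn ℝ (Set.Icc 0 1) f) {A B u1 u2 u3 : ℝ}
    (h1 : u1 ∈ Set.Icc (0 : ℝ) 1) (h3 : u3 ∈ Set.Icc (0 : ℝ) 1) (h12 : u1 < u2) (h23 : u2 < u3)
    (e1 : f u1 = A * u1 + B) (e2 : f u2 = A * u2 + B) (e3 : f u3 = A * u3 + B) : False := by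
  have h := hf.slope_anti_adjacent h1 h3 h12 h23
  rw [e1, e2, e3] at h
  have g1 : (A * u3 + B - (A * u2 + B)) / (u3 - u2) = A := by
    rw [div_eq_iff (by linarith)]; ring
  have g2 : (A * u2 + B - (A * u1 + B)) / (u2 - u1) = A := by
    rw [div_eq_iff (by linarith)]; ring
  rw [g1, g2] at h
  exact lt_irrefl _ h

theorem three_pts' {f : ℝ → ℝ} (hf : StrictConcaveOn ℝ (Set.Icc 0 1) f) {A B u1 u2 u3 : ℝ}
    (h1 : u1 ∈ Set.Icc (0 : ℝ) 1) (h2 : u2 ∈ Set.Icc (0 : ℝ) 1) (h3 : u3 ∈ Set.Icc (0 : ℝ) 1)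
    (e1 : f u1 = A * u1 + B) (e2 : f u2 = A * u2 + B) (e3 : f u3 = A * u3 + B) :
    u1 = u2 ∨ u2 = u3 ∨ u1 = u3 := by
  by_contra hcon
  push Not at hcon
  obtain ⟨n1, n2, n3⟩ := hcon
  rcases lt_or_gt_of_ne n1 with a1 | a1 <;> rcases lt_or_gt_of_ne n2 with a2 | a2 <;>
    rcases lt_or_gt_of_ne n3 with a3 | a3
  · exact three_pts hf h1 h3 a1 a2 e1 e2 e3
  · linarith
  · exact three_pts hf h1 h2 a3 a2 e1 e3 e2
  · exact three_pts hf h3 h2 a3 a1 e3 e1 e2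
  · exact three_pts hf h2 h3 a1 a3 e2 e1 e3
  · exact three_pts hf h2 h1 a2 a3 e2 e3 e1
  · linarith
  · exact three_pts hf h3 h1 a2 a1 e3 e2 e1

theorem finset_two {α : Type*} [DecidableEq α] (S : Set α)
    (h : ∀ x ∈ S, ∀ y ∈ S, ∀ z ∈ S, x = y ∨ y = z ∨ x = z) :
    ∃ G : Finset α, G.card ≤ 2 ∧ ∀ x ∈ S, x ∈ G := by
  rcases S.eq_empty_or_nonempty with he | ⟨x0, hx0⟩
  · refine ⟨∅, by simp, fun x hx => ?_⟩
    rw [he] at hx
    exact absurd hx (by simp)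
  · by_cases hy : ∃ y ∈ S, y ≠ x0
    · obtain ⟨y0, hy0, hne⟩ := hy
      refine ⟨{x0, y0}, Finset.card_le_two, fun z hz => ?_⟩
      rcases h x0 hx0 y0 hy0 z hz with h1 | h1 | h1
      · exact absurd h1.symm hne
      · simp [h1]
      · simp [h1]
    · push Not at hy
      refine ⟨{x0}, by simp, fun z hz => ?_⟩
      simp [hy z hz]

theorem arc_two (w : Fin 3 × Fin 5 → ℝ → ℝ) (hw : Good w) (a : Fin 3 × Fin 5) (l : ℝ × ℝ) (hl : VF l) :
    ∃ G : Finset (ℝ × ℝ), G.card ≤ 2 ∧ ∀ X ∈ arc w a, inc X l → X ∈ G := by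
  classical
  have main : ∀ X ∈ {X | X ∈ arc w a ∧ inc X l}, ∀ Y ∈ {X | X ∈ arc w a ∧ inc X l},
      ∀ Z ∈ {X | X ∈ arc w a ∧ inc X l}, X = Y ∨ Y = Z ∨ X = Z := by
    rintro X ⟨hX, hXl⟩ Y ⟨hY, hYl⟩ Z ⟨hZ, hZl⟩
    suffices hs : (∃ A B : ℝ, ∀ X ∈ arc w a, inc X l → w a (frU a.1 X) = A * frU a.1 X + B) ∨
        ∃ c : ℝ, ∀ X ∈ arc w a, inc X l → frU a.1 X = c by
      rcases hs with ⟨A, B, hs⟩ | ⟨c, hs⟩
      · rcases three_pts' (hw.conc a) ⟨hX.1.le, hX.2.1.le⟩ ⟨hY.1.le, hY.2.1.le⟩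
          ⟨hZ.1.le, hZ.2.1.le⟩ (hs X hX hXl) (hs Y hY hYl) (hs Z hZ hZl) with h | h | h
        · exact Or.inl (ext_of_U w a X Y hX hY h)
        · exact Or.inr (Or.inl (ext_of_U w a Y Z hY hZ h))
        · exact Or.inr (Or.inr (ext_of_U w a X Z hX hZ h))
      · exact Or.inl (ext_of_U w a X Y hX hY ((hs X hX hXl).trans (hs Y hY hYl).symm))
    obtain ⟨e, k⟩ := a
    obtain ⟨m, c⟩ := l
    by_cases hm : m = 0
    · subst hm
      fin_cases e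
      · right
        refine ⟨-c, ?_⟩
        rintro ⟨x, y⟩ - hi
        simp [inc, frU] at hi ⊢
        linarith
      · right
        refine ⟨-c, ?_⟩
        rintro ⟨x, y⟩ - hi
        simp [inc, frU] at hi ⊢
        linarith
      · left
        refine ⟨0, -c, ?_⟩
        rintro ⟨x, y⟩ ⟨-, -, h3⟩ hi
        rw [← h3]
        simp [inc, frU, frW] at hi ⊢
        linarith
    · left
      fin_cases e
      · refine ⟨-(1 + m) / m, (m - c) / m, ?_⟩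
        rintro ⟨x, y⟩ ⟨-, -, h3⟩ hi
        rw [← h3]
        simp [inc, frU, frW] at hi ⊢
        field_simp
        linarith
      · refine ⟨1 / m, c / m, ?_⟩
        rintro ⟨x, y⟩ ⟨-, -, h3⟩ hi
        rw [← h3]
        simp [inc, frU, frW] at hi ⊢
        field_simp
        linarith
      · refine ⟨m, -c, ?_⟩
        rintro ⟨x, y⟩ ⟨-, -, h3⟩ hi
        rw [← h3]
        simp [inc, frU, frW] at hi ⊢
        linarith
  obtain ⟨G, hG, hG2⟩ := finset_two _ main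
  exact ⟨G, hG, fun X hX hi => hG2 X ⟨hX, hi⟩⟩

end Pool.Agent.Helper149.FD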