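import Pool.Agent.Helper149.FDDefs
import Pool.Agent.Helper149.FDJ7a
set_option autoImplicit false

namespace Pool.Agent.Helper149.FD
open Set









theorem h170_ivt (f : ℝ → ℝ) (hf : Continuous f) (h : f 0 * f 1 < 0) :
    ∃ u, 0 < u ∧ u < 1 ∧ f u = 0 := by
  have key : ∃ u ∈ Set.Icc (0:ℝ) 1, f u = 0 := by
    rcases lt_or_gt_of_ne (left_ne_zero_of_mul h.ne) with h0 | h0
    · have h1 : 0 < f 1 := by
        by_contra hneg
        push Not at hneg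
        nlinarith
      exact intermediate_value_Icc zero_le_one hf.continuousOn ⟨h0.le, h1.le⟩
    · have h1 : f 1 < 0 := by
        by_contra hneg
        push Not at hneg
        nlinarith
      exact intermediate_value_Icc' zero_le_one hf.continuousOn ⟨h1.le, h0.le⟩
  obtain ⟨u, ⟨h0, h1⟩, hu⟩ := key
  have n0 : f 0 ≠ 0 := left_ne_zero_of_mul h.ne
  have n1 : f 1 ≠ 0 := right_ne_zero_of_mul h.ne
  refine ⟨u, lt_of_le_of_ne h0 ?_, lt_of_le_of_ne h1 ?_, hu⟩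
  · rintro rfl; exact n0 hu
  · rintro rfl; exact n1 hu

theorem h170_Kc (i : Fin 5) : 0 < Kc i ∧ Kc i + 1/1000 < 1/2 := by
  unfold Kc
  have h1 : ((i : ℕ) : ℝ) ≤ 4 := by
    have := i.2
    exact_mod_cast (by omega : (i : ℕ) ≤ 4)
  have h2 : (0:ℝ) ≤ ((i : ℕ) : ℝ) := Nat.cast_nonneg _
  constructor
  · linarith
  · linarith

theorem h170_wb (w : Fin 3 × Fin 5 → ℝ → ℝ) (hw : Good w) (a : Fin 3 × Fin 5) (u : ℝ)
    (h0 : 0 < u) (h1 : u < 1) : 0 < w a u ∧ w a u < u * (1 - u) / 2 := by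
  have hp : 0 < u * (1 - u) := mul_pos h0 (by linarith)
  have h2 := hw.lo a u ⟨h0.le, h1.le⟩
  have h3 := hw.hi a u ⟨h0.le, h1.le⟩
  obtain ⟨h4, h5⟩ := h170_Kc a.2
  constructor
  · nlinarith
  · nlinarith

theorem h170_w0 (w : Fin 3 × Fin 5 → ℝ → ℝ) (hw : Good w) (a : Fin 3 × Fin 5) :
    w a 0 = 0 ∧ w a 1 = 0 := by
  have h2 := hw.lo a 0 ⟨le_rfl, zero_le_one⟩
  have h3 := hw.hi a 0 ⟨le_rfl, zero_le_one⟩
  have h4 := hw.lo a 1 ⟨zero_le_one, le_rfl⟩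
  have h5 := hw.hi a 1 ⟨zero_le_one, le_rfl⟩
  simp only [zero_mul, mul_zero, sub_self] at h2 h3 h4 h5
  exact ⟨le_antisymm h3 h2, le_antisymm h5 h4⟩

theorem h170_edge (w : Fin 3 × Fin 5 → ℝ → ℝ) (hw : Good w) (l : ℝ × ℝ) (pr : Fin 3 → ℝ)
    (hp0 : pr 0 = (l.1 - l.2) * (-1 - l.2)) (hp1 : pr 1 = (-l.2) * (-1 - l.2))
    (hp2 : pr 2 = (-l.2) * (l.1 - l.2)) (e : Fin 3) (he : pr e < 0) (i : Fin 5) :
    ∃ X, X ∈ arc w (e, i) ∧ inc X l := by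
  obtain ⟨w0, w1⟩ := h170_w0 w hw (e, i)
  have hc := hw.cont (e, i)
  fin_cases e
  · simp only [Fin.zero_eta, Fin.isValue] at *
    rw [hp0] at he
    obtain ⟨u, h0, h1, hu⟩ := h170_ivt (fun u => (1 - u - w (0, i) u) * l.1 - u - l.2)
      (by fun_prop) (by
        simp only [w0, w1]
        calc _ = (l.1 - l.2) * (-1 - l.2) := by ring
          _ < 0 := he)
    refine ⟨(1 - u - w (0, i) u, u), ?_, ?_⟩
    · simp only [arc, frU, frW, Set.mem_ofPred_eq]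
      simp
      exact ⟨h0, h1, by ring⟩
    · simp only [inc]
      linarith
  · simp only [Fin.mk_one, Fin.isValue] at *
    rw [hp1] at he
    obtain ⟨u, h0, h1, hu⟩ := h170_ivt (fun u => (w (1, i) u) * l.1 - u - l.2)
      (by fun_prop) (by
        simp only [w0, w1]
        calc _ = (-l.2) * (-1 - l.2) := by ring
          _ < 0 := he)
    refine ⟨(w (1, i) u, u), ?_, ?_⟩
    · simp only [arc, frU, frW, Set.mem_ofPred_eq]
      simp
      exact ⟨h0, h1⟩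
    · simp only [inc]
      linarith
  · simp only [Fin.reduceFinMk, Fin.isValue] at *
    rw [hp2] at he
    obtain ⟨u, h0, h1, hu⟩ := h170_ivt (fun u => u * l.1 - (w (2, i) u) - l.2)
      (by fun_prop) (by
        simp only [w0, w1]
        calc _ = (-l.2) * (l.1 - l.2) := by ring
          _ < 0 := he)
    refine ⟨(u, w (2, i) u), ?_, ?_⟩
    · simp only [arc, frU, frW, Set.mem_ofPred_eq]
      simp
      exact ⟨h0, h1⟩
    · simp only [inc]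
      linarith

theorem h170_bary (w : Fin 3 × Fin 5 → ℝ → ℝ) (hw : Good w) (a : Fin 3 × Fin 5) (X : ℝ × ℝ)
    (hX : X ∈ arc w a) : 0 < 1 - X.1 - X.2 ∧ 0 < X.1 ∧ 0 < X.2 := by
  obtain ⟨h0, h1, h2⟩ := hX
  obtain ⟨h3, h4⟩ := h170_wb w hw a _ h0 h1
  obtain ⟨e, i⟩ := a
  rw [← h2] at h3 h4
  fin_cases e
  · simp [frU, frW] at *
    refine ⟨by linarith, ?_, h0⟩
    nlinarith
  · simp [frU, frW] at *
    refine ⟨?_, h3, h0⟩
    nlinarith
  · simp [frU, frW] at *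
    refine ⟨?_, h0, h3⟩
    nlinarith

theorem h170_sgn (A B C : ℝ) (hA : A ≠ 0) (hB : B ≠ 0) (hC : C ≠ 0) :
    (0 < A ∧ 0 < B ∧ 0 < C) ∨ (A < 0 ∧ B < 0 ∧ C < 0) ∨ (B * C < 0 ∧ A * C < 0) ∨
      (B * C < 0 ∧ A * B < 0) ∨ (A * C < 0 ∧ A * B < 0) := by
  rcases lt_or_gt_of_ne hA with a | a <;> rcases lt_or_gt_of_ne hB with b | b <;>
    rcases lt_or_gt_of_ne hC with c | c
  · exact Or.inr (Or.inl ⟨a, b, c⟩)
  · exact Or.inr (Or.inr (Or.inl ⟨mul_neg_of_neg_of_pos b c, mul_neg_of_neg_of_pos a c⟩))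
  · exact Or.inr (Or.inr (Or.inr (Or.inl ⟨mul_neg_of_pos_of_neg b c, mul_neg_of_neg_of_pos a b⟩)))
  · exact Or.inr (Or.inr (Or.inr (Or.inr ⟨mul_neg_of_neg_of_pos a c, mul_neg_of_neg_of_pos a b⟩)))
  · exact Or.inr (Or.inr (Or.inr (Or.inr ⟨mul_neg_of_pos_of_neg a c, mul_neg_of_pos_of_neg a b⟩)))
  · exact Or.inr (Or.inr (Or.inr (Or.inl ⟨mul_neg_of_neg_of_pos b c, mul_neg_of_pos_of_neg a b⟩)))
  · exact Or.inr (Or.inr (Or.inl ⟨mul_neg_of_pos_of_neg b c, mul_neg_of_pos_of_neg a c⟩))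
  · exact Or.inl ⟨a, b, c⟩

theorem h170_two (w : Fin 3 × Fin 5 → ℝ → ℝ) (hw : Good w) (l : ℝ × ℝ) (pr : Fin 3 → ℝ)
    (hp0 : pr 0 = (l.1 - l.2) * (-1 - l.2)) (hp1 : pr 1 = (-l.2) * (-1 - l.2))
    (hp2 : pr 2 = (-l.2) * (l.1 - l.2)) (e1 e2 : Fin 3) (hne : e1 ≠ e2)
    (h1 : pr e1 < 0) (h2 : pr e2 < 0) :
    ∃ G : Finset (ℝ × ℝ), G.card = 10 ∧ ∀ X ∈ G, (∃ a, X ∈ arc w a) ∧ inc X l := by
  classical
  have hex : ∀ a : Fin 3 × Fin 5, a ∈ (({e1, e2} : Finset (Fin 3)) ×ˢ (Finset.univ : Finset (Fin 5))) →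
      ∃ X, X ∈ arc w a ∧ inc X l := by
    intro a ha
    rw [Finset.mem_product] at ha
    have h3 := ha.1
    rw [Finset.mem_insert, Finset.mem_singleton] at h3
    have h4 : pr a.1 < 0 := by
      rcases h3 with h3 | h3 <;> rw [h3] <;> assumption
    exact h170_edge w hw l pr hp0 hp1 hp2 a.1 h4 a.2
  choose! X hX1 hX2 using hex
  refine ⟨(({e1, e2} : Finset (Fin 3)) ×ˢ (Finset.univ : Finset (Fin 5))).image X, ?_, ?_⟩
  · rw [Finset.card_image_of_injOn]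
    · rw [Finset.card_product, Finset.card_pair hne]
      simp
    · intro a ha b hb hab
      refine arc_disjoint w hw a b (X a) (hX1 a ha) ?_
      rw [hab]
      exact hX1 b hb
  · intro Y hY
    obtain ⟨a, ha, rfl⟩ := Finset.mem_image.1 hY
    exact ⟨⟨a, hX1 a ha⟩, hX2 a ha⟩

theorem arc_many (w : Fin 3 × Fin 5 → ℝ → ℝ) (hw : Good w) (l : ℝ × ℝ) (hl : VF l) :
    (∀ a, ∀ X ∈ arc w a, ¬ inc X l) ∨
    ∃ G : Finset (ℝ × ℝ), G.card = 10 ∧ ∀ X ∈ G, (∃ a, X ∈ arc w a) ∧ inc X l := by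
  obtain ⟨v1, v2, v3⟩ := hl
  have nA : -l.2 ≠ 0 := by
    intro h; apply v1; simp only [inc]; linarith
  have nB : l.1 - l.2 ≠ 0 := by
    intro h; apply v2; simp only [inc]; linarith
  have nC : -1 - l.2 ≠ 0 := by
    intro h; apply v3; simp only [inc]; linarith
  let pr : Fin 3 → ℝ := ![(l.1 - l.2) * (-1 - l.2), (-l.2) * (-1 - l.2), (-l.2) * (l.1 - l.2)]
  have hp0 : pr 0 = (l.1 - l.2) * (-1 - l.2) := rfl
  have hp1 : pr 1 = (-l.2) * (-1 - l.2) := rfl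
  have hp2 : pr 2 = (-l.2) * (l.1 - l.2) := rfl
  rcases h170_sgn _ _ _ nA nB nC with ⟨a, b, c⟩ | ⟨a, b, c⟩ | ⟨h1, h2⟩ | ⟨h1, h2⟩ | ⟨h1, h2⟩
  · left
    intro e X hX hinc
    obtain ⟨x1, x2, x3⟩ := h170_bary w hw e X hX
    simp only [inc] at hinc
    have : 0 < (1 - X.1 - X.2) * (-l.2) + X.1 * (l.1 - l.2) + X.2 * (-1 - l.2) := by positivity
    nlinarith
  · left
    intro e X hX hinc
    obtain ⟨x1, x2, x3⟩ := h170_bary w hw e X hX
    simp only [inc] at hinc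
    have h1 := mul_neg_of_pos_of_neg x1 a
    have h2 := mul_neg_of_pos_of_neg x2 b
    have h3 := mul_neg_of_pos_of_neg x3 c
    nlinarith
  · exact Or.inr (h170_two w hw l pr hp0 hp1 hp2 0 1 (by decide) h1 h2)
  · exact Or.inr (h170_two w hw l pr hp0 hp1 hp2 0 2 (by decide) h1 h2)
  · exact Or.inr (h170_two w hw l pr hp0 hp1 hp2 1 2 (by decide) h1 h2)

end Pool.Agent.Helper149.FD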