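import Pool.Agent.Helper149.FDDefs
set_option autoImplicit false

namespace Pool.Agent.Helper149.FD
open Set



/-- the parametrised arc -/
noncomputable def par (w : Fin 3 × Fin 5 → ℝ → ℝ) (a : Fin 3 × Fin 5) (u : ℝ) :
    EuclideanSpace ℝ (Fin 2) :=
  !₂[if a.1 = 0 then 1 - u - w a u else if a.1 = 1 then w a u else u,
    if a.1 = 2 then w a u else u]

theorem dist_le_add (p q : EuclideanSpace ℝ (Fin 2)) :
    dist p q ≤ |p 0 - q 0| + |p 1 - q 1| := by
  rw [EuclideanSpace.dist_eq, Fin.sum_univ_two, Real.dist_eq, Real.dist_eq]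
  apply Real.sqrt_le_iff.2
  have h1 := abs_nonneg (p 0 - q 0)
  have h2 := abs_nonneg (p 1 - q 1)
  constructor
  · positivity
  · nlinarith

theorem par_lip (w : Fin 3 × Fin 5 → ℝ → ℝ) (a : Fin 3 × Fin 5) {L : NNReal}
    (hL : LipschitzOnWith L (w a) (Set.Icc 0 1)) :
    LipschitzOnWith (2 * (1 + L)) (par w a) (Set.Icc 0 1) := by
  refine LipschitzOnWith.of_dist_le_mul fun x hx y hy => ?_
  have h1 := hL.dist_le_mul x hx y hy
  rw [Real.dist_eq, Real.dist_eq] at h1
  refine (dist_le_add _ _).trans ?_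
  rw [Real.dist_eq]
  have hL0 : (0 : ℝ) ≤ L := L.2
  have h0 := abs_nonneg (x - y)
  have h2 : |(par w a x) 0 - (par w a y) 0| ≤ (1 + L) * |x - y| := by
    change |(if a.1 = 0 then 1 - x - w a x else if a.1 = 1 then w a x else x) -
      (if a.1 = 0 then 1 - y - w a y else if a.1 = 1 then w a y else y)| ≤ _
    split_ifs
    · have h3 : (1 - x - w a x) - (1 - y - w a y) = -((x - y) + (w a x - w a y)) := by ring
      rw [h3, abs_neg]
      refine (abs_add_le _ _).trans ?_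
      linarith
    · nlinarith
    · nlinarith
  have h3 : |(par w a x) 1 - (par w a y) 1| ≤ (1 + L) * |x - y| := by
    change |(if a.1 = 2 then w a x else x) - (if a.1 = 2 then w a y else y)| ≤ _
    split_ifs
    · nlinarith
    · nlinarith
  push_cast
  linarith

theorem par_inj (w : Fin 3 × Fin 5 → ℝ → ℝ) (a : Fin 3 × Fin 5) :
    Set.InjOn (par w a) (Set.Icc 0 1) := by
  intro x _ y _ h
  have h0 : (if a.1 = 0 then 1 - x - w a x else if a.1 = 1 then w a x else x) =
      (if a.1 = 0 then 1 - y - w a y else if a.1 = 1 then w a y else y) :=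
    congrArg (fun p : EuclideanSpace ℝ (Fin 2) => p 0) h
  have h1 : (if a.1 = 2 then w a x else x) = (if a.1 = 2 then w a y else y) :=
    congrArg (fun p : EuclideanSpace ℝ (Fin 2) => p 1) h
  by_cases h2 : a.1 = 2
  · rw [h2] at h0
    simpa using h0
  · simpa [h2] using h1

theorem evar_le {f : ℝ → EuclideanSpace ℝ (Fin 2)} {L : NNReal}
    (hL : LipschitzOnWith L f (Set.Icc 0 1)) : eVariationOn f (Set.Icc 0 1) ≤ L := by
  have h1 := hL.comp_eVariationOn_le (g := fun x : ℝ => x) (s := Set.Icc 0 1)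
    (fun x hx => hx)
  have h2 : eVariationOn (fun x : ℝ => x) (Set.Icc (0 : ℝ) 1) ≤ 1 := by
    have h3 := (monotone_id (α := ℝ)).monotoneOn (Set.Icc (0 : ℝ) 1) |>.eVariationOn_eq
      (Set.left_mem_Icc.2 zero_le_one) (Set.right_mem_Icc.2 zero_le_one)
    rw [Set.inter_self] at h3
    refine h3.le.trans ?_
    simp
  have h4 : (L : ENNReal) * eVariationOn (fun x : ℝ => x) (Set.Icc (0 : ℝ) 1) ≤ L * 1 :=
    mul_le_mul_right h2 _
  rw [mul_one] at h4
  exact h1.trans h4

theorem rect_cover (w : Fin 3 × Fin 5 → ℝ → ℝ)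
    (hL : ∀ a, ∃ L : NNReal, LipschitzOnWith L (w a) (Set.Icc 0 1))
    (C : Set (EuclideanSpace ℝ (Fin 2))) (hC : ∀ x ∈ C, ∃ a, (x.ofLp 0, x.ofLp 1) ∈ arc w a) :
    ∃ f : ℕ → ℝ → EuclideanSpace ℝ (Fin 2),
        (∀ i, ContinuousOn (f i) (Set.Icc 0 1) ∧ Set.InjOn (f i) (Set.Icc 0 1)) ∧
        (∑' i, eVariationOn (f i) (Set.Icc 0 1)) ≠ ⊤ ∧
        C ⊆ ⋃ i, f i '' Set.Icc 0 1 := by
  choose L hL using hL
  let e : Fin 3 × Fin 5 ≃ Fin 15 := finProdFinEquiv
  let f : ℕ → ℝ → EuclideanSpace ℝ (Fin 2) := fun i =>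
    if h : i < 15 then par w (e.symm ⟨i, h⟩) else fun u => !₂[u * (1 / 2) ^ i, 0]
  let M : ℕ → NNReal := fun i =>
    if h : i < 15 then 2 * (1 + L (e.symm ⟨i, h⟩)) else (1 / 2) ^ i
  have hf1 : ∀ i (h : i < 15), f i = par w (e.symm ⟨i, h⟩) := fun i h => dif_pos h
  have hf2 : ∀ i, ¬ i < 15 → f i = fun u => !₂[u * (1 / 2) ^ i, 0] := fun i h => dif_neg h
  have hM1 : ∀ i (h : i < 15), M i = 2 * (1 + L (e.symm ⟨i, h⟩)) := fun i h => dif_pos h
  have hM2 : ∀ i, ¬ i < 15 → M i = (1 / 2) ^ i := fun i h => dif_neg h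
  clear_value f M
  have hlip : ∀ i, LipschitzOnWith (M i) (f i) (Set.Icc 0 1) := by
    intro i
    by_cases h : i < 15
    · rw [hf1 i h, hM1 i h]
      exact par_lip w _ (hL _)
    · rw [hf2 i h, hM2 i h]
      refine LipschitzOnWith.of_dist_le_mul fun x _ y _ => ?_
      refine (dist_le_add _ _).trans ?_
      change |x * (1 / 2) ^ i - y * (1 / 2) ^ i| + |(0 : ℝ) - 0| ≤ _
      rw [sub_self, abs_zero, add_zero, ← sub_mul, abs_mul, Real.dist_eq,
        abs_of_pos (show (0 : ℝ) < (1 / 2) ^ i by positivity), mul_comm]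
      push_cast
      exact le_rfl
  refine ⟨f, fun i => ⟨(hlip i).continuousOn, ?_⟩, ?_, ?_⟩
  · by_cases h : i < 15
    · rw [hf1 i h]
      exact par_inj w _
    · rw [hf2 i h]
      intro x _ y _ hxy
      have h1 : x * (1 / 2) ^ i = y * (1 / 2) ^ i :=
        congrArg (fun p : EuclideanSpace ℝ (Fin 2) => p 0) hxy
      exact mul_right_cancel₀ (show ((1 : ℝ) / 2) ^ i ≠ 0 by positivity) h1
  · have hsum : Summable M := by
      rw [← NNReal.summable_nat_add_iff 15]
      have h1 : (fun i => M (i + 15)) = fun i => (1 / 2) ^ i * (1 / 2) ^ 15 := by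
        funext i
        rw [hM2 (i + 15) (by omega), pow_add]
      rw [h1]
      exact (NNReal.summable_geometric (by
        rw [div_lt_one (by norm_num)]; norm_num)).mul_right _
    have h2 : (∑' i, (M i : ENNReal)) ≠ ⊤ := ENNReal.tsum_coe_ne_top_iff_summable.2 hsum
    exact ne_top_of_le_ne_top h2 (ENNReal.tsum_le_tsum fun i => evar_le (hlip i))
  · intro x hx
    obtain ⟨a, h0, h1, hw⟩ := hC x hx
    refine Set.mem_iUnion.2 ⟨(e a : ℕ), frU a.1 (x.ofLp 0, x.ofLp 1), ⟨h0.le, h1.le⟩, ?_⟩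
    rw [hf1 _ (e a).2]
    have h2 : e.symm ⟨(e a : ℕ), (e a).2⟩ = a := by simp
    rw [h2]
    have key : ∀ j : Fin 2, (par w a (frU a.1 (x.ofLp 0, x.ofLp 1))).ofLp j = x.ofLp j := by
      have c0 : (par w a (frU a.1 (x.ofLp 0, x.ofLp 1))).ofLp 0 = x.ofLp 0 := by
        change (if a.1 = 0 then 1 - frU a.1 (x.ofLp 0, x.ofLp 1) -
          w a (frU a.1 (x.ofLp 0, x.ofLp 1)) else if a.1 = 1 then
          w a (frU a.1 (x.ofLp 0, x.ofLp 1)) else frU a.1 (x.ofLp 0, x.ofLp 1)) = x.ofLp 0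
        rw [← hw]
        unfold frU frW
        by_cases g0 : a.1 = 0
        · simp [g0]
        · by_cases g1 : a.1 = 1
          · simp [g1]
          · have g2 : a.1 = 2 := by omega
            simp [g2]
      have c1 : (par w a (frU a.1 (x.ofLp 0, x.ofLp 1))).ofLp 1 = x.ofLp 1 := by
        change (if a.1 = 2 then w a (frU a.1 (x.ofLp 0, x.ofLp 1)) else
          frU a.1 (x.ofLp 0, x.ofLp 1)) = x.ofLp 1
        rw [← hw]
        unfold frU frW
        by_cases g2 : a.1 = 2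
        · simp [g2]
        · simp [g2]
      intro j
      fin_cases j
      · exact c0
      · exact c1
    exact PiLp.ext key

end Pool.Agent.Helper149.FD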