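import Pool.Agent.Helper149.FDDefs
set_option autoImplicit false

namespace Pool.Agent.Helper149.FD
open Set

theorem arc_pos (w : Fin 3 × Fin 5 → ℝ → ℝ) (S : Set (EuclideanSpace ℝ (Fin 2)))
    (hS : ∀ u ∈ Set.Ioo (0:ℝ) 1, (!₂[u, w (2, 0) u] : EuclideanSpace ℝ (Fin 2)) ∈ S) :
    MeasureTheory.Measure.hausdorffMeasure 1 S ≠ 0 := by
  intro h0
  have hL : LipschitzWith 1 (fun x : EuclideanSpace ℝ (Fin 2) => x.ofLp 0) := by
    apply LipschitzWith.of_dist_le_mul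
    intro x y
    have h := PiLp.norm_apply_le (x - y) (0 : Fin 2)
    rw [dist_eq_norm, dist_eq_norm]
    simpa using h
  have h1 : MeasureTheory.Measure.hausdorffMeasure 1
      ((fun x : EuclideanSpace ℝ (Fin 2) => x.ofLp 0) '' S) ≤
      ((1 : NNReal) : ENNReal) ^ (1:ℝ) * MeasureTheory.Measure.hausdorffMeasure 1 S :=
    hL.hausdorffMeasure_image_le zero_le_one S
  rw [h0, mul_zero] at h1
  have h2 : Set.Ioo (0:ℝ) 1 ⊆ (fun x : EuclideanSpace ℝ (Fin 2) => x.ofLp 0) '' S := by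
    intro u hu
    exact ⟨_, hS u hu, by simp⟩
  have h3 : MeasureTheory.Measure.hausdorffMeasure 1 (Set.Ioo (0:ℝ) 1) ≤ 0 :=
    (MeasureTheory.measure_mono h2).trans h1
  rw [MeasureTheory.hausdorffMeasure_real, Real.volume_Ioo] at h3
  simp at h3

end Pool.Agent.Helper149.FD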