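import Pool.Agent.Helper149.FDJ1a
import Pool.Agent.Helper149.FDJ1b
import Pool.Agent.Helper149.FDJ2
import Pool.Agent.Helper149.FDJ3a
import Pool.Agent.Helper149.FDJ3b
import Pool.Agent.Helper149.FDJ5
import Pool.Agent.Helper149.FDJ6a
import Pool.Agent.Helper149.FDJ6b
import Pool.Agent.Helper149.FDJ6c
import Pool.Agent.Helper149.FDJ6d
import Pool.Agent.Helper149.FDJ7a
import Pool.Agent.Helper149.FDJ7b
import Pool.Agent.Helper149.FDJ8a
import Pool.Agent.Helper149.FDJ8b
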