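import Pool.Agent.Helper149.FDGlue4
set_option autoImplicit false
namespace Pool.Agent.Helper149.FD
open MeasureTheory Set Filter

theorem main2 : ∃ C D : Set (EuclideanSpace ℝ (Fin 2)), Disjoint C D ∧
      (∃ f : ℕ → ℝ → EuclideanSpace ℝ (Fin 2),
        (∀ i, ContinuousOn (f i) (Set.Icc 0 1) ∧ Set.InjOn (f i) (Set.Icc 0 1)) ∧
        (∑' i, eVariationOn (f i) (Set.Icc 0 1)) ≠ ⊤ ∧
        C ∪ D ⊆ ⋃ i, f i '' Set.Icc 0 1) ∧
      (∀ᵐ p : ℝ × ℝ ∂MeasureTheory.volume,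
        (C ∩ {x : EuclideanSpace ℝ (Fin 2) |
            x.ofLp 0 * Real.cos p.1 + x.ofLp 1 * Real.sin p.1 = p.2}).encard =
        (D ∩ {x : EuclideanSpace ℝ (Fin 2) |
            x.ofLp 0 * Real.cos p.1 + x.ofLp 1 * Real.sin p.1 = p.2}).encard ∧
        (C ∩ {x : EuclideanSpace ℝ (Fin 2) |
            x.ofLp 0 * Real.cos p.1 + x.ofLp 1 * Real.sin p.1 = p.2}).Finite) ∧
      0 < MeasureTheory.Measure.hausdorffMeasure 1 (C ∪ D) := by
  classical
  obtain ⟨wt, hpos, hsum, hle⟩ := exists_wt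
  obtain ⟨c, hc⟩ := exists_generic wt hpos hsum
  have hw : Good (wz wt c) := good_wz wt hpos hsum hle c
  set w := wz wt c with hwdef
  let Λ : Type := {l : ℝ × ℝ // VF l ∧ ¬ Deg w l}
  choose GG hGG1 hGG2 using fun (l : Λ) (a : Arcs) => arc_two w hw a l.1 l.2.1
  let tr : Λ → Finset (ℝ × ℝ) := fun l =>
    (Finset.univ.biUnion (fun a => GG l a)).filter (fun X => X ∈ EE w ∧ inc X l.1)
  have mem_tr : ∀ l X, X ∈ tr l ↔ X ∈ EE w ∧ inc X l.1 := by
    intro l X
    simp only [tr, Finset.mem_filter, Finset.mem_biUnion, Finset.mem_univ, true_and]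
    constructor
    · exact fun h => h.2
    · rintro ⟨⟨a, ha⟩, h2⟩
      exact ⟨⟨a, hGG2 l a X ha h2⟩, ⟨a, ha⟩, h2⟩
  obtain ⟨f, hf1, hf2⟩ := coloring (X := ℝ × ℝ) (Λ := Λ) (arc w (2, 0)) tr
    (fun l => ⟨GG l (2, 0), hGG1 l (2, 0), fun x hx hxa => hGG2 l (2, 0) x hxa ((mem_tr l x).mp hx).2⟩)
    (by
      intro l
      rcases arc_many w hw l.1 l.2.1 with h | ⟨G, hG, h⟩
      · left
        rw [Finset.eq_empty_iff_forall_notMem]
        intro X hX
        obtain ⟨⟨a, ha⟩, h2⟩ := (mem_tr l X).mp hX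
        exact h a X ha h2
      · right
        rw [← hG]
        exact Finset.card_le_card (fun X hX => (mem_tr l X).mpr (h X hX)))
    (by
      intro F hF
      by_contra hcon
      push Not at hcon
      obtain ⟨l0, hl0⟩ := hF
      apply l0.2.2
      refine ⟨F.image (fun l => l.1), Finset.mem_image_of_mem _ hl0, ?_⟩
      intro l' hl'
      obtain ⟨l, hl, rfl⟩ := Finset.mem_image.mp hl'
      refine ⟨(tr l).filter (fun x => ∃ l' ∈ F, l' ≠ l ∧ x ∈ tr l'), ?_, ?_⟩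
      · by_contra hlt
        obtain ⟨x, hx, hx2, hx3⟩ := hcon l hl ((tr l).filter (fun x => ∃ l' ∈ F, l' ≠ l ∧ x ∈ tr l')) (by omega)
        exact hx3 (Finset.mem_filter.mpr ⟨hx, hx2⟩)
      · intro x hx
        obtain ⟨hx1, l'', hl'', hne, hx2⟩ := Finset.mem_filter.mp hx
        refine ⟨((mem_tr l x).mp hx1).1, ((mem_tr l x).mp hx1).2, l''.1, Finset.mem_image_of_mem _ hl'', ?_,
          ((mem_tr l'' x).mp hx2).2⟩
        exact fun h => hne (Subtype.ext h))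
  have hgood : ∀ᵐ p : ℝ × ℝ, Real.sin p.1 ≠ 0 ∧
      ∃ l : Λ, l.1 = (- Real.cos p.1 / Real.sin p.1, - p.2 / Real.sin p.1) := by
    have hall : ∀ᵐ p : ℝ × ℝ, ∀ T : Tmp, (c, p) ∉ BadSet wt T := by
      rw [ae_all_iff]
      intro T
      exact measure_eq_zero_iff_ae_notMem.mp (hc T)
    filter_upwards [ae_sin, ae_VF, hall] with p h1 h2 h3
    refine ⟨h1, ⟨_, h2, ?_⟩, rfl⟩
    intro hdeg
    obtain ⟨T, hT⟩ := deg_bad wt c p h1 hdeg
    exact h3 T hT
  let pr : EuclideanSpace ℝ (Fin 2) → ℝ × ℝ := fun x => (x.ofLp 0, x.ofLp 1)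
  have hpr : Function.Injective pr := by
    intro x y hxy
    have h1 := congrArg Prod.fst hxy
    have h2 := congrArg Prod.snd hxy
    simp only [pr] at h1 h2
    ext i
    fin_cases i
    · exact h1
    · exact h2
  let Cs : SignType → Set (EuclideanSpace ℝ (Fin 2)) := fun s => {x | pr x ∈ EE w ∧ f (pr x) = s}
  have hrect : ∀ s, ∃ f : ℕ → ℝ → EuclideanSpace ℝ (Fin 2),
        (∀ i, ContinuousOn (f i) (Set.Icc 0 1) ∧ Set.InjOn (f i) (Set.Icc 0 1)) ∧
        (∑' i, eVariationOn (f i) (Set.Icc 0 1)) ≠ ⊤ ∧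
        Cs s ⊆ ⋃ i, f i '' Set.Icc 0 1 := by
    intro s
    refine rect_cover w (fun a => om_lipschitz wt hpos hsum (Kc a.2) (cz c a)) (Cs s) ?_
    intro x hx
    exact hx.1
  have hcount : ∀ p : ℝ × ℝ, Real.sin p.1 ≠ 0 → ∀ l : Λ,
      l.1 = (- Real.cos p.1 / Real.sin p.1, - p.2 / Real.sin p.1) → ∀ s : SignType,
      (Cs s ∩ {x : EuclideanSpace ℝ (Fin 2) |
            x.ofLp 0 * Real.cos p.1 + x.ofLp 1 * Real.sin p.1 = p.2}).encard =
        (((tr l).filter (fun X => f X = s)).card : ℕ∞) := by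
    intro p hs l hl s
    rw [← hpr.encard_image, ← Set.encard_coe_eq_coe_finsetCard]
    congr 1
    ext X
    simp only [Set.mem_image, Set.mem_inter_iff, Finset.coe_filter, Set.mem_setOf_eq, mem_tr]
    constructor
    · rintro ⟨x, ⟨⟨hx1, hx2⟩, hx3⟩, rfl⟩
      refine ⟨⟨hx1, ?_⟩, hx2⟩
      rw [hl, inc_iff p _ hs]
      exact hx3
    · rintro ⟨⟨h1, h2⟩, h3⟩
      rw [hl, inc_iff p _ hs] at h2
      refine ⟨!₂[X.1, X.2], ⟨⟨?_, ?_⟩, ?_⟩, ?_⟩
      · simpa [pr] using h1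
      · simpa [pr] using h3
      · simpa using h2
      · simp [pr]
  refine ⟨Cs 1, Cs (-1), ?_, ?_, ?_, ?_⟩
  · rw [Set.disjoint_left]
    intro x hx hx'
    have h1 := hx.2
    have h2 := hx'.2
    rw [h1] at h2
    exact absurd h2 (by decide)
  · refine rect_cover w (fun a => om_lipschitz wt hpos hsum (Kc a.2) (cz c a)) _ ?_
    rintro x (hx | hx)
    · exact hx.1
    · exact hx.1
  · filter_upwards [hgood] with p hp
    obtain ⟨hs, l, hl⟩ := hp
    have h := hf2 l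
    rw [sum_sign] at h
    have h' : ((tr l).filter (fun x => f x = 1)).card = ((tr l).filter (fun x => f x = -1)).card := by
      omega
    refine ⟨?_, ?_⟩
    · rw [hcount p hs l hl 1, hcount p hs l hl (-1), h']
    · rw [← Set.encard_ne_top_iff, hcount p hs l hl 1]
      exact ENat.coe_ne_top _
  · rw [pos_iff_ne_zero]
    refine arc_pos w _ ?_
    intro u hu
    have hmem : ((u, w (2, 0) u) : ℝ × ℝ) ∈ arc w (2, 0) := by
      refine ⟨?_, ?_, ?_⟩
      · simpa [frU] using hu.1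
      · simpa [frU] using hu.2
      · simp [frU, frW]
    have hprm : pr !₂[u, w (2, 0) u] = (u, w (2, 0) u) := by simp [pr]
    have hne := hf1 _ hmem
    rcases hfx : f (u, w (2, 0) u) with _ | _ | _
    · exact absurd hfx hne
    · right
      refine ⟨?_, ?_⟩
      · rw [hprm]; exact ⟨_, hmem⟩
      · rw [hprm]; exact hfx
    · left
      refine ⟨?_, ?_⟩
      · rw [hprm]; exact ⟨_, hmem⟩
      · rw [hprm]; exact hfx

end Pool.Agent.Helper149.FD
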