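import Mathlib

set_option autoImplicit false

open MeasureTheory Filter Topology Set
open scoped ENNReal NNReal ContDiff

namespace Pool.Agent.Helper149.Fatou

abbrev E3 := EuclideanSpace ℝ (Fin 3)

/-- Fatou's lemma for nonnegative real functions with a uniform bound. -/
theorem fatou_real {α : Type*} [MeasurableSpace α] {μ : Measure α}
    (G : ℕ → α → ℝ) (L : α → ℝ) (B : ℝ)
    (h0 : ∀ n x, 0 ≤ G n x) (hint : ∀ n, Integrable (G n) μ) (hB : ∀ n, ∫ x, G n x ∂μ ≤ B)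
    (hlim : ∀ᵐ x ∂μ, Tendsto (fun n => G n x) atTop (𝓝 (L x))) :
    Integrable L μ ∧ ∫ x, L x ∂μ ≤ B := by
  have hL0 : 0 ≤ᵐ[μ] L := by
    filter_upwards [hlim] with x hx
    exact ge_of_tendsto' hx fun n => h0 n x
  have hLm : AEStronglyMeasurable L μ :=
    aestronglyMeasurable_of_tendsto_ae atTop (fun n => (hint n).aestronglyMeasurable) hlim
  have hB0 : 0 ≤ B := le_trans (integral_nonneg (h0 0)) (hB 0)
  have hn : ∀ n, ∫⁻ x, ENNReal.ofReal (G n x) ∂μ ≤ ENNReal.ofReal B := by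
    intro n
    rw [← ofReal_integral_eq_lintegral_ofReal (hint n) (ae_of_all _ (h0 n))]
    exact ENNReal.ofReal_le_ofReal (hB n)
  have hfat : ∫⁻ x, ENNReal.ofReal (L x) ∂μ ≤ ENNReal.ofReal B := by
    calc ∫⁻ x, ENNReal.ofReal (L x) ∂μ
        = ∫⁻ x, liminf (fun n => ENNReal.ofReal (G n x)) atTop ∂μ := by
          refine lintegral_congr_ae ?_
          filter_upwards [hlim] with x hx
          exact ((ENNReal.tendsto_ofReal hx).liminf_eq).symm
      _ ≤ liminf (fun n => ∫⁻ x, ENNReal.ofReal (G n x) ∂μ) atTop :=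
          lintegral_liminf_le' fun n => (hint n).aemeasurable.ennreal_ofReal
      _ ≤ ENNReal.ofReal B := by
          refine liminf_le_of_frequently_le' ?_
          exact (Frequently.of_forall hn)
  have hLi : Integrable L μ := by
    refine ⟨hLm, ?_⟩
    rw [hasFiniteIntegral_iff_ofReal hL0]
    exact lt_of_le_of_lt hfat ENNReal.ofReal_lt_top
  refine ⟨hLi, ?_⟩
  rw [← ofReal_integral_eq_lintegral_ofReal hLi hL0] at hfat
  exact (ENNReal.ofReal_le_ofReal_iff hB0).mp hfat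

/-- Comparison of integrals through the lower Lebesgue integral. -/
theorem integrable_of_lintegral_le {α : Type*} [MeasurableSpace α] {μ : Measure α}
    {a b : α → ℝ} (ha : AEStronglyMeasurable a μ) (ha0 : ∀ x, 0 ≤ a x) (hb : Integrable b μ)
    (hb0 : ∀ x, 0 ≤ b x)
    (h : ∫⁻ x, ENNReal.ofReal (a x) ∂μ ≤ ∫⁻ x, ENNReal.ofReal (b x) ∂μ) :
    Integrable a μ ∧ ∫ x, a x ∂μ ≤ ∫ x, b x ∂μ := by
  rw [← ofReal_integral_eq_lintegral_ofReal hb (ae_of_all _ hb0)] at h
  have hai : Integrable a μ := by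
    refine ⟨ha, ?_⟩
    rw [hasFiniteIntegral_iff_ofReal (ae_of_all _ ha0)]
    exact lt_of_le_of_lt h ENNReal.ofReal_lt_top
  refine ⟨hai, ?_⟩
  rw [← ofReal_integral_eq_lintegral_ofReal hai (ae_of_all _ ha0)] at h
  exact (ENNReal.ofReal_le_ofReal_iff (integral_nonneg hb0)).mp h

lemma enorm_rpow_eq (s : ℝ) (hs : 0 ≤ s) (q : ℝ) (hq : 0 ≤ q) :
    ‖s‖ₑ ^ (2 * q) = ENNReal.ofReal ((s ^ 2) ^ q) := by
  rw [Real.enorm_of_nonneg hs, ENNReal.ofReal_rpow_of_nonneg hs (by positivity),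
    Real.rpow_mul hs]
  norm_num

end Pool.Agent.Helper149.Fatou
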