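import Mathlib

set_option autoImplicit false

open MeasureTheory Filter Topology Set
open scoped ENNReal NNReal ContDiff

namespace Pool.Agent.Helper149.Hardy

abbrev E3 := EuclideanSpace ℝ (Fin 3)

lemma lineDeriv_field (a : E3) (δ : ℝ) (hδ : 0 < δ) (i : Fin 3) (x : E3) :
    HasLineDerivAt ℝ (fun x : E3 => (x i - a i) / √(‖x - a‖ ^ 2 + δ ^ 2))
      (1 / √(‖x - a‖ ^ 2 + δ ^ 2) - (x i - a i) ^ 2 / (√(‖x - a‖ ^ 2 + δ ^ 2)) ^ 3) x
      (EuclideanSpace.single i (1 : ℝ)) := by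
  set v : E3 := EuclideanSpace.single i (1 : ℝ) with hv
  have hpos : 0 < ‖x - a‖ ^ 2 + δ ^ 2 := by positivity
  set r := √(‖x - a‖ ^ 2 + δ ^ 2) with hr
  have hrpos : 0 < r := Real.sqrt_pos.mpr hpos
  have hnum : ∀ t : ℝ, (x + t • v) i - a i = (x i - a i) + t := by
    intro t
    simp [hv]; ring
  have hnorm : ∀ t : ℝ, ‖x + t • v - a‖ ^ 2 = ‖x - a‖ ^ 2 + 2 * t * (x i - a i) + t ^ 2 := by
    intro t
    have h1 : x + t • v - a = (x - a) + t • v := by abel
    rw [h1, norm_add_sq_real, norm_smul, inner_smul_right]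
    have h2 : inner ℝ (x - a) v = x i - a i := by
      rw [hv, EuclideanSpace.inner_single_right]; simp
    have h3 : ‖v‖ = 1 := by rw [hv]; simp
    rw [h2, h3, Real.norm_eq_abs, mul_one, sq_abs]
    ring
  show HasDerivAt (fun t : ℝ => ((x + t • v) i - a i) / √(‖x + t • v - a‖ ^ 2 + δ ^ 2)) _ 0
  simp only [hnum, hnorm]
  have h1 : HasDerivAt (fun t : ℝ => (x i - a i) + t) 1 0 := by
    simpa using (hasDerivAt_id (0:ℝ)).const_add (x i - a i)
  have h2 : HasDerivAt (fun t : ℝ => ‖x - a‖ ^ 2 + 2 * t * (x i - a i) + t ^ 2 + δ ^ 2)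
      (2 * (x i - a i)) 0 := by
    have h3 : HasDerivAt (fun t : ℝ => 2 * t * (x i - a i)) (2 * 1 * (x i - a i)) 0 :=
      ((hasDerivAt_id (0:ℝ)).const_mul 2).mul_const _
    have h4 : HasDerivAt (fun t : ℝ => t ^ 2) (2 * (0:ℝ) ^ 1) 0 := by
      simpa using hasDerivAt_pow 2 (0:ℝ)
    have h5 : HasDerivAt (fun t : ℝ => ‖x - a‖ ^ 2 + 2 * t * (x i - a i) + t ^ 2 + δ ^ 2)
        (2 * 1 * (x i - a i) + 2 * (0:ℝ) ^ 1) 0 :=
      ((h3.const_add (‖x - a‖ ^ 2)).add h4).add_const (δ ^ 2)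
    exact h5.congr_deriv (by ring)
  have h0 : ‖x - a‖ ^ 2 + 2 * (0:ℝ) * (x i - a i) + (0:ℝ) ^ 2 + δ ^ 2 = ‖x - a‖ ^ 2 + δ ^ 2 := by
    ring
  have h3 := h2.sqrt (by rw [h0]; exact hpos.ne')
  rw [h0] at h3
  have h4 := h1.div h3 (by rw [h0]; exact hrpos.ne')
  rw [h0] at h4
  refine h4.congr_deriv ?_
  rw [← hr]
  field_simp
  ring

lemma integrable_of_bdd_mul {f g : E3 → ℝ} (hf : Integrable f) (hg : Continuous g) (C : ℝ)
    (hC : ∀ x, |g x| ≤ C) : Integrable (fun x => f x * g x) := by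
  have := hf.bdd_mul (g := f) (f := g) (c := C) hg.aestronglyMeasurable
    (ae_of_all _ fun x => by simpa using hC x)
  simpa [mul_comm] using this

lemma integrable_div_sqrt {G : E3 → ℝ} (hG : Integrable G) (a : E3) (δ : ℝ) (hδ : 0 < δ) :
    Integrable (fun x => G x / √(‖x - a‖ ^ 2 + δ ^ 2)) := by
  have hrpos : ∀ x : E3, 0 < √(‖x - a‖ ^ 2 + δ ^ 2) := fun x => Real.sqrt_pos.mpr (by positivity)
  have hrδ : ∀ x : E3, δ ≤ √(‖x - a‖ ^ 2 + δ ^ 2) := fun x => by
    apply Real.le_sqrt_of_sq_le; nlinarith [sq_nonneg ‖x - a‖]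
  have hrc : Continuous fun x : E3 => √(‖x - a‖ ^ 2 + δ ^ 2) := by
    apply Continuous.sqrt; fun_prop
  have hc : Continuous fun x : E3 => (1:ℝ) / √(‖x - a‖ ^ 2 + δ ^ 2) :=
    continuous_const.div hrc (fun x => (hrpos x).ne')
  have := integrable_of_bdd_mul (f := G) (g := fun x => (1:ℝ) / √(‖x - a‖ ^ 2 + δ ^ 2)) hG hc
    (1 / δ) (fun x => by
      show |(1:ℝ) / √(‖x - a‖ ^ 2 + δ ^ 2)| ≤ 1 / δ
      rw [abs_of_pos (one_div_pos.mpr (hrpos x))]
      exact one_div_le_one_div_of_le hδ (hrδ x))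
  refine this.congr (ae_of_all _ fun x => ?_)
  show G x * (1 / √(‖x - a‖ ^ 2 + δ ^ 2)) = _
  ring

/-- Hardy inequality in `L¹` (regularised): `∫ 2F/√(|x-a|²+δ²) ≤ ∫ |∇F|`. -/
theorem hardyL1 (F : E3 → ℝ) (hF : ContDiff ℝ 1 F) (hF0 : ∀ x, 0 ≤ F x) (hint : Integrable F)
    (hint' : Integrable (fun x => ‖fderiv ℝ F x‖)) (a : E3) (δ : ℝ) (hδ : 0 < δ) :
    ∫ x, 2 * F x / √(‖x - a‖ ^ 2 + δ ^ 2) ≤ ∫ x, ‖fderiv ℝ F x‖ := by
  let r : E3 → ℝ := fun x => √(‖x - a‖ ^ 2 + δ ^ 2)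
  have hr : ∀ x, r x = √(‖x - a‖ ^ 2 + δ ^ 2) := fun x => rfl
  have hpos : ∀ x, 0 < ‖x - a‖ ^ 2 + δ ^ 2 := fun x => by positivity
  have hrpos : ∀ x, 0 < r x := fun x => Real.sqrt_pos.mpr (hpos x)
  have hrsq : ∀ x, r x ^ 2 = ‖x - a‖ ^ 2 + δ ^ 2 := fun x => Real.sq_sqrt (hpos x).le
  have hrδ : ∀ x, δ ≤ r x := fun x => by
    apply Real.le_sqrt_of_sq_le; nlinarith [sq_nonneg ‖x - a‖]
  have hrn : ∀ x, ‖x - a‖ ≤ r x := fun x => by
    apply Real.le_sqrt_of_sq_le; nlinarith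
  have hrcont : Continuous r := by
    apply Continuous.sqrt; fun_prop
  have hci : ∀ x (i : Fin 3), |x i - a i| ≤ ‖x - a‖ := by
    intro x i
    have := PiLp.norm_apply_le (x - a) i
    simpa using this
  let X : Fin 3 → E3 → ℝ := fun i x => (x i - a i) / r x
  let X' : Fin 3 → E3 → ℝ := fun i x => 1 / r x - (x i - a i) ^ 2 / (r x) ^ 3
  have hXc : ∀ i, Continuous (X i) := fun i =>
    Continuous.div (by fun_prop) hrcont (fun x => (hrpos x).ne')
  have hX'c : ∀ i, Continuous (X' i) := fun i =>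
    (continuous_const.div hrcont (fun x => (hrpos x).ne')).sub
      (Continuous.div (by fun_prop) (hrcont.pow 3) (fun x => (pow_pos (hrpos x) 3).ne'))
  have hXb : ∀ i x, |X i x| ≤ 1 := by
    intro i x
    rw [abs_div, abs_of_pos (hrpos x), div_le_one (hrpos x)]
    exact (hci x i).trans (hrn x)
  have hX'b : ∀ i x, |X' i x| ≤ 1 / δ := by
    intro i x
    have h1 : (x i - a i) ^ 2 ≤ r x ^ 2 := by
      rw [sq_le_sq, abs_of_pos (hrpos x)]
      exact (hci x i).trans (hrn x)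
    have h2 : X' i x = (r x ^ 2 - (x i - a i) ^ 2) / r x ^ 3 := by
      simp only [X']
      have := (hrpos x).ne'
      field_simp
    rw [h2, abs_of_nonneg (div_nonneg (by linarith) (pow_pos (hrpos x) 3).le)]
    have h3 : (r x ^ 2 - (x i - a i) ^ 2) / r x ^ 3 ≤ r x ^ 2 / r x ^ 3 := by
      apply div_le_div_of_nonneg_right _ (pow_pos (hrpos x) 3).le
      nlinarith [sq_nonneg (x i - a i)]
    have h4 : r x ^ 2 / r x ^ 3 = 1 / r x := by
      have := (hrpos x).ne'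
      field_simp
    rw [h4] at h3
    exact h3.trans (one_div_le_one_div_of_le hδ (hrδ x))
  have hFd : Differentiable ℝ F := hF.differentiable (by simp)
  have hFc : Continuous (fderiv ℝ F) := hF.continuous_fderiv (by simp)
  have hpart : ∀ i, Integrable (fun x => fderiv ℝ F x (EuclideanSpace.single i (1:ℝ))) := by
    intro i
    refine hint'.mono' (hFc.clm_apply continuous_const).aestronglyMeasurable
      (ae_of_all _ fun x => ?_)
    have := (fderiv ℝ F x).le_opNorm (EuclideanSpace.single i (1:ℝ))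
    simpa using this
  have hIBP : ∀ i, ∫ x, F x * X' i x
      = - ∫ x, fderiv ℝ F x (EuclideanSpace.single i (1:ℝ)) * X i x := by
    intro i
    refine integral_bilinear_hasLineDerivAt_right_eq_neg_left_of_integrable
      (B := ContinuousLinearMap.mul ℝ ℝ) (μ := volume)
      (f' := fun x => fderiv ℝ F x (EuclideanSpace.single i (1:ℝ)))
      (v := EuclideanSpace.single i (1:ℝ)) ?_ ?_ ?_ ?_ ?_
    · exact integrable_of_bdd_mul (hpart i) (hXc i) 1 (hXb i)
    · exact integrable_of_bdd_mul hint (hX'c i) (1 / δ) (hX'b i)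
    · exact integrable_of_bdd_mul hint (hXc i) 1 (hXb i)
    · intro x _
      exact (hFd x).hasFDerivAt.hasLineDerivAt _
    · intro x _
      exact lineDeriv_field a δ hδ i x
  have hsum : ∫ x, F x * (∑ i, X' i x)
      = - ∫ x, ∑ i, fderiv ℝ F x (EuclideanSpace.single i (1:ℝ)) * X i x := by
    simp only [Finset.mul_sum]
    rw [integral_finsetSum _ (fun i _ => integrable_of_bdd_mul hint (hX'c i) (1 / δ) (hX'b i)),
      integral_finsetSum _ (fun i _ => integrable_of_bdd_mul (hpart i) (hXc i) 1 (hXb i)),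
      ← Finset.sum_neg_distrib]
    exact Finset.sum_congr rfl fun i _ => hIBP i
  have hsumX' : ∀ x, 2 / r x ≤ ∑ i, X' i x := by
    intro x
    have hn : ‖x - a‖ ^ 2 = ∑ i, (x i - a i) ^ 2 := by
      rw [EuclideanSpace.norm_sq_eq]
      simp
    have h1 : ∑ i, X' i x = 3 / r x - ‖x - a‖ ^ 2 / r x ^ 3 := by
      rw [hn, Finset.sum_div]
      simp only [X', Finset.sum_sub_distrib]
      simp; ring
    rw [h1]
    have h2 : ‖x - a‖ ^ 2 / r x ^ 3 ≤ r x ^ 2 / r x ^ 3 := by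
      apply div_le_div_of_nonneg_right _ (pow_pos (hrpos x) 3).le
      rw [hrsq]; nlinarith
    have h4 : r x ^ 2 / r x ^ 3 = 1 / r x := by
      have := (hrpos x).ne'
      field_simp
    rw [h4] at h2
    have h5 : 3 / r x = 2 / r x + 1 / r x := by ring
    linarith
  have hfield : ∀ x, ∑ i, fderiv ℝ F x (EuclideanSpace.single i (1:ℝ)) * X i x
      = fderiv ℝ F x ((r x)⁻¹ • (x - a)) := by
    intro x
    have h1 : (r x)⁻¹ • (x - a) = ∑ i, X i x • (EuclideanSpace.single i (1:ℝ) : E3) := by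
      ext j
      fin_cases j <;> simp [X, Fin.sum_univ_three] <;> ring
    rw [h1, map_sum]
    refine Finset.sum_congr rfl fun i _ => ?_
    rw [map_smul, smul_eq_mul, mul_comm]
  calc ∫ x, 2 * F x / √(‖x - a‖ ^ 2 + δ ^ 2) ≤ ∫ x, F x * (∑ i, X' i x) := by
        refine integral_mono_of_nonneg (ae_of_all _ fun x => ?_) ?_ (ae_of_all _ fun x => ?_)
        · exact div_nonneg (mul_nonneg (by norm_num) (hF0 x)) (hrpos x).le
        · simp only [Finset.mul_sum]
          exact integrable_finsetSum _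
            (fun i _ => integrable_of_bdd_mul hint (hX'c i) (1 / δ) (hX'b i))
        · have := mul_le_mul_of_nonneg_left (hsumX' x) (hF0 x)
          calc 2 * F x / √(‖x - a‖ ^ 2 + δ ^ 2) = F x * (2 / r x) := by rw [hr]; ring
            _ ≤ _ := this
    _ = - ∫ x, fderiv ℝ F x ((r x)⁻¹ • (x - a)) := by
        rw [hsum]; simp only [hfield]
    _ = ∫ x, - fderiv ℝ F x ((r x)⁻¹ • (x - a)) := by rw [integral_neg]
    _ ≤ ∫ x, ‖fderiv ℝ F x‖ := by
        refine integral_mono_ae ?_ hint' (ae_of_all _ fun x => ?_)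
        · have : Integrable (fun x => ∑ i, fderiv ℝ F x (EuclideanSpace.single i (1:ℝ)) * X i x) :=
            integrable_finsetSum _ (fun i _ => integrable_of_bdd_mul (hpart i) (hXc i) 1 (hXb i))
          simp only [hfield] at this
          exact this.neg
        · have h1 := (fderiv ℝ F x).le_opNorm ((r x)⁻¹ • (x - a))
          have h2 : ‖(r x)⁻¹ • (x - a)‖ ≤ 1 := by
            rw [norm_smul, norm_inv, Real.norm_of_nonneg (hrpos x).le, inv_mul_le_iff₀ (hrpos x),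
              mul_one]
            exact hrn x
          have h3 : ‖fderiv ℝ F x‖ * ‖(r x)⁻¹ • (x - a)‖ ≤ ‖fderiv ℝ F x‖ :=
            mul_le_of_le_one_right (norm_nonneg _) h2
          exact (neg_le_abs _).trans (h1.trans h3)

end Pool.Agent.Helper149.Hardy
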