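import Mathlib

set_option autoImplicit false

open MeasureTheory Filter Topology Set
open scoped ENNReal NNReal Convolution ContDiff

namespace Pool.Agent.Helper149.Mollify

abbrev E3 := EuclideanSpace ℝ (Fin 3)

/-- Jensen for averaging against a probability density, then Tonelli. -/
lemma lintegral_conv_rpow_le (k : E3 → ℝ≥0∞) (hk : Measurable k) (hk1 : ∫⁻ t, k t = 1)
    (h : E3 → ℝ≥0∞) (hh : Measurable h) (q : ℝ) (hq : 1 ≤ q) :
    ∫⁻ x, (∫⁻ t, k t * h (x - t)) ^ q ≤ ∫⁻ x, h x ^ q := by
  have hjens : ∀ x, (∫⁻ t, k t * h (x - t)) ^ q ≤ ∫⁻ t, k t * h (x - t) ^ q := by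
    intro x
    rcases eq_or_lt_of_le hq with rfl | hq1
    · simp
    have hx : Measurable (fun t => h (x - t)) := hh.comp (measurable_const.sub measurable_id)
    let ν : Measure E3 := (volume : Measure E3).withDensity k
    have hν : ν univ = 1 := by
      simp [ν, hk1]
    have hpq : q.HolderConjugate (Real.conjExponent q) := Real.HolderConjugate.conjExponent hq1
    have h1 := ENNReal.lintegral_mul_le_Lp_mul_Lq ν hpq (f := fun t => h (x - t)) (g := fun _ => 1)
      hx.aemeasurable aemeasurable_const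
    simp only [Pi.mul_apply, mul_one, ENNReal.one_rpow, lintegral_const, hν] at h1
    have e1 : ∫⁻ t, h (x - t) ∂ν = ∫⁻ t, k t * h (x - t) := by
      simpa using lintegral_withDensity_eq_lintegral_mul (volume : Measure E3) hk hx
    have e2 : ∫⁻ t, h (x - t) ^ q ∂ν = ∫⁻ t, k t * h (x - t) ^ q := by
      simpa using lintegral_withDensity_eq_lintegral_mul (volume : Measure E3) hk
        (hx.pow_const q)
    rw [e1, e2] at h1
    have h2 := ENNReal.rpow_le_rpow h1 (by linarith : (0:ℝ) ≤ q)
    rw [← ENNReal.rpow_mul, one_div_mul_cancel (by linarith), ENNReal.rpow_one] at h2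
    exact h2
  calc ∫⁻ x, (∫⁻ t, k t * h (x - t)) ^ q ≤ ∫⁻ x, ∫⁻ t, k t * h (x - t) ^ q :=
        lintegral_mono hjens
    _ = ∫⁻ t, ∫⁻ x, k t * h (x - t) ^ q := by
        rw [lintegral_lintegral_swap]
        refine Measurable.aemeasurable ?_
        exact (hk.comp measurable_snd).mul
          ((hh.comp (measurable_fst.sub measurable_snd)).pow_const q)
    _ = ∫⁻ t, k t * ∫⁻ x, h x ^ q := by
        refine lintegral_congr fun t => ?_
        have hm : Measurable (fun x => h (x - t) ^ q) :=
          (hh.comp (measurable_id.sub_const t)).pow_const q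
        rw [lintegral_const_mul _ hm]
        congr 1
        exact lintegral_sub_right_eq_self (fun x => h x ^ q) t
    _ = ∫⁻ x, h x ^ q := by
        rw [lintegral_mul_const _ hk, hk1, one_mul]

/-- Existence of mollifications with all the bounds we need. -/
theorem exists_mollify (u : E3 → ℝ) (g : E3 → E3) (hu0 : ∀ x, 0 ≤ u x)
    (hu : LocallyIntegrable u) (hgm : LocallyIntegrable g)
    (hug : ∀ φ : E3 → ℝ, ContDiff ℝ ∞ φ → HasCompactSupport φ → ∀ v : E3,
      ∫ x, u x * fderiv ℝ φ x v = -∫ x, inner ℝ (g x) v * φ x) :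
    ∃ w : ℕ → E3 → ℝ, (∀ n, ContDiff ℝ ∞ (w n)) ∧ (∀ n x, 0 ≤ w n x) ∧
      (∀ᵐ x, Tendsto (fun n => w n x) atTop (𝓝 (u x))) ∧
      (∀ n (q : ℝ), 1 ≤ q → ∫⁻ x, ‖w n x‖ₑ ^ q ≤ ∫⁻ x, ‖u x‖ₑ ^ q) ∧
      (∀ n (q : ℝ), 1 ≤ q → ∫⁻ x, ‖fderiv ℝ (w n) x‖ₑ ^ q ≤ ∫⁻ x, ‖g x‖ₑ ^ q) := by
  let b : ℕ → ContDiffBump (0 : E3) := fun n =>
    ⟨1 / (2 * ((n : ℝ) + 1)), 1 / ((n : ℝ) + 1), by positivity, by
      apply one_div_lt_one_div_of_lt <;> nlinarith [Nat.cast_nonneg (α := ℝ) n]⟩
  let k : ℕ → E3 → ℝ := fun n => (b n).normed volume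
  have hk0 : ∀ n x, 0 ≤ k n x := fun n x => (b n).nonneg_normed x
  have hkc : ∀ n, Continuous (k n) := fun n => (b n).continuous_normed
  have hkd : ∀ n, ContDiff ℝ ∞ (k n) := fun n => (b n).contDiff_normed
  have hks : ∀ n, HasCompactSupport (k n) := fun n => (b n).hasCompactSupport_normed
  have hkint : ∀ n, Integrable (k n) := fun n => (b n).integrable_normed
  have hk1 : ∀ n, ∫⁻ t, ‖k n t‖ₑ = 1 := by
    intro n
    have h1 : ∫ t, k n t = 1 := (b n).integral_normed
    have h2 := ofReal_integral_eq_lintegral_ofReal (hkint n) (ae_of_all _ (hk0 n))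
    rw [h1] at h2
    rw [← ENNReal.ofReal_one, h2]
    refine lintegral_congr fun t => ?_
    rw [Real.enorm_of_nonneg (hk0 n t)]
  have hkm : ∀ n, Measurable (fun t => ‖k n t‖ₑ) := fun n => (hkc n).measurable.enorm
  refine ⟨fun n => (k n) ⋆[ContinuousLinearMap.lsmul ℝ ℝ, volume] u, ?_, ?_, ?_, ?_, ?_⟩
  · intro n
    exact (hks n).contDiff_convolution_left _ (hkd n) hu
  · intro n x
    show 0 ≤ ((k n) ⋆[ContinuousLinearMap.lsmul ℝ ℝ, volume] u) x
    rw [convolution_def]
    refine integral_nonneg fun t => ?_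
    simp only [ContinuousLinearMap.lsmul_apply, smul_eq_mul]
    exact mul_nonneg (hk0 n t) (hu0 _)
  · refine ContDiffBump.ae_convolution_tendsto_right_of_locallyIntegrable (φ := b) (K := 2)
      ?_ ?_ hu
    · exact tendsto_one_div_add_atTop_nhds_zero_nat
    · refine Eventually.of_forall fun n => ?_
      show 1 / ((n : ℝ) + 1) ≤ 2 * (1 / (2 * ((n : ℝ) + 1)))
      have : (0:ℝ) < (n:ℝ) + 1 := by positivity
      apply le_of_eq
      field_simp
  · intro n q hq
    -- measurable representative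
    obtain ⟨u', hu'm, huu'⟩ := hu.aestronglyMeasurable
    have hconv : (k n) ⋆[ContinuousLinearMap.lsmul ℝ ℝ, volume] u
        = (k n) ⋆[ContinuousLinearMap.lsmul ℝ ℝ, volume] u' :=
      convolution_congr _ (ae_eq_refl _) huu'
    have h2 : ∫⁻ x, ‖u x‖ₑ ^ q = ∫⁻ x, ‖u' x‖ₑ ^ q := by
      refine lintegral_congr_ae ?_
      filter_upwards [huu'] with x hx
      rw [hx]
    show ∫⁻ x, ‖((k n) ⋆[ContinuousLinearMap.lsmul ℝ ℝ, volume] u) x‖ₑ ^ q ≤ _
    rw [hconv, h2]
    refine le_trans (lintegral_mono fun x => ?_)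
      (lintegral_conv_rpow_le (fun t => ‖k n t‖ₑ) (hkm n) (hk1 n) (fun x => ‖u' x‖ₑ)
        hu'm.measurable.enorm q hq)
    refine ENNReal.rpow_le_rpow ?_ (by linarith)
    rw [convolution_def]
    refine le_trans (enorm_integral_le_lintegral_enorm _) (lintegral_mono fun t => ?_)
    simp only [ContinuousLinearMap.lsmul_apply, smul_eq_mul, enorm_mul]
    exact le_rfl
  · intro n q hq
    obtain ⟨g', hg'm, hgg'⟩ := hgm.aestronglyMeasurable
    have h2 : ∫⁻ x, ‖g x‖ₑ ^ q = ∫⁻ x, ‖g' x‖ₑ ^ q := by
      refine lintegral_congr_ae ?_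
      filter_upwards [hgg'] with x hx
      rw [hx]
    rw [h2]
    refine le_trans (lintegral_mono fun x => ?_)
      (lintegral_conv_rpow_le (fun t => ‖k n t‖ₑ) (hkm n) (hk1 n) (fun x => ‖g' x‖ₑ)
        hg'm.measurable.enorm q hq)
    refine ENNReal.rpow_le_rpow ?_ (by linarith)
    -- pointwise bound of the derivative
    have hderiv := (hks n).hasFDerivAt_convolution_left (ContinuousLinearMap.lsmul ℝ ℝ)
      ((hkd n).of_le (by exact_mod_cast le_top)) hu x (μ := volume)
    rw [hderiv.fderiv]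
    have hformula : ∀ v : E3,
        (fderiv ℝ (k n) ⋆[(ContinuousLinearMap.lsmul ℝ ℝ).precompL E3, volume] u) x v
          = ∫ y, inner ℝ (g y) v * k n (x - y) := by
      intro v
      have hexists : ConvolutionExistsAt (fderiv ℝ (k n)) u x
          ((ContinuousLinearMap.lsmul ℝ ℝ).precompL E3) volume :=
        ((hks n).fderiv ℝ).convolutionExists_left _ 
          ((hkd n).continuous_fderiv (by simp)) hu x
      have e1 : (fderiv ℝ (k n) ⋆[(ContinuousLinearMap.lsmul ℝ ℝ).precompL E3, volume] u) x v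
          = ∫ t, fderiv ℝ (k n) t v * u (x - t) := by
        rw [convolution_def, ContinuousLinearMap.integral_apply hexists]
        refine integral_congr_ae (ae_of_all _ fun t => ?_)
        simp [ContinuousLinearMap.precompL_apply]
      rw [e1]
      have e2 : ∫ t, fderiv ℝ (k n) t v * u (x - t)
          = ∫ y, fderiv ℝ (k n) (x - y) v * u y := by
        rw [← integral_sub_left_eq_self _ _ x]
        simp
      rw [e2]
      have hφd : ContDiff ℝ ∞ (fun y => k n (x - y)) :=
        (hkd n).comp (contDiff_const.sub contDiff_id)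
      have hφs : HasCompactSupport (fun y => k n (x - y)) :=
        (hks n).comp_homeomorph (Homeomorph.subLeft x)
      have hφf : ∀ y, fderiv ℝ (fun y => k n (x - y)) y v = - fderiv ℝ (k n) (x - y) v := by
        intro y
        have h3 : HasFDerivAt (fun y => k n (x - y))
            ((fderiv ℝ (k n) (x - y)).comp (-(ContinuousLinearMap.id ℝ E3))) y := by
          have h4 : HasFDerivAt (fun y => x - y) (-(ContinuousLinearMap.id ℝ E3)) y := by
            simpa using (hasFDerivAt_id y).const_sub x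
          exact HasFDerivAt.comp y
            (((hkd n).differentiable (by simp)) (x - y)).hasFDerivAt h4
        rw [h3.fderiv]
        simp
      have h5 := hug (fun y => k n (x - y)) hφd hφs v
      simp only [hφf] at h5
      calc ∫ y, fderiv ℝ (k n) (x - y) v * u y
          = - ∫ y, u y * -(fderiv ℝ (k n) (x - y) v) := by
            rw [← integral_neg]
            refine integral_congr_ae (ae_of_all _ fun y => ?_)
            simp; ring
        _ = ∫ y, inner ℝ (g y) v * k n (x - y) := by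
            rw [h5, neg_neg]
    -- operator norm bound
    have hgk : Integrable (fun y => ‖g y‖ * k n (x - y)) := by
      have hc : Continuous (fun y => k n (x - y)) := (hkc n).comp (continuous_const.sub continuous_id)
      have hs : HasCompactSupport (fun y => k n (x - y)) :=
        (hks n).comp_homeomorph (Homeomorph.subLeft x)
      have := (hgm.integrable_smul_left_of_hasCompactSupport hc hs).norm
      refine this.congr (ae_of_all _ fun y => ?_)
      simp only [norm_smul]
      rw [Real.norm_of_nonneg (hk0 n _), mul_comm]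
    have hI0 : 0 ≤ ∫ y, ‖g y‖ * k n (x - y) :=
      integral_nonneg fun y => mul_nonneg (norm_nonneg _) (hk0 n _)
    have hop : ‖(fderiv ℝ (k n) ⋆[(ContinuousLinearMap.lsmul ℝ ℝ).precompL E3, volume] u) x‖
        ≤ ∫ y, ‖g y‖ * k n (x - y) := by
      refine ContinuousLinearMap.opNorm_le_bound _ hI0 fun v => ?_
      rw [hformula v, ← integral_mul_const]
      refine le_trans (norm_integral_le_integral_norm _) ?_
      refine integral_mono_of_nonneg (ae_of_all _ fun y => norm_nonneg _) (hgk.mul_const _)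
        (ae_of_all _ fun y => ?_)
      simp only [norm_mul]
      rw [Real.norm_of_nonneg (hk0 n _)]
      have := norm_inner_le_norm (𝕜 := ℝ) (g y) v
      have h6 := mul_le_mul_of_nonneg_right this (hk0 n (x - y))
      calc ‖inner ℝ (g y) v‖ * k n (x - y) ≤ ‖g y‖ * ‖v‖ * k n (x - y) := h6
        _ = ‖g y‖ * k n (x - y) * ‖v‖ := by ring
    calc ‖(fderiv ℝ (k n) ⋆[(ContinuousLinearMap.lsmul ℝ ℝ).precompL E3, volume] u) x‖ₑ
        ≤ ENNReal.ofReal (∫ y, ‖g y‖ * k n (x - y)) := by
          rw [← ofReal_norm]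
          exact ENNReal.ofReal_le_ofReal hop
      _ = ∫⁻ y, ENNReal.ofReal (‖g y‖ * k n (x - y)) :=
          ofReal_integral_eq_lintegral_ofReal hgk
            (ae_of_all _ fun y => mul_nonneg (norm_nonneg _) (hk0 n _))
      _ = ∫⁻ y, ‖g' y‖ₑ * ‖k n (x - y)‖ₑ := by
          refine lintegral_congr_ae ?_
          filter_upwards [hgg'] with y hy
          rw [ENNReal.ofReal_mul (norm_nonneg _), ofReal_norm, hy,
            Real.enorm_of_nonneg (hk0 n _)]
      _ = ∫⁻ t, ‖k n t‖ₑ * ‖g' (x - t)‖ₑ := by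
          rw [← lintegral_sub_left_eq_self _ x]
          refine lintegral_congr fun t => ?_
          simp [mul_comm]

end Pool.Agent.Helper149.Mollify
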