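import Mathlib
import Pool.Agent.Helper149.Fatou

set_option autoImplicit false

open MeasureTheory Filter Topology Set
open scoped ENNReal NNReal ContDiff

namespace Pool.Agent.Helper149.Sobolev

abbrev E3 := EuclideanSpace ℝ (Fin 3)

/-- A smooth cutoff at scale `m`: equal to one near every fixed point for large `m`,
with gradient `O(1/m)`. -/
theorem exists_cutoff : ∃ (χ : ℕ → E3 → ℝ) (C : ℝ), 0 ≤ C ∧ (∀ n, ContDiff ℝ ∞ (χ n)) ∧
    (∀ n, HasCompactSupport (χ n)) ∧ (∀ n x, 0 ≤ χ n x) ∧ (∀ n x, χ n x ≤ 1) ∧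
    (∀ x, ∀ᶠ n in atTop, χ n x = 1) ∧ (∀ n x, ‖fderiv ℝ (χ n) x‖ ≤ C / ((n:ℝ) + 1)) := by
  let b : ContDiffBump (0 : E3) := ⟨1, 2, one_pos, one_lt_two⟩
  have hb : ContDiff ℝ ∞ (b : E3 → ℝ) := b.contDiff
  have hbs : HasCompactSupport (b : E3 → ℝ) := b.hasCompactSupport
  obtain ⟨C, hC⟩ := (hb.continuous_fderiv (by simp)).bounded_above_of_compact_support
    (hbs.fderiv ℝ)
  have hC0 : 0 ≤ C := le_trans (norm_nonneg _) (hC 0)
  let s : ℕ → ℝ := fun n => ((n:ℝ) + 1)⁻¹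
  have hs : ∀ n, 0 < s n := fun n => by positivity
  refine ⟨fun n x => b (s n • x), C, hC0, ?_, ?_, ?_, ?_, ?_, ?_⟩
  · intro n
    have h0 : ContDiff ℝ ∞ (fun x : E3 => s n • x) := contDiff_const_smul (s n)
    exact hb.comp h0
  · intro n
    exact hbs.comp_smul (hs n).ne'
  · intro n x
    exact b.nonneg
  · intro n x
    exact b.le_one
  · intro x
    have h1 : Tendsto (fun n : ℕ => (n:ℝ) + 1) atTop atTop :=
      tendsto_atTop_add_const_right _ _ tendsto_natCast_atTop_atTop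
    filter_upwards [h1.eventually_ge_atTop ‖x‖] with n hn
    apply b.one_of_mem_closedBall
    rw [mem_closedBall_zero_iff, norm_smul, Real.norm_of_nonneg (hs n).le]
    show ((n:ℝ) + 1)⁻¹ * ‖x‖ ≤ 1
    rw [inv_mul_le_iff₀ (by positivity), mul_one]
    exact hn
  · intro n x
    have h1 : HasFDerivAt (fun x : E3 => b (s n • x))
        ((fderiv ℝ b (s n • x)).comp (s n • ContinuousLinearMap.id ℝ E3)) x := by
      have h2 : HasFDerivAt (fun x : E3 => s n • x) (s n • ContinuousLinearMap.id ℝ E3) x :=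
        (hasFDerivAt_id x).const_smul (s n)
      exact ((hb.differentiable (by simp)) (s n • x)).hasFDerivAt.comp x h2
    rw [h1.fderiv]
    calc ‖(fderiv ℝ b (s n • x)).comp (s n • ContinuousLinearMap.id ℝ E3)‖
        ≤ ‖fderiv ℝ b (s n • x)‖ * ‖s n • ContinuousLinearMap.id ℝ E3‖ :=
          ContinuousLinearMap.opNorm_comp_le _ _
      _ ≤ C * s n := by
          refine mul_le_mul (hC _) ?_ (norm_nonneg _) hC0
          rw [norm_smul, Real.norm_of_nonneg (hs n).le]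
          exact mul_le_of_le_one_right (hs n).le ContinuousLinearMap.norm_id_le
      _ = C / ((n:ℝ) + 1) := by simp only [s]; rw [div_eq_mul_inv]

/-- Sobolev inequality `‖F‖_{3/2}^{3/2} ≤ K (∫|∇F|)^{3/2}` for nonnegative `C¹` functions that are
integrable together with their gradient (no compact support needed). -/
theorem sobolevL1 : ∃ K : ℝ, 0 ≤ K ∧ ∀ F : E3 → ℝ, ContDiff ℝ 1 F → (∀ x, 0 ≤ F x) →
    Integrable F → Integrable (fun x => ‖fderiv ℝ F x‖) →
    Integrable (fun x => F x ^ ((3:ℝ)/2)) ∧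
      ∫ x, F x ^ ((3:ℝ)/2) ≤ K * (∫ x, ‖fderiv ℝ F x‖) ^ ((3:ℝ)/2) := by
  obtain ⟨χ, C, hC0, hχd, hχs, hχ0, hχ1, hχlim, hχg⟩ := exists_cutoff
  let K : ℝ≥0 := lintegralPowLePowLIntegralFDerivConst (volume : Measure E3) ((3:ℝ)/2)
  refine ⟨K, (NNReal.coe_nonneg K), ?_⟩
  intro F hF hF0 hint hint'
  have hfin : (Module.finrank ℝ E3 : ℝ) = 3 := by simp
  have hp : Real.HolderConjugate (Module.finrank ℝ E3) ((3:ℝ)/2) := by
    rw [hfin]
    constructor <;> norm_num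
  set I := ∫ x, F x with hI
  set I' := ∫ x, ‖fderiv ℝ F x‖ with hI'
  have hI0 : 0 ≤ I := integral_nonneg hF0
  have hI'0 : 0 ≤ I' := integral_nonneg fun x => norm_nonneg _
  let B : ℕ → ℝ := fun n => K * (I' + C / ((n:ℝ) + 1) * I) ^ ((3:ℝ)/2)
  have hBlim : Tendsto B atTop (𝓝 (K * I' ^ ((3:ℝ)/2))) := by
    have h1 : Tendsto (fun n : ℕ => C / ((n:ℝ) + 1)) atTop (𝓝 0) := by
      have := tendsto_one_div_add_atTop_nhds_zero_nat (𝕜 := ℝ)
      have h2 := this.const_mul C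
      simpa [div_eq_mul_inv] using h2
    have h2 : Tendsto (fun n : ℕ => I' + C / ((n:ℝ) + 1) * I) atTop (𝓝 (I' + 0 * I)) :=
      (h1.mul_const I).const_add I'
    rw [zero_mul, add_zero] at h2
    have h3 := ((Real.continuous_rpow_const (by norm_num : (0:ℝ) ≤ 3/2)).tendsto _).comp h2
    exact h3.const_mul _
  let w : ℕ → E3 → ℝ := fun n x => χ n x * F x
  have hwd : ∀ n, ContDiff ℝ 1 (w n) := fun n =>
    ((hχd n).of_le (by exact_mod_cast le_top)).mul hF
  have hws : ∀ n, HasCompactSupport (w n) := fun n => (hχs n).mul_right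
  have hw0 : ∀ n x, 0 ≤ w n x := fun n x => mul_nonneg (hχ0 n x) (hF0 x)
  have hwf : ∀ n x, ‖fderiv ℝ (w n) x‖ ≤ ‖fderiv ℝ F x‖ + C / ((n:ℝ) + 1) * F x := by
    intro n x
    have h1 : fderiv ℝ (w n) x = χ n x • fderiv ℝ F x + F x • fderiv ℝ (χ n) x :=
      fderiv_mul (((hχd n).differentiable (by simp)) x) ((hF.differentiable (by simp)) x)
    rw [h1]
    refine (norm_add_le _ _).trans (add_le_add ?_ ?_)
    · rw [norm_smul, Real.norm_of_nonneg (hχ0 n x)]
      exact mul_le_of_le_one_left (norm_nonneg _) (hχ1 n x)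
    · rw [norm_smul, Real.norm_of_nonneg (hF0 x), mul_comm]
      exact mul_le_mul_of_nonneg_right (hχg n x) (hF0 x)
  have hwint : ∀ n, Integrable (fun x => w n x ^ ((3:ℝ)/2)) := by
    intro n
    refine Continuous.integrable_of_hasCompactSupport
      ((hwd n).continuous.rpow_const fun x => Or.inr (by norm_num)) ?_
    refine (hws n).comp_left (g := fun t : ℝ => t ^ ((3:ℝ)/2)) ?_
    exact Real.zero_rpow (by norm_num)
  have hbound : ∀ n, ∫ x, w n x ^ ((3:ℝ)/2) ≤ B n := by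
    intro n
    have h1 := lintegral_pow_le_pow_lintegral_fderiv (volume : Measure E3) (hwd n) (hws n) hp
    have h2 : ∫⁻ x, ‖w n x‖ₑ ^ ((3:ℝ)/2) = ENNReal.ofReal (∫ x, w n x ^ ((3:ℝ)/2)) := by
      rw [ofReal_integral_eq_lintegral_ofReal (hwint n)
        (ae_of_all _ fun x => Real.rpow_nonneg (hw0 n x) _)]
      refine lintegral_congr fun x => ?_
      rw [Real.enorm_of_nonneg (hw0 n x), ENNReal.ofReal_rpow_of_nonneg (hw0 n x) (by norm_num)]
    have hbi : Integrable (fun x => ‖fderiv ℝ F x‖ + C / ((n:ℝ) + 1) * F x) :=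
      hint'.add (hint.const_mul _)
    have h3 : ∫⁻ x, ‖fderiv ℝ (w n) x‖ₑ ≤ ENNReal.ofReal (I' + C / ((n:ℝ) + 1) * I) := by
      have h4 : I' + C / ((n:ℝ) + 1) * I = ∫ x, (‖fderiv ℝ F x‖ + C / ((n:ℝ) + 1) * F x) := by
        rw [integral_add hint' (hint.const_mul _), integral_const_mul]
      rw [h4, ofReal_integral_eq_lintegral_ofReal hbi
        (ae_of_all _ fun x => (norm_nonneg _).trans (hwf n x))]
      refine lintegral_mono fun x => ?_
      rw [← ofReal_norm]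
      exact ENNReal.ofReal_le_ofReal (hwf n x)
    have hnn : 0 ≤ I' + C / ((n:ℝ) + 1) * I := by positivity
    have h5 : ENNReal.ofReal (∫ x, w n x ^ ((3:ℝ)/2)) ≤ ENNReal.ofReal (B n) := by
      rw [← h2]
      refine h1.trans ?_
      calc (K : ℝ≥0∞) * (∫⁻ x, ‖fderiv ℝ (w n) x‖ₑ) ^ ((3:ℝ)/2)
          ≤ (K : ℝ≥0∞) * (ENNReal.ofReal (I' + C / ((n:ℝ) + 1) * I)) ^ ((3:ℝ)/2) := by
            gcongr
        _ = ENNReal.ofReal (B n) := by
            rw [ENNReal.ofReal_rpow_of_nonneg hnn (by norm_num)]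
            show (K : ℝ≥0∞) * ENNReal.ofReal ((I' + C / ((n:ℝ) + 1) * I) ^ ((3:ℝ)/2))
              = ENNReal.ofReal ((K : ℝ) * (I' + C / ((n:ℝ) + 1) * I) ^ ((3:ℝ)/2))
            rw [ENNReal.ofReal_mul (NNReal.coe_nonneg K), ENNReal.ofReal_coe_nnreal]
    have hB0 : 0 ≤ B n := mul_nonneg (NNReal.coe_nonneg K) (Real.rpow_nonneg hnn _)
    exact (ENNReal.ofReal_le_ofReal_iff hB0).mp h5
  have hlim : ∀ᵐ x : E3, Tendsto (fun n => w n x ^ ((3:ℝ)/2)) atTop (𝓝 (F x ^ ((3:ℝ)/2))) := by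
    refine ae_of_all _ fun x => ?_
    refine tendsto_const_nhds.congr' ?_
    filter_upwards [hχlim x] with n hn
    simp only [w, hn, one_mul]
  have hmain : ∀ ε : ℝ, 0 < ε → Integrable (fun x => F x ^ ((3:ℝ)/2)) ∧
      ∫ x, F x ^ ((3:ℝ)/2) ≤ K * I' ^ ((3:ℝ)/2) + ε := by
    intro ε hε
    have h1 : ∀ᶠ n in atTop, B n ≤ K * I' ^ ((3:ℝ)/2) + ε :=
      (hBlim.eventually_lt_const (by linarith)).mono fun n hn => hn.le
    obtain ⟨N, hN⟩ := eventually_atTop.mp h1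
    exact Helper149.Fatou.fatou_real (fun n x => w (n + N) x ^ ((3:ℝ)/2)) _ _
      (fun n x => Real.rpow_nonneg (hw0 _ x) _) (fun n => hwint _)
      (fun n => (hbound _).trans (hN _ (by omega)))
      (hlim.mono fun x hx => hx.comp (tendsto_add_atTop_nat N))
  refine ⟨(hmain 1 one_pos).1, ?_⟩
  exact le_of_forall_pos_le_add fun ε hε => (hmain ε hε).2

end Pool.Agent.Helper149.Sobolev
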