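import Mathlib
import Pool.Agent.Helper149.Mollify
import Pool.Agent.Helper149.Hardy
import Pool.Agent.Helper149.Fatou
import Pool.Agent.Helper149.Sobolev

set_option autoImplicit false

open MeasureTheory Filter Topology Set
open scoped ENNReal NNReal ContDiff

namespace Pool.Agent.Helper149.TFDW

/-- Three dimensional Euclidean space. -/
abbrev R3 := EuclideanSpace ℝ (Fin 3)

/-- `ρ` is an admissible density and `g` is the weak gradient of `ρ^{1/2}`: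
`ρ ≥ 0`, `ρ^{1/2} ∈ L² ∩ L^{2p}` (that is `ρ ∈ L¹ ∩ L^p`) and `g = ∇ ρ^{1/2} ∈ L²`
in the sense of distributions. -/
structure Admissible (p : ℝ) (ρ : R3 → ℝ) (g : R3 → R3) : Prop where
  nonneg : ∀ x, 0 ≤ ρ x
  integrable : Integrable ρ
  integrable_rpow : Integrable (fun x => ρ x ^ p)
  grad_memLp : MemLp g 2
  grad_weak : ∀ φ : R3 → ℝ, ContDiff ℝ ∞ φ → HasCompactSupport φ → ∀ v : R3,
    ∫ x, √(ρ x) * fderiv ℝ φ x v = -∫ x, inner ℝ (g x) v * φ x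

/-- The density `ρ₀` with `ρ₀^{p-4/3} = C_e p / (4 γ (p-1))`. -/
noncomputable def rho0 (γ Ce p : ℝ) : ℝ := (Ce * p / (4 * γ * (p - 1))) ^ (1 / (p - 4 / 3))

/-- `α = (3p-4)/(4(p-1)) ρ₀^{1/3} C_e`. -/
noncomputable def alpha (γ Ce p : ℝ) : ℝ :=
  (3 * p - 4) / (4 * (p - 1)) * rho0 γ Ce p ^ ((1 : ℝ) / 3) * Ce

/-- `J_α(ρ) = (γ/p) ρ^p - (3 C_e/4) ρ^{4/3} + α ρ`. -/
noncomputable def Jalpha (γ Ce p : ℝ) (ρ : ℝ) : ℝ :=
  γ / p * ρ ^ p - 3 * Ce / 4 * ρ ^ ((4 : ℝ) / 3) + alpha γ Ce p * ρ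

/-! ### Elementary facts about `J_α` -/

lemma rho0_pos {γ Ce p : ℝ} (hγ : 0 < γ) (hCe : 0 < Ce) (hp : 4 / 3 < p) : 0 < rho0 γ Ce p := by
  unfold rho0
  apply Real.rpow_pos_of_pos
  have : 0 < p - 1 := by linarith
  positivity

lemma alpha_pos {γ Ce p : ℝ} (hγ : 0 < γ) (hCe : 0 < Ce) (hp : 4 / 3 < p) :
    0 < alpha γ Ce p := by
  unfold alpha
  have h1 : 0 < 3 * p - 4 := by linarith
  have h2 : 0 < 4 * (p - 1) := by linarith
  have h3 := Real.rpow_pos_of_pos (rho0_pos hγ hCe hp) ((1:ℝ) / 3)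
  positivity

/-- `h(ρ) = (γ/p) ρ^{p-1} - (3C_e/4) ρ^{1/3} + α`, so that `J_α(ρ) = ρ h(ρ)`. -/
noncomputable def hfun (γ Ce p : ℝ) (ρ : ℝ) : ℝ :=
  γ / p * ρ ^ (p - 1) - 3 * Ce / 4 * ρ ^ ((1 : ℝ) / 3) + alpha γ Ce p

lemma Jalpha_eq {γ Ce p : ℝ} (hp : 4 / 3 < p) {ρ : ℝ} (hρ : 0 ≤ ρ) :
    Jalpha γ Ce p ρ = ρ * hfun γ Ce p ρ := by
  unfold Jalpha hfun
  rcases eq_or_lt_of_le hρ with rfl | hρ
  · rw [Real.zero_rpow (by linarith), Real.zero_rpow (by norm_num)]; ring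
  · have h1 : ρ ^ p = ρ * ρ ^ (p - 1) := by
      rw [← Real.rpow_one_add' hρ.le (by linarith)]; congr 1; ring
    have h2 : ρ ^ ((4:ℝ) / 3) = ρ * ρ ^ ((1:ℝ) / 3) := by
      rw [← Real.rpow_one_add' hρ.le (by norm_num)]; congr 1; norm_num
    rw [h1, h2]; ring

lemma hfun_nonneg {γ Ce p : ℝ} (hγ : 0 < γ) (hCe : 0 < Ce) (hp : 4 / 3 < p) {ρ : ℝ}
    (hρ : 0 ≤ ρ) : 0 ≤ hfun γ Ce p ρ := by
  have hp1 : 0 < p - 1 := by linarith
  have hr := rho0_pos hγ hCe hp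
  set r := rho0 γ Ce p with hrdef
  set θ : ℝ := 1 / (3 * (p - 1)) with hθ
  have hθ0 : 0 < θ := by positivity
  have hθ1 : θ ≤ 1 := by
    rw [hθ, div_le_one (by positivity)]; linarith
  have hY := Real.geom_mean_le_arith_mean2_weighted (w₁ := θ) (w₂ := 1 - θ)
    (p₁ := (ρ / r) ^ (p - 1)) (p₂ := 1) hθ0.le (by linarith)
    (Real.rpow_nonneg (div_nonneg hρ hr.le) _) zero_le_one (by ring)
  rw [Real.one_rpow, mul_one, mul_one, ← Real.rpow_mul (div_nonneg hρ hr.le)] at hY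
  have he : (p - 1) * θ = 1 / 3 := by
    rw [hθ]; field_simp
  rw [he, Real.div_rpow hρ hr.le, Real.div_rpow hρ hr.le] at hY
  have hr13 : 0 < r ^ ((1:ℝ) / 3) := Real.rpow_pos_of_pos hr _
  have hrp1 : 0 < r ^ (p - 1) := Real.rpow_pos_of_pos hr _
  have hY2 : ρ ^ ((1:ℝ)/3) ≤ θ * (ρ ^ (p - 1) * (r ^ ((1:ℝ)/3) / r ^ (p - 1)))
      + (1 - θ) * r ^ ((1:ℝ)/3) := by
    have := mul_le_mul_of_nonneg_right hY hr13.le
    calc ρ ^ ((1:ℝ)/3) = ρ ^ ((1:ℝ)/3) / r ^ ((1:ℝ)/3) * r ^ ((1:ℝ)/3) := by field_simp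
      _ ≤ _ := this
      _ = _ := by ring
  have hratio : r ^ ((1:ℝ)/3) / r ^ (p - 1) = 4 * γ * (p - 1) / (Ce * p) := by
    rw [← Real.rpow_sub hr]
    have h1 : (1:ℝ)/3 - (p - 1) = -(p - 4/3) := by ring
    rw [h1, Real.rpow_neg hr.le, hrdef, rho0, ← Real.rpow_mul (by positivity),
      one_div_mul_cancel (by linarith), Real.rpow_one, inv_div]
  rw [hratio] at hY2
  have hα : alpha γ Ce p = 3 * Ce / 4 * ((1 - θ) * r ^ ((1:ℝ)/3)) := by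
    unfold alpha
    rw [← hrdef, hθ]
    field_simp
    ring
  have hγp : γ / p = 3 * Ce / 4 * (θ * (4 * γ * (p - 1) / (Ce * p))) := by
    rw [hθ]
    field_simp
  unfold hfun
  rw [hα, hγp]
  have h3 := mul_le_mul_of_nonneg_left hY2 (by positivity : 0 ≤ 3 * Ce / 4)
  nlinarith [h3]

lemma Jalpha_nonneg {γ Ce p : ℝ} (hγ : 0 < γ) (hCe : 0 < Ce) (hp : 4 / 3 < p) {ρ : ℝ}
    (hρ : 0 ≤ ρ) : 0 ≤ Jalpha γ Ce p ρ := by
  rw [Jalpha_eq hp hρ]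
  exact mul_nonneg hρ (hfun_nonneg hγ hCe hp hρ)

/-- For small `t`, `h(t²) ≥ β` if `β < α`. -/
lemma hfun_low {γ Ce p : ℝ} (hγ : 0 < γ) (hCe : 0 < Ce) (hp : 4 / 3 < p) {β : ℝ}
    (hβ : β < alpha γ Ce p) :
    ∃ s₁ : ℝ, 0 < s₁ ∧ ∀ t, 0 ≤ t → t ≤ s₁ → β ≤ hfun γ Ce p (t ^ 2) := by
  have hpp : 0 < p := by linarith
  set α := alpha γ Ce p with hαdef
  set a₁ : ℝ := 4 * (α - β) / (3 * Ce) with ha₁
  have ha₁p : 0 < a₁ := by
    have : 0 < α - β := by linarith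
    positivity
  refine ⟨√(a₁ ^ 3), Real.sqrt_pos.mpr (by positivity), ?_⟩
  intro t ht0 ht
  have h1 : t ^ 2 ≤ a₁ ^ 3 := by
    have := pow_le_pow_left₀ ht0 ht 2
    rwa [Real.sq_sqrt (by positivity)] at this
  have h2 : (t ^ 2) ^ ((1:ℝ)/3) ≤ a₁ := by
    have := Real.rpow_le_rpow (by positivity) h1 (by norm_num : (0:ℝ) ≤ 1/3)
    rw [← Real.rpow_natCast a₁ 3, ← Real.rpow_mul ha₁p.le] at this
    norm_num at this
    exact this
  have h3 : 0 ≤ γ / p * (t ^ 2) ^ (p - 1) := by positivity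
  have h4 : 3 * Ce / 4 * (t ^ 2) ^ ((1:ℝ)/3) ≤ α - β := by
    calc 3 * Ce / 4 * (t ^ 2) ^ ((1:ℝ)/3) ≤ 3 * Ce / 4 * a₁ :=
          mul_le_mul_of_nonneg_left h2 (by positivity)
      _ = α - β := by rw [ha₁]; field_simp
  unfold hfun
  rw [← hαdef]
  linarith

/-- For small and for large `t`, `h(t²) ≥ α/2`. -/
lemma hfun_lower {γ Ce p : ℝ} (hγ : 0 < γ) (hCe : 0 < Ce) (hp : 4 / 3 < p) :
    ∃ s₁ s₂ : ℝ, 0 < s₁ ∧ s₁ ≤ s₂ ∧ (∀ t, 0 ≤ t → t ≤ s₁ → alpha γ Ce p / 2 ≤ hfun γ Ce p (t ^ 2))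
      ∧ (∀ t, s₂ ≤ t → alpha γ Ce p / 2 ≤ hfun γ Ce p (t ^ 2)) := by
  have hα := alpha_pos hγ hCe hp
  set α := alpha γ Ce p with hαdef
  have hpp : 0 < p := by linarith
  set a₁ : ℝ := 2 * α / (3 * Ce) with ha₁
  have ha₁p : 0 < a₁ := by positivity
  set b₂ : ℝ := 3 * Ce * p / (4 * γ) with hb₂
  have hb₂p : 0 < b₂ := by positivity
  set ρ₂ : ℝ := b₂ ^ (1 / (p - 4 / 3)) with hρ₂
  have hρ₂p : 0 < ρ₂ := Real.rpow_pos_of_pos hb₂p _
  refine ⟨√(a₁ ^ 3), max (√(a₁ ^ 3)) (√ρ₂), Real.sqrt_pos.mpr (by positivity), le_max_left _ _,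
    ?_, ?_⟩
  · intro t ht0 ht
    have h1 : t ^ 2 ≤ a₁ ^ 3 := by
      have := pow_le_pow_left₀ ht0 ht 2
      rwa [Real.sq_sqrt (by positivity)] at this
    have h2 : (t ^ 2) ^ ((1:ℝ)/3) ≤ a₁ := by
      have := Real.rpow_le_rpow (by positivity) h1 (by norm_num : (0:ℝ) ≤ 1/3)
      rw [← Real.rpow_natCast a₁ 3, ← Real.rpow_mul ha₁p.le] at this
      norm_num at this
      exact this
    have h3 : 0 ≤ γ / p * (t ^ 2) ^ (p - 1) := by positivity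
    have h4 : 3 * Ce / 4 * (t ^ 2) ^ ((1:ℝ)/3) ≤ α / 2 := by
      calc 3 * Ce / 4 * (t ^ 2) ^ ((1:ℝ)/3) ≤ 3 * Ce / 4 * a₁ :=
            mul_le_mul_of_nonneg_left h2 (by positivity)
        _ = α / 2 := by rw [ha₁]; field_simp; ring
    unfold hfun
    rw [← hαdef]
    linarith
  · intro t ht
    have ht2 : √ρ₂ ≤ t := (le_max_right _ _).trans ht
    have htp : 0 < t := lt_of_lt_of_le (Real.sqrt_pos.mpr hρ₂p) ht2
    have h1 : ρ₂ ≤ t ^ 2 := by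
      have := pow_le_pow_left₀ (Real.sqrt_nonneg _) ht2 2
      rwa [Real.sq_sqrt hρ₂p.le] at this
    have h2 : b₂ ≤ (t ^ 2) ^ (p - 4 / 3) := by
      have := Real.rpow_le_rpow hρ₂p.le h1 (by linarith : (0:ℝ) ≤ p - 4 / 3)
      rw [hρ₂, ← Real.rpow_mul hb₂p.le, one_div_mul_cancel (by linarith), Real.rpow_one] at this
      exact this
    have h3 : (t ^ 2) ^ (p - 1) = (t ^ 2) ^ (p - 4 / 3) * (t ^ 2) ^ ((1:ℝ)/3) := by
      rw [← Real.rpow_add (by positivity)]; congr 1; ring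
    have h4 : 0 ≤ (t ^ 2) ^ ((1:ℝ)/3) := by positivity
    have h5 : 3 * Ce / 4 * (t ^ 2) ^ ((1:ℝ)/3) ≤ γ / p * (t ^ 2) ^ (p - 1) := by
      rw [h3, ← mul_assoc]
      refine mul_le_mul_of_nonneg_right ?_ h4
      calc 3 * Ce / 4 = γ / p * b₂ := by rw [hb₂]; field_simp
        _ ≤ _ := mul_le_mul_of_nonneg_left h2 (by positivity)
    unfold hfun
    rw [← hαdef]
    linarith

/-! ### The auxiliary function `f` with `f' = 2 √A √J_α(s²)` -/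

/-- The derivative of the auxiliary function. -/
noncomputable def hh (A γ Ce p : ℝ) (t : ℝ) : ℝ := 2 * √A * √(Jalpha γ Ce p (t ^ 2))

lemma continuous_Jalpha (γ Ce : ℝ) {p : ℝ} (hp : 4 / 3 < p) : Continuous (Jalpha γ Ce p) := by
  unfold Jalpha
  have h1 : Continuous fun ρ : ℝ => ρ ^ p := Real.continuous_rpow_const (by linarith)
  have h2 : Continuous fun ρ : ℝ => ρ ^ ((4:ℝ) / 3) := Real.continuous_rpow_const (by norm_num)
  exact ((continuous_const.mul h1).sub (continuous_const.mul h2)).add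
    (continuous_const.mul continuous_id)

lemma continuous_hh (A γ Ce : ℝ) {p : ℝ} (hp : 4 / 3 < p) : Continuous (hh A γ Ce p) := by
  unfold hh
  exact continuous_const.mul
    (Real.continuous_sqrt.comp ((continuous_Jalpha γ Ce hp).comp (continuous_pow 2)))

lemma hh_nonneg (A γ Ce p t : ℝ) : 0 ≤ hh A γ Ce p t := by unfold hh; positivity

/-- `f(s) = ∫₀ˢ 2 √A √J_α(t²) dt`. -/
noncomputable def ff (A γ Ce p : ℝ) (s : ℝ) : ℝ := ∫ t in (0:ℝ)..s, hh A γ Ce p t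

lemma hasDerivAt_ff (A γ Ce : ℝ) {p : ℝ} (hp : 4 / 3 < p) (s : ℝ) :
    HasDerivAt (ff A γ Ce p) (hh A γ Ce p s) s :=
  (continuous_hh A γ Ce hp).integral_hasStrictDerivAt 0 s |>.hasDerivAt

lemma contDiff_ff (A γ Ce : ℝ) {p : ℝ} (hp : 4 / 3 < p) : ContDiff ℝ 1 (ff A γ Ce p) := by
  rw [contDiff_one_iff_deriv]
  refine ⟨fun s => (hasDerivAt_ff A γ Ce hp s).differentiableAt, ?_⟩
  have : deriv (ff A γ Ce p) = hh A γ Ce p := funext fun s => (hasDerivAt_ff A γ Ce hp s).deriv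
  rw [this]
  exact continuous_hh A γ Ce hp

lemma ff_nonneg (A γ Ce p : ℝ) {s : ℝ} (hs : 0 ≤ s) : 0 ≤ ff A γ Ce p s :=
  intervalIntegral.integral_nonneg hs fun t _ => hh_nonneg A γ Ce p t

lemma ff_diff (A γ Ce : ℝ) {p : ℝ} (hp : 4 / 3 < p) (a b κ : ℝ) (hab : a ≤ b)
    (h : ∀ t, a ≤ t → t ≤ b → κ * t ≤ hh A γ Ce p t) :
    κ / 2 * (b ^ 2 - a ^ 2) ≤ ff A γ Ce p b - ff A γ Ce p a := by
  have hi : ∀ c d, IntervalIntegrable (hh A γ Ce p) volume c d := fun c d =>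
    (continuous_hh A γ Ce hp).intervalIntegrable c d
  have h1 : ff A γ Ce p b - ff A γ Ce p a = ∫ t in a..b, hh A γ Ce p t := by
    unfold ff
    rw [intervalIntegral.integral_interval_sub_left (hi 0 b) (hi 0 a)]
  rw [h1]
  have h2 : ∫ t in a..b, κ * t = κ / 2 * (b ^ 2 - a ^ 2) := by
    rw [intervalIntegral.integral_const_mul, integral_id]; ring
  rw [← h2]
  refine intervalIntegral.integral_mono_on hab ?_ (hi a b) ?_
  · exact (continuous_const.mul continuous_id).intervalIntegrable a b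
  · intro t ht
    exact h t ht.1 ht.2

lemma ff_mono (A γ Ce : ℝ) {p : ℝ} (hp : 4 / 3 < p) {a b : ℝ} (hab : a ≤ b) :
    ff A γ Ce p a ≤ ff A γ Ce p b := by
  have := ff_diff A γ Ce hp a b 0 hab (fun t _ _ => by simpa using hh_nonneg A γ Ce p t)
  linarith

lemma ff_lower {A γ Ce p : ℝ} (hA : 0 < A) (hγ : 0 < γ) (hCe : 0 < Ce) (hp : 4 / 3 < p) :
    ∃ c : ℝ, 0 < c ∧ ∀ s, 0 ≤ s → c * s ^ 2 ≤ ff A γ Ce p s := by
  obtain ⟨s₁, s₂, hs₁, hs₁₂, hlow, hhigh⟩ := hfun_lower hγ hCe hp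
  have hα := alpha_pos hγ hCe hp
  set κ : ℝ := 2 * √A * √(alpha γ Ce p / 2) with hκ
  have hκp : 0 < κ := by
    have := Real.sqrt_pos.mpr hA
    have := Real.sqrt_pos.mpr (by positivity : 0 < alpha γ Ce p / 2)
    positivity
  have hs₂ : 0 < s₂ := lt_of_lt_of_le hs₁ hs₁₂
  have hkey : ∀ t, 0 ≤ t → alpha γ Ce p / 2 ≤ hfun γ Ce p (t ^ 2) → κ * t ≤ hh A γ Ce p t := by
    intro t ht h
    unfold hh
    have h1 : t * √(alpha γ Ce p / 2) ≤ √(Jalpha γ Ce p (t ^ 2)) := by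
      rw [Jalpha_eq hp (by positivity)]
      apply Real.le_sqrt_of_sq_le
      rw [mul_pow, Real.sq_sqrt (by positivity)]
      exact mul_le_mul_of_nonneg_left h (by positivity)
    calc κ * t = 2 * √A * (t * √(alpha γ Ce p / 2)) := by rw [hκ]; ring
      _ ≤ _ := mul_le_mul_of_nonneg_left h1 (by positivity)
  have hf0 : ff A γ Ce p 0 = 0 := by simp [ff]
  have hfs : ∀ s, 0 ≤ s → s ≤ s₁ → κ / 2 * s ^ 2 ≤ ff A γ Ce p s := by
    intro s hs hss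
    have := ff_diff A γ Ce hp 0 s κ hs (fun t ht0 hts => hkey t ht0 (hlow t ht0 (hts.trans hss)))
    rw [hf0] at this
    nlinarith
  have hratio : s₁ ^ 2 / s₂ ^ 2 ≤ 1 := by
    rw [div_le_one (by positivity)]
    exact pow_le_pow_left₀ hs₁.le hs₁₂ 2
  refine ⟨κ / 2 * (s₁ ^ 2 / s₂ ^ 2), by positivity, ?_⟩
  intro s hs
  rcases le_total s s₁ with h1 | h1
  · refine le_trans ?_ (hfs s hs h1)
    have : κ / 2 * (s₁ ^ 2 / s₂ ^ 2) * s ^ 2 = κ / 2 * s ^ 2 * (s₁ ^ 2 / s₂ ^ 2) := by ring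
    rw [this]
    exact mul_le_of_le_one_right (by positivity) hratio
  · have hfs1 := hfs s₁ hs₁.le le_rfl
    rcases le_total s s₂ with h2 | h2
    · have h3 := ff_mono A γ Ce hp h1
      have h4 : κ / 2 * (s₁ ^ 2 / s₂ ^ 2) * s ^ 2 ≤ κ / 2 * s₁ ^ 2 := by
        have h5 : s ^ 2 / s₂ ^ 2 ≤ 1 := by
          rw [div_le_one (by positivity)]
          exact pow_le_pow_left₀ hs h2 2
        calc κ / 2 * (s₁ ^ 2 / s₂ ^ 2) * s ^ 2 = κ / 2 * s₁ ^ 2 * (s ^ 2 / s₂ ^ 2) := by ring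
          _ ≤ _ := mul_le_of_le_one_right (by positivity) h5
      linarith
    · have h3 := ff_diff A γ Ce hp s₂ s κ h2
        (fun t ht _ => hkey t (hs₂.le.trans ht) (hhigh t ht))
      have h4 := ff_mono A γ Ce hp hs₁₂
      have h5 : κ / 2 * (s₁ ^ 2 / s₂ ^ 2) * s ^ 2 ≤ κ / 2 * (s₁ ^ 2 + (s ^ 2 - s₂ ^ 2)) := by
        rw [mul_assoc]
        refine mul_le_mul_of_nonneg_left ?_ (by positivity)
        have h6 : s₂ ^ 2 ≤ s ^ 2 := pow_le_pow_left₀ hs₂.le h2 2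
        have h7 : s₁ ^ 2 / s₂ ^ 2 * s₂ ^ 2 = s₁ ^ 2 := by field_simp
        nlinarith [mul_nonneg (sub_nonneg.mpr hratio) (sub_nonneg.mpr h6)]
      nlinarith

lemma ff_upper {A γ Ce p : ℝ} (hA : 0 < A) (hγ : 0 < γ) (hCe : 0 < Ce) (hp : 4 / 3 < p) :
    ∀ s, 0 ≤ s → ff A γ Ce p s ≤ (A + alpha γ Ce p) * s ^ 2 + γ / p * (s ^ 2) ^ p := by
  intro s hs
  have hpp : 0 < p := by linarith
  have hα := alpha_pos hγ hCe hp
  have hb : ∀ t, 0 ≤ t → t ≤ s →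
      hh A γ Ce p t ≤ (A + alpha γ Ce p) * s + γ / p * (s * (s ^ 2) ^ (p - 1)) := by
    intro t ht hts
    unfold hh
    rw [Jalpha_eq hp (by positivity), Real.sqrt_mul (by positivity), Real.sqrt_sq ht]
    have h0 := hfun_nonneg hγ hCe hp (by positivity : 0 ≤ t ^ 2)
    have h1 : 2 * √A * √(hfun γ Ce p (t ^ 2)) ≤ A + hfun γ Ce p (t ^ 2) := by
      nlinarith [sq_nonneg (√A - √(hfun γ Ce p (t ^ 2))), Real.sq_sqrt hA.le, Real.sq_sqrt h0]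
    have h2 : hfun γ Ce p (t ^ 2) ≤ γ / p * (s ^ 2) ^ (p - 1) + alpha γ Ce p := by
      unfold hfun
      have h3 : (t ^ 2) ^ (p - 1) ≤ (s ^ 2) ^ (p - 1) :=
        Real.rpow_le_rpow (by positivity) (pow_le_pow_left₀ ht hts 2) (by linarith)
      have h4 : 0 ≤ 3 * Ce / 4 * (t ^ 2) ^ ((1:ℝ)/3) := by positivity
      have h5 := mul_le_mul_of_nonneg_left h3 (by positivity : 0 ≤ γ / p)
      linarith
    have h6 : 0 ≤ 2 * √A * √(hfun γ Ce p (t ^ 2)) := by positivity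
    calc 2 * √A * (t * √(hfun γ Ce p (t ^ 2))) = t * (2 * √A * √(hfun γ Ce p (t ^ 2))) := by ring
      _ ≤ s * (A + (γ / p * (s ^ 2) ^ (p - 1) + alpha γ Ce p)) :=
          mul_le_mul hts (h1.trans (by linarith)) h6 hs
      _ = _ := by ring
  have h1 : ff A γ Ce p s ≤ ∫ t in (0:ℝ)..s,
      ((A + alpha γ Ce p) * s + γ / p * (s * (s ^ 2) ^ (p - 1))) := by
    unfold ff
    refine intervalIntegral.integral_mono_on hs
      ((continuous_hh A γ Ce hp).intervalIntegrable _ _) (intervalIntegrable_const) ?_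
    intro t ht
    exact hb t ht.1 ht.2
  rw [intervalIntegral.integral_const, sub_zero, smul_eq_mul] at h1
  refine h1.trans (le_of_eq ?_)
  rcases eq_or_lt_of_le hs with rfl | hs
  · have h0 : ((0:ℝ) ^ 2) ^ p = 0 := by
      rw [zero_pow two_ne_zero, Real.zero_rpow (by linarith)]
    rw [h0]; ring
  · have h2 : (s ^ 2) ^ p = s ^ 2 * (s ^ 2) ^ (p - 1) := by
      rw [← Real.rpow_one_add' (by positivity) (by linarith)]; congr 1; ring
    rw [h2]; ring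

/-! ### The lower bound for smooth functions -/

lemma integrable_Jalpha {γ Ce p : ℝ} (hp : 4 / 3 < p) {μ : Measure R3} {r : R3 → ℝ}
    (h0 : ∀ x, 0 ≤ r x) (h1 : Integrable r μ) (hpow : Integrable (fun x => r x ^ p) μ) :
    Integrable (fun x => r x ^ ((4:ℝ)/3)) μ ∧ Integrable (fun x => Jalpha γ Ce p (r x)) μ ∧
    ∫ x, Jalpha γ Ce p (r x) ∂μ = γ / p * ∫ x, r x ^ p ∂μ - 3 * Ce / 4 * ∫ x, r x ^ ((4:ℝ)/3) ∂μ
      + alpha γ Ce p * ∫ x, r x ∂μ := by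
  have h43 : Integrable (fun x => r x ^ ((4:ℝ)/3)) μ := by
    refine (h1.add hpow).mono' ?_ (ae_of_all _ fun x => ?_)
    · exact (Real.continuous_rpow_const (by norm_num)).comp_aestronglyMeasurable
        h1.aestronglyMeasurable
    · rw [Real.norm_of_nonneg (Real.rpow_nonneg (h0 x) _)]
      show r x ^ ((4:ℝ)/3) ≤ r x + r x ^ p
      rcases le_total (r x) 1 with hr | hr
      · have : r x ^ ((4:ℝ)/3) ≤ r x ^ (1:ℝ) :=
          Real.rpow_le_rpow_of_exponent_ge' (h0 x) hr (by norm_num) (by norm_num)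
        rw [Real.rpow_one] at this
        have h2 := Real.rpow_nonneg (h0 x) p
        linarith
      · have : r x ^ ((4:ℝ)/3) ≤ r x ^ p := Real.rpow_le_rpow_of_exponent_le hr hp.le
        linarith [h0 x]
  refine ⟨h43, ?_, ?_⟩
  · exact ((hpow.const_mul _).sub (h43.const_mul _)).add (h1.const_mul _)
  · have e1 : ∫ x, Jalpha γ Ce p (r x) ∂μ = ∫ x, ((γ / p * r x ^ p - 3 * Ce / 4 * r x ^ ((4:ℝ)/3))
        + alpha γ Ce p * r x) ∂μ := rfl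
    have e2 : Integrable (fun x => γ / p * r x ^ p - 3 * Ce / 4 * r x ^ ((4:ℝ)/3)) μ :=
      (hpow.const_mul _).sub (h43.const_mul _)
    rw [e1, integral_add e2 (h1.const_mul _),
      integral_sub (hpow.const_mul _) (h43.const_mul _)]
    simp only [integral_const_mul]

/-- For `F = f ∘ w`: `F` and `|∇F|` are integrable and `∫|∇F| ≤ A ∫|∇w|² + ∫ J_α(w²)`. -/
lemma smooth_grad {A γ Ce p : ℝ} (hA : 0 < A) (hγ : 0 < γ) (hCe : 0 < Ce) (hp : 4 / 3 < p)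
    (w : R3 → ℝ) (hw : ContDiff ℝ 1 w) (hw0 : ∀ x, 0 ≤ w x)
    (h2 : Integrable (fun x => w x ^ 2)) (h2p : Integrable (fun x => (w x ^ 2) ^ p))
    (hg : Integrable (fun x => ‖fderiv ℝ w x‖ ^ 2)) :
    ContDiff ℝ 1 (fun x => ff A γ Ce p (w x)) ∧ (∀ x, 0 ≤ ff A γ Ce p (w x)) ∧
    Integrable (fun x => ff A γ Ce p (w x)) ∧
    Integrable (fun x => ‖fderiv ℝ (fun x => ff A γ Ce p (w x)) x‖) ∧
    ∫ x, ‖fderiv ℝ (fun x => ff A γ Ce p (w x)) x‖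
      ≤ A * (∫ x, ‖fderiv ℝ w x‖ ^ 2) + ∫ x, Jalpha γ Ce p (w x ^ 2) := by
  let F : R3 → ℝ := fun x => ff A γ Ce p (w x)
  have hF : ContDiff ℝ 1 F := (contDiff_ff A γ Ce hp).comp hw
  have hF0 : ∀ x, 0 ≤ F x := fun x => ff_nonneg A γ Ce p (hw0 x)
  have hwd : Differentiable ℝ w := hw.differentiable (by simp)
  have hFd : ∀ x, fderiv ℝ F x = hh A γ Ce p (w x) • fderiv ℝ w x := by
    intro x
    exact ((hasDerivAt_ff A γ Ce hp (w x)).comp_hasFDerivAt x (hwd x).hasFDerivAt).fderiv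
  have hnorm : ∀ x, ‖fderiv ℝ F x‖ = hh A γ Ce p (w x) * ‖fderiv ℝ w x‖ := by
    intro x
    rw [hFd, norm_smul, Real.norm_of_nonneg (hh_nonneg _ _ _ _ _)]
  have hJ := integrable_Jalpha (γ := γ) (Ce := Ce) hp (fun x => sq_nonneg (w x)) h2 h2p
  have hbound : ∀ x, ‖fderiv ℝ F x‖ ≤ A * ‖fderiv ℝ w x‖ ^ 2 + Jalpha γ Ce p (w x ^ 2) := by
    intro x
    rw [hnorm]
    unfold hh
    have h0 := Jalpha_nonneg hγ hCe hp (sq_nonneg (w x))
    nlinarith [sq_nonneg (√A * ‖fderiv ℝ w x‖ - √(Jalpha γ Ce p (w x ^ 2))), Real.sq_sqrt hA.le,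
      Real.sq_sqrt h0]
  have hFint : Integrable F := by
    refine ((h2.const_mul (A + alpha γ Ce p)).add (h2p.const_mul (γ / p))).mono'
      hF.continuous.aestronglyMeasurable (ae_of_all _ fun x => ?_)
    rw [Real.norm_of_nonneg (hF0 x)]
    exact ff_upper hA hγ hCe hp (w x) (hw0 x)
  have hbi : Integrable (fun x => A * ‖fderiv ℝ w x‖ ^ 2 + Jalpha γ Ce p (w x ^ 2)) :=
    (hg.const_mul A).add hJ.2.1
  have hFint' : Integrable (fun x => ‖fderiv ℝ F x‖) := by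
    refine hbi.mono' ?_ (ae_of_all _ fun x => ?_)
    · exact (hF.continuous_fderiv (by simp)).norm.aestronglyMeasurable
    · rw [Real.norm_of_nonneg (norm_nonneg _)]; exact hbound x
  refine ⟨hF, hF0, hFint, hFint', ?_⟩
  calc ∫ x, ‖fderiv ℝ F x‖ ≤ ∫ x, (A * ‖fderiv ℝ w x‖ ^ 2 + Jalpha γ Ce p (w x ^ 2)) :=
        integral_mono hFint' hbi hbound
    _ = _ := by rw [integral_add (hg.const_mul A) hJ.2.1, integral_const_mul]

lemma smooth_ineq {A γ Ce p : ℝ} (hA : 0 < A) (hγ : 0 < γ) (hCe : 0 < Ce) (hp : 4 / 3 < p)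
    {c : ℝ} (hc : ∀ s, 0 ≤ s → c * s ^ 2 ≤ ff A γ Ce p s)
    (w : R3 → ℝ) (hw : ContDiff ℝ 1 w) (hw0 : ∀ x, 0 ≤ w x)
    (h2 : Integrable (fun x => w x ^ 2)) (h2p : Integrable (fun x => (w x ^ 2) ^ p))
    (hg : Integrable (fun x => ‖fderiv ℝ w x‖ ^ 2)) (a : R3) (δ : ℝ) (hδ : 0 < δ) :
    ∫ x, 2 * (c * w x ^ 2) / √(‖x - a‖ ^ 2 + δ ^ 2)
      ≤ A * (∫ x, ‖fderiv ℝ w x‖ ^ 2) + ∫ x, Jalpha γ Ce p (w x ^ 2) := by
  obtain ⟨hF, hF0, hFint, hFint', hle⟩ := smooth_grad hA hγ hCe hp w hw hw0 h2 h2p hg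
  have hH := Pool.Agent.Helper149.Hardy.hardyL1 _ hF hF0 hFint hFint' a δ hδ
  have hrpos : ∀ x : R3, 0 < √(‖x - a‖ ^ 2 + δ ^ 2) := fun x => Real.sqrt_pos.mpr (by positivity)
  calc ∫ x, 2 * (c * w x ^ 2) / √(‖x - a‖ ^ 2 + δ ^ 2)
      ≤ ∫ x, 2 * ff A γ Ce p (w x) / √(‖x - a‖ ^ 2 + δ ^ 2) := by
        refine integral_mono
          (Pool.Agent.Helper149.Hardy.integrable_div_sqrt ((h2.const_mul c).const_mul 2) a δ hδ)
          (Pool.Agent.Helper149.Hardy.integrable_div_sqrt (hFint.const_mul 2) a δ hδ) fun x => ?_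
        refine div_le_div_of_nonneg_right ?_ (hrpos x).le
        exact mul_le_mul_of_nonneg_left (hc (w x) (hw0 x)) (by norm_num)
    _ ≤ _ := hH
    _ ≤ _ := hle

/-- A bound of the mass of a smooth function by its `𝓔_α`-energy. -/
lemma smooth_mass {A γ Ce p : ℝ} (hA : 0 < A) (hγ : 0 < γ) (hCe : 0 < Ce) (hp : 4 / 3 < p)
    {C₁ : ℝ} (hC₁ : 0 < C₁) (hC₁α : 1 / alpha γ Ce p < C₁) :
    ∃ C₂ : ℝ, 0 ≤ C₂ ∧ ∀ (w : R3 → ℝ), ContDiff ℝ 1 w → (∀ x, 0 ≤ w x) →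
    Integrable (fun x => w x ^ 2) → Integrable (fun x => (w x ^ 2) ^ p) →
    Integrable (fun x => ‖fderiv ℝ w x‖ ^ 2) →
    ∫ x, w x ^ 2 ≤ C₁ * (A * (∫ x, ‖fderiv ℝ w x‖ ^ 2) + ∫ x, Jalpha γ Ce p (w x ^ 2))
      + C₂ * (A * (∫ x, ‖fderiv ℝ w x‖ ^ 2) + ∫ x, Jalpha γ Ce p (w x ^ 2)) ^ ((3:ℝ)/2) := by
  obtain ⟨c, hc0, hc⟩ := ff_lower hA hγ hCe hp
  have hα := alpha_pos hγ hCe hp
  have hβ : 1 / C₁ < alpha γ Ce p := by
    rw [div_lt_iff₀ hC₁]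
    rw [div_lt_iff₀ hα] at hC₁α
    linarith
  obtain ⟨s₁, hs₁, hlow⟩ := hfun_low hγ hCe hp hβ
  obtain ⟨K, hK0, hK⟩ := Pool.Agent.Helper149.Sobolev.sobolevL1
  have hc32 : 0 < c ^ ((3:ℝ)/2) := Real.rpow_pos_of_pos hc0 _
  refine ⟨(1 / s₁) * ((c ^ ((3:ℝ)/2))⁻¹ * K), by positivity, ?_⟩
  intro w hw hw0 h2 h2p hg
  obtain ⟨hF, hF0, hFint, hFint', hle⟩ := smooth_grad hA hγ hCe hp w hw hw0 h2 h2p hg
  obtain ⟨hi, hS⟩ := hK _ hF hF0 hFint hFint'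
  have hJ := integrable_Jalpha (γ := γ) (Ce := Ce) hp (fun x => sq_nonneg (w x)) h2 h2p
  set X := A * (∫ x, ‖fderiv ℝ w x‖ ^ 2) + ∫ x, Jalpha γ Ce p (w x ^ 2) with hX
  have hg0 : 0 ≤ ∫ x, ‖fderiv ℝ w x‖ ^ 2 := integral_nonneg fun x => by positivity
  have hJ0 : 0 ≤ ∫ x, Jalpha γ Ce p (w x ^ 2) :=
    integral_nonneg fun x => Jalpha_nonneg hγ hCe hp (sq_nonneg _)
  have hpt : ∀ x, w x ^ 2 ≤ C₁ * Jalpha γ Ce p (w x ^ 2)
      + (1 / s₁) * ((c ^ ((3:ℝ)/2))⁻¹ * ff A γ Ce p (w x) ^ ((3:ℝ)/2)) := by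
    intro x
    have hJx := Jalpha_nonneg hγ hCe hp (sq_nonneg (w x))
    have hfx := Real.rpow_nonneg (hF0 x) ((3:ℝ)/2)
    rcases le_total (w x) s₁ with h1 | h1
    · have h3 := hlow (w x) (hw0 x) h1
      have h4 : w x ^ 2 ≤ C₁ * Jalpha γ Ce p (w x ^ 2) := by
        rw [Jalpha_eq hp (sq_nonneg _)]
        have h5 := mul_le_mul_of_nonneg_left h3 (by positivity : 0 ≤ w x ^ 2)
        have h6 := mul_le_mul_of_nonneg_left h5 hC₁.le
        refine le_trans (le_of_eq ?_) h6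
        field_simp
      have h7 : 0 ≤ (1 / s₁) * ((c ^ ((3:ℝ)/2))⁻¹ * ff A γ Ce p (w x) ^ ((3:ℝ)/2)) := by
        positivity
      linarith
    · have h3 : (c * w x ^ 2) ^ ((3:ℝ)/2) ≤ ff A γ Ce p (w x) ^ ((3:ℝ)/2) :=
        Real.rpow_le_rpow (by positivity) (hc (w x) (hw0 x)) (by norm_num)
      rw [Real.mul_rpow hc0.le (by positivity)] at h3
      have h4 : (w x ^ 2) ^ ((3:ℝ)/2) = w x ^ 3 := by
        rw [← Real.rpow_natCast (w x) 2, ← Real.rpow_mul (hw0 x)]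
        norm_num
      rw [h4] at h3
      have h5 : w x ^ 3 ≤ (c ^ ((3:ℝ)/2))⁻¹ * ff A γ Ce p (w x) ^ ((3:ℝ)/2) := by
        rw [inv_mul_eq_div, le_div_iff₀ hc32]
        linarith
      have h6 : w x ^ 2 ≤ (1 / s₁) * w x ^ 3 := by
        rw [one_div, inv_mul_eq_div, le_div_iff₀ hs₁]
        calc w x ^ 2 * s₁ ≤ w x ^ 2 * w x := mul_le_mul_of_nonneg_left h1 (by positivity)
          _ = w x ^ 3 := by ring
      have h7 := mul_le_mul_of_nonneg_left h5 (by positivity : 0 ≤ 1 / s₁)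
      have h8 : 0 ≤ C₁ * Jalpha γ Ce p (w x ^ 2) := by positivity
      linarith
  have hI1 : Integrable (fun x => C₁ * Jalpha γ Ce p (w x ^ 2)) :=
    hJ.2.1.const_mul _
  have hI2 : Integrable (fun x => (1 / s₁) * ((c ^ ((3:ℝ)/2))⁻¹ *
      ff A γ Ce p (w x) ^ ((3:ℝ)/2))) := (hi.const_mul _).const_mul _
  have h9 := integral_mono h2 (hI1.add hI2) hpt
  simp only [Pi.add_apply] at h9
  rw [integral_add hI1 hI2] at h9
  simp only [integral_const_mul] at h9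
  have h10 : ∫ x, Jalpha γ Ce p (w x ^ 2) ≤ X := by
    rw [hX]; nlinarith [mul_nonneg hA.le hg0]
  have h11 : (∫ x, ‖fderiv ℝ (fun x => ff A γ Ce p (w x)) x‖) ^ ((3:ℝ)/2) ≤ X ^ ((3:ℝ)/2) :=
    Real.rpow_le_rpow (integral_nonneg fun x => norm_nonneg _) hle (by norm_num)
  have h12 : ∫ x, ff A γ Ce p (w x) ^ ((3:ℝ)/2) ≤ K * X ^ ((3:ℝ)/2) :=
    hS.trans (mul_le_mul_of_nonneg_left h11 hK0)
  calc ∫ x, w x ^ 2 ≤ C₁ * (∫ x, Jalpha γ Ce p (w x ^ 2))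
        + (1 / s₁) * ((c ^ ((3:ℝ)/2))⁻¹ * ∫ x, ff A γ Ce p (w x) ^ ((3:ℝ)/2)) := h9
    _ ≤ C₁ * X + (1 / s₁) * ((c ^ ((3:ℝ)/2))⁻¹ * (K * X ^ ((3:ℝ)/2))) := by
        gcongr
    _ = _ := by ring

/-! ### The lower bound for admissible densities -/

lemma approx {p : ℝ} (hp : 4 / 3 < p) {ρ : R3 → ℝ} {g : R3 → R3} (h : Admissible p ρ g) :
    Integrable (fun x => ‖g x‖ ^ 2) ∧ Integrable (fun x => ρ x ^ ((4:ℝ)/3)) ∧
    ∃ w : ℕ → R3 → ℝ, (∀ n, ContDiff ℝ ∞ (w n)) ∧ (∀ n x, 0 ≤ w n x) ∧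
      (∀ᵐ x, Tendsto (fun n => w n x ^ 2) atTop (𝓝 (ρ x))) ∧
      (∀ n, Integrable (fun x => w n x ^ 2) ∧ ∫ x, w n x ^ 2 ≤ ∫ x, ρ x) ∧
      (∀ n, Integrable (fun x => (w n x ^ 2) ^ p) ∧ ∫ x, (w n x ^ 2) ^ p ≤ ∫ x, ρ x ^ p) ∧
      (∀ n, Integrable (fun x => (w n x ^ 2) ^ ((4:ℝ)/3)) ∧
        ∫ x, (w n x ^ 2) ^ ((4:ℝ)/3) ≤ ∫ x, ρ x ^ ((4:ℝ)/3)) ∧
      (∀ n, Integrable (fun x => ‖fderiv ℝ (w n) x‖ ^ 2) ∧
        ∫ x, ‖fderiv ℝ (w n) x‖ ^ 2 ≤ ∫ x, ‖g x‖ ^ 2) := by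
  have hpp : 0 < p := by linarith
  let u : R3 → ℝ := fun x => √(ρ x)
  have hu0 : ∀ x, 0 ≤ u x := fun x => Real.sqrt_nonneg _
  have husq : ∀ x, u x ^ 2 = ρ x := fun x => Real.sq_sqrt (h.nonneg x)
  have hum : AEStronglyMeasurable u volume :=
    Real.continuous_sqrt.comp_aestronglyMeasurable h.integrable.aestronglyMeasurable
  have hu2 : MemLp u 2 volume := by
    rw [memLp_two_iff_integrable_sq hum]
    simpa only [husq] using h.integrable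
  have huloc : LocallyIntegrable u volume := hu2.locallyIntegrable (by norm_num)
  have hgloc : LocallyIntegrable g volume := h.grad_memLp.locallyIntegrable (by norm_num)
  obtain ⟨w, hws, hw0, hwlim, hwq, hwg⟩ :=
    Pool.Agent.Helper149.Mollify.exists_mollify u g hu0 huloc hgloc h.grad_weak
  have hg2 : Integrable (fun x => ‖g x‖ ^ 2) := h.grad_memLp.integrable_norm_pow (by norm_num)
  have h43 : Integrable (fun x => ρ x ^ ((4:ℝ)/3)) :=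
    (integrable_Jalpha (γ := 1) (Ce := 1) hp h.nonneg h.integrable h.integrable_rpow).1
  -- comparison of powers
  have hcmp : ∀ n (q : ℝ), 1 ≤ 2 * q → 0 ≤ q → Integrable (fun x => ρ x ^ q) →
      Integrable (fun x => (w n x ^ 2) ^ q) ∧ ∫ x, (w n x ^ 2) ^ q ≤ ∫ x, ρ x ^ q := by
    intro n q hq1 hq0 hint
    refine Pool.Agent.Helper149.Fatou.integrable_of_lintegral_le ?_ (fun x => by positivity) hint
      (fun x => Real.rpow_nonneg (h.nonneg x) _) ?_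
    · exact (((hws n).continuous.pow 2).rpow_const (fun x => Or.inr hq0)).aestronglyMeasurable
    · have := hwq n (2 * q) hq1
      simp only [Pool.Agent.Helper149.Fatou.enorm_rpow_eq _ (hw0 n _) q hq0,
        Pool.Agent.Helper149.Fatou.enorm_rpow_eq _ (hu0 _) q hq0, husq] at this
      exact this
  have hρ1 : Integrable (fun x => ρ x ^ (1:ℝ)) := by simpa using h.integrable
  refine ⟨hg2, h43, w, hws, hw0, ?_, ?_, fun n => hcmp n p (by linarith) hpp.le h.integrable_rpow,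
    fun n => hcmp n _ (by norm_num) (by norm_num) h43, ?_⟩
  · filter_upwards [hwlim] with x hx
    have := hx.pow 2
    rwa [husq] at this
  · intro n
    have := hcmp n 1 (by norm_num) (by norm_num) hρ1
    simpa using this
  · intro n
    refine Pool.Agent.Helper149.Fatou.integrable_of_lintegral_le ?_ (fun x => by positivity) hg2
      (fun x => by positivity) ?_
    · exact (((hws n).continuous_fderiv (by simp)).norm.pow 2).aestronglyMeasurable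
    · have := hwg n 2 (by norm_num)
      have e : ∀ {E : Type} [NormedAddCommGroup E] (y : E),
          ‖y‖ₑ ^ (2:ℝ) = ENNReal.ofReal (‖y‖ ^ 2) := by
        intro E _ y
        rw [← ofReal_norm, ENNReal.ofReal_rpow_of_nonneg (norm_nonneg _) (by norm_num)]
        norm_num
      simp only [e] at this
      exact this

lemma key {A γ Ce p : ℝ} (hA : 0 < A) (hγ : 0 < γ) (hCe : 0 < Ce) (hp : 4 / 3 < p)
    {c : ℝ} (hc0 : 0 < c) (hc : ∀ s, 0 ≤ s → c * s ^ 2 ≤ ff A γ Ce p s)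
    {ρ : R3 → ℝ} {g : R3 → R3} (h : Admissible p ρ g) (a : R3) :
    Integrable (fun x => ρ x / ‖x - a‖) ∧
    2 * c * ∫ x, ρ x / ‖x - a‖ ≤ A * (∫ x, ‖g x‖ ^ 2) + ∫ x, Jalpha γ Ce p (ρ x) := by
  have hpp : 0 < p := by linarith
  have hα := alpha_pos hγ hCe hp
  obtain ⟨hg2, -, w, hws, hw0, hwlim, hw2, hw2p, -, hwgrad⟩ := approx hp h
  -- the sequence to which Fatou's lemma is applied
  let δ : ℕ → ℝ := fun n => 1 / ((n:ℝ) + 1)
  have hδ : ∀ n, 0 < δ n := fun n => by positivity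
  have hδlim : Tendsto δ atTop (𝓝 0) := tendsto_one_div_add_atTop_nhds_zero_nat
  let G : ℕ → R3 → ℝ := fun n x => 2 * (c * w n x ^ 2) / √(‖x - a‖ ^ 2 + δ n ^ 2)
    + 3 * Ce / 4 * (w n x ^ 2) ^ ((4:ℝ)/3)
  let L : R3 → ℝ := fun x => 2 * c * (ρ x / ‖x - a‖) + 3 * Ce / 4 * ρ x ^ ((4:ℝ)/3)
  let B : ℝ := A * (∫ x, ‖g x‖ ^ 2) + (γ / p * (∫ x, ρ x ^ p) + alpha γ Ce p * ∫ x, ρ x)
  have hfirst : ∀ n, Integrable (fun x => 2 * (c * w n x ^ 2) / √(‖x - a‖ ^ 2 + δ n ^ 2)) := by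
    intro n
    exact Pool.Agent.Helper149.Hardy.integrable_div_sqrt (((hw2 n).1.const_mul c).const_mul 2) a (δ n) (hδ n)
  have hJn := fun n => integrable_Jalpha (γ := γ) (Ce := Ce) hp
    (fun x => sq_nonneg (w n x)) (hw2 n).1 (hw2p n).1
  have hJρ := integrable_Jalpha (γ := γ) (Ce := Ce) hp h.nonneg h.integrable h.integrable_rpow
  have hFatou := Pool.Agent.Helper149.Fatou.fatou_real (μ := (volume : Measure R3)) G L B ?_ ?_ ?_ ?_
  · -- conclusion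
    obtain ⟨hLi, hLB⟩ := hFatou
    have hI : Integrable (fun x => ρ x / ‖x - a‖) := by
      have h1 : Integrable (fun x => 2 * c * (ρ x / ‖x - a‖)) := by
        have := hLi.sub (hJρ.1.const_mul (3 * Ce / 4))
        refine this.congr (ae_of_all _ fun x => ?_)
        simp [L]
      have h2 := h1.const_mul ((2 * c)⁻¹)
      refine h2.congr (ae_of_all _ fun x => ?_)
      show (2 * c)⁻¹ * (2 * c * (ρ x / ‖x - a‖)) = _
      field_simp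
    refine ⟨hI, ?_⟩
    have h3 : ∫ x, L x = 2 * c * (∫ x, ρ x / ‖x - a‖) + 3 * Ce / 4 * ∫ x, ρ x ^ ((4:ℝ)/3) := by
      show ∫ x, (2 * c * (ρ x / ‖x - a‖) + 3 * Ce / 4 * ρ x ^ ((4:ℝ)/3)) = _
      rw [integral_add (hI.const_mul _) (hJρ.1.const_mul _)]
      simp only [integral_const_mul]
    rw [h3] at hLB
    rw [hJρ.2.2]
    simp only [B] at hLB
    linarith
  · intro n x
    have := hδ n
    positivity
  · intro n
    exact (hfirst n).add ((hJn n).1.const_mul _)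
  · intro n
    have h1 : ∫ x, G n x = (∫ x, 2 * (c * w n x ^ 2) / √(‖x - a‖ ^ 2 + δ n ^ 2))
        + 3 * Ce / 4 * ∫ x, (w n x ^ 2) ^ ((4:ℝ)/3) := by
      show ∫ x, (2 * (c * w n x ^ 2) / √(‖x - a‖ ^ 2 + δ n ^ 2)
        + 3 * Ce / 4 * (w n x ^ 2) ^ ((4:ℝ)/3)) = _
      rw [integral_add (hfirst n) ((hJn n).1.const_mul _), integral_const_mul]
    rw [h1]
    have h2 := smooth_ineq hA hγ hCe hp hc (w n) ((hws n).of_le (by simp)) (hw0 n)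
      (hw2 n).1 (hw2p n).1 (hwgrad n).1 a (δ n) (hδ n)
    rw [(hJn n).2.2] at h2
    have h3 := mul_le_mul_of_nonneg_left (hwgrad n).2 hA.le
    have h4 := mul_le_mul_of_nonneg_left (hw2p n).2 (by positivity : 0 ≤ γ / p)
    have h5 := mul_le_mul_of_nonneg_left (hw2 n).2 hα.le
    simp only [B]
    linarith
  · have hne : ∀ᵐ x : R3, x ≠ a := by
      rw [ae_iff]
      simp
    filter_upwards [hwlim, hne] with x hx hxa
    have hxa' : 0 < ‖x - a‖ := norm_pos_iff.mpr (sub_ne_zero.mpr hxa)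
    have h1 : Tendsto (fun n => w n x ^ 2) atTop (𝓝 (ρ x)) := hx
    have h2 : Tendsto (fun n => √(‖x - a‖ ^ 2 + δ n ^ 2)) atTop (𝓝 ‖x - a‖) := by
      have h3 : Tendsto (fun n => ‖x - a‖ ^ 2 + δ n ^ 2) atTop (𝓝 (‖x - a‖ ^ 2 + 0 ^ 2)) :=
        (hδlim.pow 2).const_add _
      have h4 := (Real.continuous_sqrt.tendsto _).comp h3
      simpa [Function.comp_def, Real.sqrt_sq hxa'.le] using h4
    have h3 : Tendsto (fun n => (w n x ^ 2) ^ ((4:ℝ)/3)) atTop (𝓝 (ρ x ^ ((4:ℝ)/3))) :=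
      ((Real.continuous_rpow_const (by norm_num : (0:ℝ) ≤ 4/3)).tendsto _).comp h1
    have h4 := (((h1.const_mul c).const_mul 2).div h2 hxa'.ne').add (h3.const_mul (3 * Ce / 4))
    have h5 : L x = 2 * (c * ρ x) / ‖x - a‖ + 3 * Ce / 4 * ρ x ^ ((4:ℝ)/3) := by
      simp only [L]; ring
    rw [h5]
    exact h4

/-- The same bound for admissible densities. -/
lemma mass_bound {A γ Ce p : ℝ} (hA : 0 < A) (hγ : 0 < γ) (hCe : 0 < Ce) (hp : 4 / 3 < p)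
    {C₁ C₂ : ℝ} (hC₁ : 0 < C₁) (hC₂ : 0 ≤ C₂)
    (hC : ∀ (w : R3 → ℝ), ContDiff ℝ 1 w → (∀ x, 0 ≤ w x) →
      Integrable (fun x => w x ^ 2) → Integrable (fun x => (w x ^ 2) ^ p) →
      Integrable (fun x => ‖fderiv ℝ w x‖ ^ 2) →
      ∫ x, w x ^ 2 ≤ C₁ * (A * (∫ x, ‖fderiv ℝ w x‖ ^ 2) + ∫ x, Jalpha γ Ce p (w x ^ 2))
        + C₂ * (A * (∫ x, ‖fderiv ℝ w x‖ ^ 2) + ∫ x, Jalpha γ Ce p (w x ^ 2)) ^ ((3:ℝ)/2))
    {ρ : R3 → ℝ} {g : R3 → R3} (h : Admissible p ρ g) :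
    ∫ x, ρ x ≤ C₁ * (A * (∫ x, ‖g x‖ ^ 2) + ∫ x, Jalpha γ Ce p (ρ x))
      + C₂ * (A * (∫ x, ‖g x‖ ^ 2) + ∫ x, Jalpha γ Ce p (ρ x)) ^ ((3:ℝ)/2) := by
  have hpp : 0 < p := by linarith
  have hα := alpha_pos hγ hCe hp
  obtain ⟨hg2, h43, w, hws, hw0, hwlim, hw2, hw2p, hw43, hwgrad⟩ := approx hp h
  have hJρ := integrable_Jalpha (γ := γ) (Ce := Ce) hp h.nonneg h.integrable h.integrable_rpow
  set X := A * (∫ x, ‖g x‖ ^ 2) + ∫ x, Jalpha γ Ce p (ρ x) with hX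
  have hX0 : 0 ≤ X := by
    have h1 : 0 ≤ ∫ x, ‖g x‖ ^ 2 := integral_nonneg fun x => by positivity
    have h2 : 0 ≤ ∫ x, Jalpha γ Ce p (ρ x) :=
      integral_nonneg fun x => Jalpha_nonneg hγ hCe hp (h.nonneg x)
    positivity
  have hmain : ∀ ε : ℝ, 0 < ε → ∫ x, ρ x ≤ ε + (C₁ * (X + ε) + C₂ * (X + ε) ^ ((3:ℝ)/2)) := by
    intro ε hε
    let G : ℕ → R3 → ℝ := fun n x => w n x ^ 2 + 3 * Ce / 4 * (w n x ^ 2) ^ ((4:ℝ)/3)
    let L : R3 → ℝ := fun x => ρ x + 3 * Ce / 4 * ρ x ^ ((4:ℝ)/3)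
    have hGi : ∀ n, ∫ x, G n x = (∫ x, w n x ^ 2) + 3 * Ce / 4 * ∫ x, (w n x ^ 2) ^ ((4:ℝ)/3) := by
      intro n
      show ∫ x, (w n x ^ 2 + 3 * Ce / 4 * (w n x ^ 2) ^ ((4:ℝ)/3)) = _
      rw [integral_add (hw2 n).1 ((hw43 n).1.const_mul _), integral_const_mul]
    have hLi : ∫ x, L x = (∫ x, ρ x) + 3 * Ce / 4 * ∫ x, ρ x ^ ((4:ℝ)/3) := by
      show ∫ x, (ρ x + 3 * Ce / 4 * ρ x ^ ((4:ℝ)/3)) = _
      rw [integral_add h.integrable (h43.const_mul _), integral_const_mul]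
    obtain ⟨n, hn⟩ : ∃ n, (∫ x, L x) - ε < ∫ x, G n x := by
      by_contra hcon
      push Not at hcon
      have := Pool.Agent.Helper149.Fatou.fatou_real (μ := (volume : Measure R3)) G L ((∫ x, L x) - ε)
        (fun n x => by positivity)
        (fun n => (hw2 n).1.add ((hw43 n).1.const_mul _)) hcon ?_
      · linarith [this.2]
      · filter_upwards [hwlim] with x hx
        exact hx.add ((((Real.continuous_rpow_const
          (by norm_num : (0:ℝ) ≤ 4/3)).tendsto _).comp hx).const_mul _)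
    rw [hGi, hLi] at hn
    have hJn := integrable_Jalpha (γ := γ) (Ce := Ce) hp
      (fun x => sq_nonneg (w n x)) (hw2 n).1 (hw2p n).1
    have h1 := hC (w n) ((hws n).of_le (by simp)) (hw0 n) (hw2 n).1 (hw2p n).1 (hwgrad n).1
    have h3 := mul_le_mul_of_nonneg_left (hwgrad n).2 hA.le
    have h4 := mul_le_mul_of_nonneg_left (hw2p n).2 (by positivity : 0 ≤ γ / p)
    have h5 := mul_le_mul_of_nonneg_left (hw2 n).2 hα.le
    have h6 := mul_le_mul_of_nonneg_left (hw43 n).2 (by positivity : 0 ≤ 3 * Ce / 4)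
    have h7 := (hw2 n).2
    have hXn : A * (∫ x, ‖fderiv ℝ (w n) x‖ ^ 2) + ∫ x, Jalpha γ Ce p (w n x ^ 2) ≤ X + ε := by
      rw [hX, hJn.2.2, hJρ.2.2]
      linarith
    have hXn0 : 0 ≤ A * (∫ x, ‖fderiv ℝ (w n) x‖ ^ 2) + ∫ x, Jalpha γ Ce p (w n x ^ 2) := by
      have h1 : 0 ≤ ∫ x, ‖fderiv ℝ (w n) x‖ ^ 2 := integral_nonneg fun x => by positivity
      have h2 : 0 ≤ ∫ x, Jalpha γ Ce p (w n x ^ 2) :=
        integral_nonneg fun x => Jalpha_nonneg hγ hCe hp (sq_nonneg _)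
      positivity
    have h8 := mul_le_mul_of_nonneg_left hXn hC₁.le
    have h9 := mul_le_mul_of_nonneg_left
      (Real.rpow_le_rpow hXn0 hXn (by norm_num : (0:ℝ) ≤ 3/2)) hC₂
    linarith
  have hcont : Continuous fun ε : ℝ => ε + (C₁ * (X + ε) + C₂ * (X + ε) ^ ((3:ℝ)/2)) := by
    have h1 : Continuous fun ε : ℝ => (X + ε) ^ ((3:ℝ)/2) :=
      (Real.continuous_rpow_const (by norm_num)).comp (continuous_const.add continuous_id)
    fun_prop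
  have hlim := (hcont.tendsto 0).mono_left (nhdsWithin_le_nhds (s := Ioi (0:ℝ)))
  simp only [add_zero, zero_add] at hlim
  exact ge_of_tendsto hlim (eventually_nhdsWithin_of_forall fun ε hε => hmain ε hε)


end Pool.Agent.Helper149.TFDW
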